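import Pool.Agent.P.MP_8d0004_nt.Bes.Gum

/-! Central moments and the window integral of the model cubic. -/

namespace Pool.Agent.P.MP_8d0004_nt.Bes

open MeasureTheory Real Set Filter Topology

/-- cumulants of the variable -/
noncomputable def kc (n : ℕ) : ℝ := cu (n - 1) / 2 ^ n

/-- central moments -/
noncomputable def cm (n : ℕ) : ℝ := ∫ w, (w - kc 1) ^ n ∂gum

lemma cm_integrable (n : ℕ) : Integrable (fun w => (w - kc 1) ^ n) gum := by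
  simp_rw [sub_eq_add_neg, add_pow]
  exact integrable_finsetSum _ fun i _ => ((gum_pow i).mul_const _).mul_const _

lemma cm_eq (n : ℕ) : cm n =
    ∑ i ∈ Finset.range (n + 1), nm i / 2 ^ i * (-kc 1) ^ (n - i) * n.choose i := by
  simp_rw [cm, sub_eq_add_neg, add_pow]
  rw [integral_finsetSum _ fun i _ => ((gum_pow i).mul_const _).mul_const _]
  simp_rw [integral_mul_const, gum_moment]

lemma cm_values : cm 0 = 1 ∧ cm 1 = 0 ∧ cm 2 = kc 2 ∧ cm 3 = kc 3 ∧ cm 4 = kc 4 + 3 * kc 2 ^ 2 ∧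
    cm 5 = kc 5 + 10 * kc 2 * kc 3 ∧
    cm 7 = kc 7 + 21 * kc 2 * kc 5 + 35 * kc 3 * kc 4 + 105 * kc 2 ^ 2 * kc 3 := by
  have h0 := nm_zero
  have h1 := nm_rec 0
  have h2 := nm_rec 1
  have h3 := nm_rec 2
  have h4 := nm_rec 3
  have h5 := nm_rec 4
  have h6 := nm_rec 5
  have h7 := nm_rec 6
  simp only [Finset.sum_range_succ, Finset.sum_range_zero, Nat.choose, Nat.reduceAdd,
    Nat.reduceSub] at h1 h2 h3 h4 h5 h6 h7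
  simp only [cm_eq, kc, Finset.sum_range_succ, Finset.sum_range_zero, Nat.choose, Nat.reduceAdd,
    Nat.reduceSub, h7, h6, h5, h4, h3, h2, h1, h0]
  push_cast
  refine ⟨?_, ?_, ?_, ?_, ?_, ?_, ?_⟩ <;> ring

/-- the model cubic -/
noncomputable def psi (x : ℝ) : ℝ := x ^ 3 - 3 * kc 2 * x - kc 3

lemma int_cubic (a b c d : ℝ) : ∫ w, (a * (w - kc 1) ^ 3 + b * (w - kc 1) ^ 2
    + c * (w - kc 1) ^ 1 + d * (w - kc 1) ^ 0) ∂gum = a * kc 3 + b * kc 2 + d := by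
  obtain ⟨h0, h1, h2, h3, -⟩ := cm_values
  have i := fun (n : ℕ) (x : ℝ) => (cm_integrable n).const_mul x
  have i1 : Integrable (fun w => a * (w - kc 1) ^ 3 + b * (w - kc 1) ^ 2) gum := (i 3 a).add (i 2 b)
  have i2 : Integrable (fun w => a * (w - kc 1) ^ 3 + b * (w - kc 1) ^ 2 + c * (w - kc 1) ^ 1) gum :=
    i1.add (i 1 c)
  rw [integral_add i2 (i 0 d), integral_add i1 (i 1 c), integral_add (i 3 a) (i 2 b)]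
  simp only [integral_const_mul]
  unfold cm at h0 h1 h2 h3
  rw [h0, h1, h2, h3]; ring

lemma TT_cubic (s a b c d y : ℝ) : TT gum s (fun y => a * y ^ 3 + b * y ^ 2 + c * y + d) y =
    a * ((y + s * kc 1) ^ 3 + 3 * (y + s * kc 1) * s ^ 2 * kc 2 + s ^ 3 * kc 3)
      + b * ((y + s * kc 1) ^ 2 + s ^ 2 * kc 2) + c * (y + s * kc 1) + d := by
  have := int_cubic (a * s ^ 3) (3 * a * (y + s * kc 1) * s ^ 2 + b * s ^ 2)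
    (3 * a * (y + s * kc 1) ^ 2 * s + 2 * b * (y + s * kc 1) * s + c * s)
    (a * (y + s * kc 1) ^ 3 + b * (y + s * kc 1) ^ 2 + c * (y + s * kc 1) + d)
  calc _ = _ := by unfold TT; congr 1; funext w; ring
    _ = _ := this
    _ = _ := by ring

lemma int_list (L : List (ℝ × ℕ × ℕ)) :
    Integrable (fun z : ℝ × ℝ =>
      (L.map fun t => t.1 * ((z.1 - kc 1) ^ t.2.1 * (z.2 - kc 1) ^ t.2.2)).sum) (gum.prod gum) ∧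
    ∫ z, (L.map fun t => t.1 * ((z.1 - kc 1) ^ t.2.1 * (z.2 - kc 1) ^ t.2.2)).sum ∂(gum.prod gum)
      = (L.map fun t => t.1 * (cm t.2.1 * cm t.2.2)).sum := by
  induction L with
  | nil => simp
  | cons t L ih =>
    have i := ((cm_integrable t.2.1).mul_prod (cm_integrable t.2.2)).const_mul t.1
    simp only [List.map_cons, List.sum_cons]
    refine ⟨i.add ih.1, ?_⟩
    rw [integral_add i ih.1, ih.2, integral_const_mul,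
      integral_prod_mul (fun w => (w - kc 1) ^ t.2.1) (fun w => (w - kc 1) ^ t.2.2)]
    rfl

lemma int_sextic (e0 e1 e2 e3 e4 e5 e6 x y : ℝ) :
    ∫ u in x..y, (e0 + e1 * u + e2 * u ^ 2 + e3 * u ^ 3 + e4 * u ^ 4 + e5 * u ^ 5 + e6 * u ^ 6) =
      (e0 * y + e1 * y ^ 2 / 2 + e2 * y ^ 3 / 3 + e3 * y ^ 4 / 4 + e4 * y ^ 5 / 5 + e5 * y ^ 6 / 6
        + e6 * y ^ 7 / 7) - (e0 * x + e1 * x ^ 2 / 2 + e2 * x ^ 3 / 3 + e3 * x ^ 4 / 4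
        + e4 * x ^ 5 / 5 + e5 * x ^ 6 / 6 + e6 * x ^ 7 / 7) := by
  have d := fun (n : ℕ) (e c u : ℝ) => ((hasDerivAt_pow n u).const_mul e).div_const c
  refine intervalIntegral.integral_eq_sub_of_hasDerivAt (f := fun y => e0 * y + e1 * y ^ 2 / 2
    + e2 * y ^ 3 / 3 + e3 * y ^ 4 / 4 + e4 * y ^ 5 / 5 + e5 * y ^ 6 / 6 + e6 * y ^ 7 / 7)
    (fun u _ => ?_) ((by fun_prop : Continuous _).intervalIntegrable _ _)
  exact ((((((((hasDerivAt_id' u).const_mul e0).fun_add (d 2 e1 2 u)).fun_add (d 3 e2 3 u)).fun_add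
    (d 4 e3 4 u)).fun_add (d 5 e4 5 u)).fun_add (d 6 e5 6 u)).fun_add (d 7 e6 7 u)).congr_deriv
    (by push_cast; ring)

/-- coefficients of the window integral -/
noncomputable def winL (Y Z p q : ℝ) : List (ℝ × ℕ × ℕ) :=
  [(Z * q ^ 2 + 3 * Z ^ 2 * p * q + 3 * Z ^ 3 * p ^ 2 + (-1 / 2) * Z ^ 4 * q + (-6 / 5)
      * Z ^ 5 * p + 1 / 7 * Z ^ 7 + (-1) * Y * q ^ 2 + (-3) * Y ^ 2 * p * q + (-3) * Y ^ 3 *
      p ^ 2 + 1 / 2 * Y ^ 4 * q + 6 / 5 * Y ^ 5 * p + (-1 / 7) * Y ^ 7, 0, 0),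
  (q ^ 2 + 3 * Z * p * q + 9 / 2 * Z ^ 2 * p ^ 2 + (-1) * Z ^ 3 * q + (-3) * Z ^ 4 * p +
      1 / 2 * Z ^ 6 + 3 * Y * p * q + 9 / 2 * Y ^ 2 * p ^ 2 + (-1) * Y ^ 3 * q + (-3) * Y ^
      4 * p + 1 / 2 * Y ^ 6, 0, 1),
  ((-3 / 2) * Z ^ 2 * q + (-3) * Z ^ 3 * p + 3 / 5 * Z ^ 5 + 3 / 2 * Y ^ 2 * q + 3 * Y ^
      3 * p + (-3 / 5) * Y ^ 5, 0, 2),
  ((-3 / 2) * p ^ 2 + (-1) * Z * q + (-3 / 2) * Z ^ 2 * p + 1 / 4 * Z ^ 4 + (-1) * Y * q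
      + (-3 / 2) * Y ^ 2 * p + 1 / 4 * Y ^ 4, 0, 3),
  (3 / 10 * p, 0, 5),
  ((-1 / 140), 0, 7),
  (q ^ 2 + 3 * Z * p * q + 9 / 2 * Z ^ 2 * p ^ 2 + (-1) * Z ^ 3 * q + (-3) * Z ^ 4 * p +
      1 / 2 * Z ^ 6 + 3 * Y * p * q + 9 / 2 * Y ^ 2 * p ^ 2 + (-1) * Y ^ 3 * q + (-3) * Y ^
      4 * p + 1 / 2 * Y ^ 6, 1, 0),
  (9 * Z * p ^ 2 + (-6) * Z ^ 3 * p + 9 / 5 * Z ^ 5 + (-9) * Y * p ^ 2 + 6 * Y ^ 3 * p +
      (-9 / 5) * Y ^ 5, 1, 1),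
  (9 / 2 * p ^ 2 + (-9 / 2) * Z ^ 2 * p + 9 / 4 * Z ^ 4 + (-9 / 2) * Y ^ 2 * p + 9 / 4 *
      Y ^ 4, 1, 2),
  ((-3) * Z * p + Z ^ 3 + 3 * Y * p + (-1) * Y ^ 3, 1, 3),
  ((-3 / 2) * p, 1, 4),
  (1 / 20, 1, 6),
  ((-3 / 2) * Z ^ 2 * q + (-3) * Z ^ 3 * p + 3 / 5 * Z ^ 5 + 3 / 2 * Y ^ 2 * q + 3 * Y ^
      3 * p + (-3 / 5) * Y ^ 5, 2, 0),
  (9 / 2 * p ^ 2 + (-9 / 2) * Z ^ 2 * p + 9 / 4 * Z ^ 4 + (-9 / 2) * Y ^ 2 * p + 9 / 4 *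
      Y ^ 4, 2, 1),
  (3 * Z ^ 3 + (-3) * Y ^ 3, 2, 2),
  (3 / 2 * Z ^ 2 + 3 / 2 * Y ^ 2, 2, 3),
  ((-3 / 20), 2, 5),
  ((-3 / 2) * p ^ 2 + (-1) * Z * q + (-3 / 2) * Z ^ 2 * p + 1 / 4 * Z ^ 4 + (-1) * Y * q
      + (-3 / 2) * Y ^ 2 * p + 1 / 4 * Y ^ 4, 3, 0),
  ((-3) * Z * p + Z ^ 3 + 3 * Y * p + (-1) * Y ^ 3, 3, 1),
  (3 / 2 * Z ^ 2 + 3 / 2 * Y ^ 2, 3, 2),
  (Z + (-1) * Y, 3, 3),
  (1 / 4, 3, 4),
  ((-3 / 2) * p, 4, 1),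
  (1 / 4, 4, 3),
  (3 / 10 * p, 5, 0),
  ((-3 / 20), 5, 2),
  (1 / 20, 6, 1),
  ((-1 / 140), 7, 0)]

lemma win_poly (Y Z a b p q : ℝ) :
    ∫ u in (Y - (a + b))..Z, ((u + a) ^ 3 - 3 * p * (u + a) - q) * ((u + b) ^ 3 - 3 * p * (u + b) - q)
      = ((winL Y Z p q).map fun t => t.1 * (a ^ t.2.1 * b ^ t.2.2)).sum := by
  have := int_sextic
    (q ^ 2 + 3 * b * p * q + (-1) * b ^ 3 * q + 3 * a * p * q + 9 * a * b * p ^ 2 + (-3) *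
      a * b ^ 3 * p + (-1) * a ^ 3 * q + (-3) * a ^ 3 * b * p + a ^ 3 * b ^ 3)
    (6 * p * q + 9 * b * p ^ 2 + (-3) * b ^ 2 * q + (-3) * b ^ 3 * p + 9 * a * p ^ 2 + (-9)
      * a * b ^ 2 * p + (-3) * a ^ 2 * q + (-9) * a ^ 2 * b * p + 3 * a ^ 2 * b ^ 3 + (-3) *
      a ^ 3 * p + 3 * a ^ 3 * b ^ 2)
    (9 * p ^ 2 + (-3) * b * q + (-9) * b ^ 2 * p + (-3) * a * q + (-18) * a * b * p + 3 * a
      * b ^ 3 + (-9) * a ^ 2 * p + 9 * a ^ 2 * b ^ 2 + 3 * a ^ 3 * b)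
    ((-2) * q + (-12) * b * p + b ^ 3 + (-12) * a * p + 9 * a * b ^ 2 + 9 * a ^ 2 * b + a ^
      3)
    ((-6) * p + 3 * b ^ 2 + 9 * a * b + 3 * a ^ 2) (3 * b + 3 * a) 1 (Y - (a + b)) Z
  calc _ = _ := by congr 1; funext u; ring
    _ = _ := this
    _ = _ := by simp only [winL, List.map_cons, List.map_nil, List.sum_cons, List.sum_nil]; ring

lemma window_value (Y : ℝ) :
    ∫ z, (∫ u in (Y - (z.1 + z.2))..Y, psi (u + z.1 + kc 1) * psi (u + z.2 + kc 1)) ∂(gum.prod gum)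
      = (Y + 2 * kc 1) ^ 7 / 7 - (Y ^ 7 / 7 - kc 3 * Y ^ 4 + 4 * kc 3 ^ 2 * Y)
        + 9 * LR.zt 7 / 112 := by
  have e : ∀ z : ℝ × ℝ, ∫ u in (Y - (z.1 + z.2))..Y, psi (u + z.1 + kc 1) * psi (u + z.2 + kc 1)
      = ((winL Y (Y + 2 * kc 1) (kc 2) (kc 3)).map fun t =>
        t.1 * ((z.1 - kc 1) ^ t.2.1 * (z.2 - kc 1) ^ t.2.2)).sum := fun z => by
    rw [← win_poly, show Y - (z.1 - kc 1 + (z.2 - kc 1)) = Y - (z.1 + z.2) + 2 * kc 1 by ring,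
      ← intervalIntegral.integral_comp_add_right]
    congr 1; funext u; unfold psi; ring
  simp_rw [e]
  rw [(int_list _).2]
  obtain ⟨h0, h1, h2, h3, h4, h5, h7⟩ := cm_values
  have k7 : kc 7 = -(45 / 8) * LR.zt 7 := by
    have := cu_eq 5
    simp only [kc, Nat.reduceSub, Nat.reduceAdd] at this ⊢
    rw [this]; norm_num [Nat.factorial]; ring
  simp only [winL, List.map_cons, List.map_nil, List.sum_cons, List.sum_nil, h0, h1, h2, h3, h4, h5,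
    h7, k7]
  ring

end Pool.Agent.P.MP_8d0004_nt.Bes
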