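import Pool.Agent.P.MP_8d0004_nt.Bes.Van
import Pool.Agent.P.MP_8d0004_nt.Bes.Mom
import Pool.Agent.P.MP_8d0004_nt.LR.Stm

/-! The Bessel half of the determinant evaluation. -/

namespace Pool.Agent.P.MP_8d0004_nt.Bes

open MeasureTheory Real Set Filter Topology

lemma wb_id {ε : ℝ} (h : 0 < ε) : Wb (fun y => ε * |y|) (fun y => y) :=
  ⟨continuous_id, 1 / ε, by positivity, fun y => by
    have := add_one_le_exp (ε * |y|)
    rw [one_div, inv_mul_eq_div, le_div_iff₀ h]
    linarith⟩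

lemma wb_const {ε : ℝ} (h : 0 < ε) (c : ℝ) : Wb (fun y => ε * |y|) (fun _ => c) :=
  ⟨continuous_const, |c|, abs_nonneg c, fun y =>
    le_mul_of_one_le_right (abs_nonneg c) (one_le_exp (by positivity))⟩

lemma wb_cubic {ε : ℝ} (h : 0 < ε) (a b c d : ℝ) :
    Wb (fun y => ε * |y|) (fun y => a * y ^ 3 + b * y ^ 2 + c * y + d) := by
  have h1 := wb_id (ε := ε / 3) (by positivity)
  have h2 := ((h1.mul h1).mono (g' := fun y => ε * |y|) fun y => by nlinarith [abs_nonneg y])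
  have h3 := (((h1.mul h1).mul h1).mono (g' := fun y => ε * |y|) fun y => by linarith)
  exact ((((h3.cmul a).add (h2.cmul b)).add ((wb_id h).cmul c)).add (wb_const h d)).congr
    fun y => by ring

lemma wb_pair {a C : ℝ} {p Q : ℝ → ℝ} (ha : 0 < a) (c : Continuous p)
    (hQ : Wb (fun y => a / 2 * |y|) Q) (h1 : ∀ y, y ≤ 0 → |p y| ≤ C * exp (a * y))
    (h2 : ∀ y, 0 ≤ y → |p y - Q y| ≤ C * exp (-a * y)) :
    Wb (fun y => a * y) p ∧ Wb (fun y => -a * y) (fun y => p y - Q y) := by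
  obtain ⟨c', D, hD, hQ⟩ := hQ
  have hC : 0 ≤ C := by simpa using (abs_nonneg _).trans (h1 0 le_rfl)
  refine ⟨⟨c, C + D, by positivity, fun y => ?_⟩, c.sub c', C + D, by positivity, fun y => ?_⟩
  · have := exp_pos (a * y)
    beta_reduce
    rcases le_total y 0 with hy | hy
    · nlinarith [h1 y hy]
    · have e1 : exp (-a * y) ≤ exp (a * y) := exp_le_exp.2 (by nlinarith)
      have e2 : exp (a / 2 * |y|) ≤ exp (a * y) := exp_le_exp.2 (by rw [abs_of_nonneg hy]; nlinarith)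
      have e3 := abs_add_le (p y - Q y) (Q y)
      rw [sub_add_cancel] at e3
      nlinarith [h2 y hy, hQ y]
  · have := exp_pos (-a * y)
    beta_reduce
    rcases le_total y 0 with hy | hy
    · have e1 : exp (a * y) ≤ exp (-a * y) := exp_le_exp.2 (by nlinarith)
      have e2 : exp (a / 2 * |y|) ≤ exp (-a * y) :=
        exp_le_exp.2 (by rw [abs_of_nonpos hy]; nlinarith)
      nlinarith [h1 y hy, hQ y, abs_sub (p y) (Q y)]
    · nlinarith [h2 y hy]

lemma Wb.tendsto {a : ℝ} {f : ℝ → ℝ} (ha : 0 < a) (h : Wb (fun y => -a * y) f) :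
    Tendsto f atTop (𝓝 0) := by
  obtain ⟨_, C, _, h⟩ := h
  have := (tendsto_exp_neg_atTop_nhds_zero.comp (tendsto_id.const_mul_atTop ha)).const_mul C
  rw [mul_zero] at this
  exact squeeze_zero_norm (fun y => by simpa using h y) this

lemma cubic_zero {a b c d : ℝ}
    (h : Tendsto (fun y : ℝ => a * y ^ 3 + b * y ^ 2 + c * y + d) atTop (𝓝 0)) :
    a = 0 ∧ b = 0 ∧ c = 0 ∧ d = 0 := by
  have s := fun k : ℝ => h.comp (tendsto_atTop_add_const_right _ k tendsto_id)
  have z : ∀ {x : ℝ} {f : ℝ → ℝ}, Tendsto f atTop (𝓝 0) → (∀ y, f y = x) → x = 0 := fun h e =>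
    tendsto_const_nhds_iff.1 (h.congr e)
  have ha : a = 0 := by
    have := (((s 3).sub ((s 2).const_mul 3)).add ((s 1).const_mul 3)).sub h
    simp only [mul_zero, sub_zero, add_zero] at this
    have := z (x := 6 * a) this fun y => by simp only [Function.comp, id]; ring
    linarith
  have hb : b = 0 := by
    have := ((s 2).sub ((s 1).const_mul 2)).add h
    simp only [mul_zero, sub_zero, add_zero] at this
    have := z (x := 2 * b) this fun y => by simp only [Function.comp, id, ha]; ring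
    linarith
  have hc : c = 0 := by
    have := (s 1).sub h
    simp only [sub_zero] at this
    exact z this fun y => by simp only [Function.comp, id, ha, hb]; ring
  exact ⟨ha, hb, hc, z h fun y => by rw [ha, hb, hc]; ring⟩

lemma ident {a : ℝ} {p γ Q Γ : ℝ → ℝ} (ha : 0 < a) (ha1 : a ≤ 1 / 2)
    (hp : Wb (fun y => a * y) p) (hγ : Wb (fun y => a * y) γ)
    (hQ : Wb (fun y => a / 2 * |y|) Q) (hΓ : Wb (fun y => a / 2 * |y|) Γ)
    (hpd : Wb (fun y => -a * y) (fun y => p y - Q y))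
    (hγd : Wb (fun y => -a * y) (fun y => γ y - Γ y))
    (h : ∀ y, TT gum 1 p y = TT gum (-1) γ y) :
    Tendsto (fun y => TT gum 1 Q y - TT gum (-1) Γ y) atTop (𝓝 0) := by
  have s1 : |(1:ℝ)| ≤ 1 := by simp
  have s2 : |(-1:ℝ)| ≤ 1 := by simp
  have l1 : Lip (fun y => a * y) := Lip.lin (by rw [abs_of_pos ha]; linarith)
  have l2 : Lip (fun y => -a * y) := Lip.lin (by rw [abs_neg, abs_of_pos ha]; linarith)
  have l3 : Lip (fun y => a / 2 * |y|) := Lip.abs (by rw [abs_of_pos (half_pos ha)]; linarith)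
  refine (((hγd.TT gum_exp_abs l2 s2).sub (hpd.TT gum_exp_abs l2 s1)).tendsto ha).congr fun y => ?_
  rw [TT_sub gum_exp_abs l1 l3 hp hQ s1, TT_sub gum_exp_abs l1 l3 hγ hΓ s2, h]
  ring

lemma reflect {φ ψ : ℝ → ℝ} (h : Env φ) (c : Continuous ψ) (he : Eqv φ ψ) :
    ∃ δ, 0 < δ ∧ ∀ a, 0 < a → a ≤ δ → a ≤ 1 / 2 → ∃ C,
      (∀ y, y ≤ 0 → |φ (log 2 - y)| ≤ C * exp (a * y)) ∧
      ∀ y, 0 ≤ y → |φ (log 2 - y) - ψ (log 2 - y)| ≤ C * exp (-a * y) := by
  obtain ⟨δ, hδ, h2⟩ := he.2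
  obtain ⟨C1, hC1, h1⟩ := h.le_exp_neg
  obtain ⟨C2, h2⟩ := h2.bound
  obtain ⟨b, hb⟩ := eventually_atBot.1 h2
  have c1 := h.1
  obtain ⟨C3, h3⟩ := (isCompact_Icc (a := b) (b := log 2)).exists_bound_of_continuousOn
    (f := fun u => (φ u - ψ u) * exp (-(δ * u))) (by fun_prop)
  have l2 : 0 ≤ log 2 := log_nonneg one_le_two
  have h4 : ∀ u, u ≤ log 2 → |φ u - ψ u| ≤ (|C2| + |C3|) * exp (δ * u) := fun u hu => by
    have := exp_pos (δ * u)
    rcases le_total u b with h5 | h5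
    · have h6 := hb u h5
      rw [Real.norm_eq_abs, Real.norm_eq_abs, abs_of_pos this] at h6
      nlinarith [le_abs_self C2, abs_nonneg C3]
    · have h6 := h3 u ⟨h5, hu⟩
      rw [Real.norm_eq_abs, abs_mul, abs_of_pos (exp_pos _), exp_neg, ← div_eq_mul_inv,
        div_le_iff₀ this] at h6
      nlinarith [le_abs_self C3, abs_nonneg C2]
  refine ⟨δ, hδ, fun a ha h5 h6 => ⟨C1 + (|C2| + |C3|) * exp (δ * log 2), fun y hy => ?_,
    fun y hy => ?_⟩⟩
  · have e1 : exp (-(log 2 - y)) ≤ exp (a * y) := exp_le_exp.2 (by nlinarith)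
    have e2 : 0 ≤ (|C2| + |C3|) * exp (δ * log 2) * exp (a * y) := by positivity
    nlinarith [h1 (log 2 - y)]
  · have e1 : exp (δ * (log 2 - y)) ≤ exp (δ * log 2) * exp (-a * y) := by
      rw [← exp_add]; exact exp_le_exp.2 (by nlinarith)
    have e2 : 0 ≤ C1 * exp (-a * y) := by positivity
    have e3 := mul_le_mul_of_nonneg_left e1 (add_nonneg (abs_nonneg C2) (abs_nonneg C3))
    nlinarith [h4 (log 2 - y) (by linarith)]

lemma env_kk : Env kk := by
  refine ⟨cont_kk, 3 * (|cc| + 3), by positivity, fun v => ?_⟩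
  rw [abs_of_nonneg (kk_nonneg v), sub_eq_add_neg, exp_add]
  have e0 : 1 ≤ exp (|v| / 2) := one_le_exp (by positivity)
  have e1 := exp_pos (-exp v)
  rcases le_total 0 v with hv | hv
  · have h1 : 1 ≤ exp v := one_le_exp hv
    have h2 := (exp_mul_kk_le v).trans (ka_upper v)
    have h3 : kk v ≤ 2 * exp (-exp v) := by
      refine le_of_mul_le_mul_left (h2.trans ?_) (exp_pos v)
      nlinarith
    have h4 : 1 * exp (-exp v) ≤ exp (|v| / 2) * exp (-exp v) := by gcongr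
    nlinarith [abs_nonneg cc]
  · have h1 := (kk_asym v).2
    have h2 : exp v ≤ 1 := exp_le_one_iff.2 hv
    have h3 : 1 ≤ 3 * exp (-exp v) := by
      have := exp_exp_le hv
      rw [exp_neg, ← div_eq_mul_inv, le_div_iff₀ (exp_pos _)]
      linarith
    have h4 := add_one_le_exp (|v| / 2)
    have h5 : kk v ≤ (|cc| + 3) * exp (|v| / 2) := by
      have := neg_abs_le v
      nlinarith [le_abs_self cc, abs_nonneg cc]
    have h6 : 0 ≤ (|cc| + 3) * exp (|v| / 2) := by positivity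
    nlinarith

lemma AA_kk (y : ℝ) : (1 + exp y ^ 2) * AA kk y = 1 := by
  have i := (int_j0 (env_kk.In (n := 2) (by norm_num) (by norm_num)) y).const_mul (1 + exp y ^ 2)
  have t1 : ∀ {l : Filter ℝ}, Tendsto (fun v : ℝ => |v|) l atTop →
      Tendsto (fun v => j1 (y + v) * kk v) l (𝓝 0) := fun hl => by
    have := ((env_kk.tendsto le_rfl (by norm_num) hl).abs).const_mul (exp y)
    simp only [abs_zero, mul_zero, one_mul] at this
    exact squeeze_zero_norm (fun v => by simpa using abs_j1_mul_le y v (kk v)) this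
  have t2 : Tendsto (fun v => j0 (y + v) * ka v) atTop (𝓝 0) := by
    have := ((tendsto_pow_mul_exp_neg_atTop_nhds_zero 0).add
      (tendsto_pow_mul_exp_neg_atTop_nhds_zero 1)).comp tendsto_exp_atTop
    rw [add_zero] at this
    refine squeeze_zero_norm (fun v => ?_) this
    rw [Real.norm_eq_abs, abs_mul, abs_of_pos (ka_pos v)]
    refine (mul_le_of_le_one_left (ka_pos v).le (abs_j0_le _)).trans ((ka_upper v).trans ?_)
    simp only [Function.comp]; linarith
  have t3 := (j0_tendsto.comp (tendsto_atBot_add_const_left _ y tendsto_id)).mul eqv_ka.tendsto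
  have := integral_of_hasDerivAt_of_tendsto (f := fun v => j1 (y + v) * kk v - j0 (y + v) * ka v)
    (fun v => ((((hj1 (y + v)).comp_const_add y v).fun_mul (hkk v)).fun_sub
      (((hj0 (y + v)).comp_const_add y v).fun_mul (hka v))).congr_deriv
      (show _ = (1 + exp y ^ 2) * (j0 (y + v) * (exp v ^ 2 * kk v)) by rw [exp_add]; ring)) i
    ((t1 tendsto_abs_atBot_atTop).sub t3) ((t1 tendsto_abs_atTop_atTop).sub t2)
  rw [integral_const_mul] at this
  unfold AA
  linarith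

lemma PP_tendsto {φ : ℝ → ℝ} (h : Env φ) : Tendsto (PP φ) atBot (𝓝 0) := by
  have := tendsto_exp_atBot.const_mul (∫ v, |exp v ^ 1 * φ v|)
  rw [mul_zero] at this
  exact squeeze_zero_norm (abs_PP_le (h.In le_rfl (by norm_num))) this

lemma PP_kk (y : ℝ) : PP kk y = log (1 + exp y ^ 2) / 2 := by
  have hd : ∀ y, HasDerivAt (fun y => PP kk y - log (1 + exp y ^ 2) / 2) 0 y := fun y =>
    ((PP_deriv cont_kk (env_kk.In le_rfl (by norm_num)) (env_kk.In (by norm_num) (by norm_num))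
      y).fun_sub (((((hasDerivAt_exp y).fun_pow 2).const_add 1).log (by positivity)).div_const
      2)).congr_deriv (by
        have := AA_kk y
        have h2 : 1 + exp y ^ 2 ≠ 0 := by positivity
        push_cast
        field_simp
        linear_combination exp y ^ 2 * this)
  have h1 : ∀ x, PP kk x - log (1 + exp x ^ 2) / 2 = PP kk y - log (1 + exp y ^ 2) / 2 := fun x =>
    is_const_of_deriv_eq_zero (fun x => (hd x).differentiableAt) (fun x => (hd x).deriv) x y
  have h2 := (PP_tendsto env_kk).sub ((((tendsto_exp_atBot.pow 2).const_add 1).log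
    (by norm_num)).div_const 2)
  simp only [h1] at h2
  have := tendsto_const_nhds_iff.1 h2
  simp at this
  linarith

lemma PP_cont {φ : ℝ → ℝ} (h : Env φ) : Continuous (PP φ) :=
  continuous_iff_continuousAt.2 fun y => (PP_deriv h.1 (h.In le_rfl (by norm_num))
    (h.In (by norm_num) (by norm_num)) y).continuousAt

lemma PP_pair {φ Q : ℝ → ℝ} {a C : ℝ} (h : Env φ) (ha : 0 < a) (ha1 : a ≤ 1 / 2)
    (hQ : Wb (fun y => a / 2 * |y|) Q) (h2 : ∀ y, 0 ≤ y → |PP φ y - Q y| ≤ C * exp (-y)) :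
    Wb (fun y => a * y) (PP φ) ∧ Wb (fun y => -a * y) (fun y => PP φ y - Q y) := by
  have hC : 0 ≤ C := by simpa using (abs_nonneg _).trans (h2 0 le_rfl)
  have hD : 0 ≤ ∫ v, |exp v ^ 1 * φ v| := integral_nonneg fun _ => abs_nonneg _
  refine wb_pair (C := C + ∫ v, |exp v ^ 1 * φ v|) ha (PP_cont h) hQ (fun y hy => ?_) fun y hy => ?_
  · have e1 : exp y ≤ exp (a * y) := exp_le_exp.2 (by nlinarith)
    nlinarith [abs_PP_le (h.In le_rfl (by norm_num)) y, exp_pos (a * y)]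
  · have e1 : exp (-y) ≤ exp (-a * y) := exp_le_exp.2 (by nlinarith)
    nlinarith [h2 y hy, exp_pos (-a * y)]

lemma cc_eq : cc = log 2 + 2 * kc 1 := by
  obtain ⟨δ, hδ, h⟩ := reflect env_kk (by fun_prop) eqv_kk
  have ha : 0 < min δ (1 / 2) := lt_min hδ (by norm_num)
  obtain ⟨C, h1, h2⟩ := h _ ha (min_le_left _ _) (min_le_right _ _)
  have hQ := wb_cubic (half_pos ha) 0 0 1 0
  have hΓ := wb_cubic (half_pos ha) 0 0 1 (cc - log 2)
  obtain ⟨p1, p2⟩ := PP_pair (C := 1) env_kk ha (min_le_right _ _) hQ fun y hy => by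
    have e : PP kk y - (0 * y ^ 3 + 0 * y ^ 2 + 1 * y + 0) = log (1 + exp (-y) ^ 2) / 2 := by
      have : 1 + exp y ^ 2 = exp y ^ 2 * (1 + exp (-y) ^ 2) := by rw [exp_neg]; field_simp; ring
      rw [PP_kk, this, log_mul (by positivity) (by positivity), log_pow, log_exp]
      push_cast; ring
    have h3 : exp (-y) ≤ 1 := exp_le_one_iff.2 (by linarith)
    have h4 := log_le_sub_one_of_pos (show 0 < 1 + exp (-y) ^ 2 by positivity)
    rw [e, abs_of_nonneg (div_nonneg (log_nonneg (by nlinarith)) two_pos.le)]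
    nlinarith [exp_pos (-y)]
  obtain ⟨q1, q2⟩ := wb_pair (p := fun y => kk (log 2 - y)) ha (by fun_prop) hΓ h1 fun y hy => by
    rw [show 0 * y ^ 3 + 0 * y ^ 2 + 1 * y + (cc - log 2) = cc - (log 2 - y) by ring]
    exact h2 y hy
  have := ident ha (min_le_right _ _) p1 q1 hQ hΓ p2 q2
    (gauss_rel cont_kk (env_kk.In le_rfl (by norm_num)))
  simp only [TT_cubic] at this
  have h5 := (cubic_zero (a := 0) (b := 0) (c := 0) (d := 2 * kc 1 - (cc - log 2))
    (this.congr fun y => by ring)).2.2.2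
  linarith

lemma cutoff {a : ℝ} {Φ : ℝ → ℝ} (ha : 0 < a) (h : Wb (fun y => a / 2 * |y|) Φ) :
    ∃ φ, Wb (fun y => a * y) φ ∧ Wb (fun y => a / 2 * |y|) φ ∧
      Wb (fun y => -a * y) (fun y => φ y - Φ y) := by
  have h' := h
  obtain ⟨c, C, hC, h⟩ := h
  have b : ∀ y : ℝ, 0 ≤ max 0 (min 1 y) ∧ max 0 (min 1 y) ≤ 1 := fun y =>
    ⟨le_max_left _ _, max_le zero_le_one (min_le_left _ _)⟩
  obtain ⟨h1, h2⟩ := wb_pair (p := fun y => max 0 (min 1 y) * Φ y) (C := C * exp (2 * a)) ha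
    (by fun_prop) h' (fun y hy => by
      rw [min_eq_right (hy.trans zero_le_one), max_eq_left hy, zero_mul, abs_zero]; positivity)
    (fun y hy => by
      rcases le_total 1 y with h3 | h3
      · rw [min_eq_left h3, max_eq_right zero_le_one, one_mul, sub_self, abs_zero]; positivity
      · rw [← sub_one_mul, abs_mul, mul_assoc, ← exp_add]
        refine (mul_le_of_le_one_left (abs_nonneg _) (abs_le.2 ⟨?_, ?_⟩)).trans ((h y).trans ?_)
        · linarith [(b y).1]
        · linarith [(b y).2]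
        · refine mul_le_mul_of_nonneg_left (exp_le_exp.2 ?_) hC
          beta_reduce
          rw [abs_of_nonneg hy]
          nlinarith)
  refine ⟨_, h1, ⟨by fun_prop, C, hC, fun y => ?_⟩, h2⟩
  rw [abs_mul, abs_of_nonneg (b y).1]
  exact (mul_le_of_le_one_left (abs_nonneg _) (b y).2).trans (h y)

lemma gam_sq : Tendsto (fun Y => (∫ y in Iic Y, b0 (log 2 - y) ^ 2) - (Y + 2 * kc 1) ^ 7 / 7)
    atTop (𝓝 rho) := by
  have h := (Rm_tendsto 0 (by norm_num)).comp
    (tendsto_atBot_add_const_left _ (log 2) tendsto_neg_atTop_atBot)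
  refine h.congr fun Y => ?_
  have e := integral_comp_neg_Iic Y (fun x => b0 (log 2 + x) ^ 2)
  simp only [← sub_eq_add_neg] at e
  rw [e, integral_Ioi_shift (fun x => b0 x ^ 2)]
  simp only [Function.comp, Rm, Psi, Gm, cc_eq]
  congr 1
  · congr 1; funext x; simp [gK, b0, mo]; ring
  · simp; ring

lemma main_asym : (∃ a, 0 < a ∧ Wb (fun y => a * y) (PP b0) ∧
      Wb (fun y => -a * y) (fun y => PP b0 y - (y ^ 3 - 2 * kc 3))) ∧
    Tendsto (fun Y => (∫ y in Iic Y, PP b0 y ^ 2) - (Y ^ 7 / 7 - kc 3 * Y ^ 4 + 4 * kc 3 ^ 2 * Y))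
      atTop (𝓝 (rho - 9 * LR.zt 7 / 112)) := by
  obtain ⟨δ, hδ, h⟩ := reflect (ψ := fun v => (cc - v) ^ 3) env_b0 (by fun_prop)
    ((eqv_mo 0 1 0 3 0).congr (fun _ => rfl) fun u => by simp)
  have ha : 0 < min δ (1 / 2) := lt_min hδ (by norm_num)
  have ha1 := min_le_right δ (1 / 2)
  obtain ⟨C, h1, h2⟩ := h _ ha (min_le_left _ _) ha1
  obtain ⟨a, b, c, d, D, h3⟩ := PP_b0_asym
  have hQ := wb_cubic (half_pos ha) a b c d
  have hΓ := wb_cubic (half_pos ha) 1 (6 * kc 1) (12 * kc 1 ^ 2) (8 * kc 1 ^ 3)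
  obtain ⟨p1, p2⟩ := PP_pair env_b0 ha ha1 hQ h3
  have c0 := env_b0.1
  obtain ⟨q1, q2⟩ := wb_pair (p := fun y => b0 (log 2 - y)) ha (by fun_prop) hΓ h1 fun y hy => by
    rw [show 1 * y ^ 3 + 6 * kc 1 * y ^ 2 + 12 * kc 1 ^ 2 * y + 8 * kc 1 ^ 3
      = (cc - (log 2 - y)) ^ 3 by rw [cc_eq]; ring]
    exact h2 y hy
  have rel := gauss_rel env_b0.1 (env_b0.In le_rfl (by norm_num))
  have h4 := ident ha ha1 p1 q1 hQ hΓ p2 q2 rel
  simp only [TT_cubic] at h4
  obtain ⟨z1, z2, z3, z4⟩ := cubic_zero (a := a - 1) (b := 3 * (a - 1) * kc 1 + b)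
    (c := 3 * (a - 1) * (kc 1 ^ 2 + kc 2) + 2 * b * kc 1 + c)
    (d := (a - 1) * (kc 1 ^ 3 + 3 * kc 1 * kc 2 + kc 3) + b * (kc 1 ^ 2 + kc 2) + c * kc 1
      + (d + 2 * kc 3)) (h4.congr fun y => by ring)
  have hb : b = 0 := by rw [z1] at z2; linarith
  have hc : c = 0 := by rw [z1, hb] at z3; linarith
  have hd : d = -2 * kc 3 := by rw [z1, hb, hc] at z4; linarith
  have p3 : Wb (fun y => -min δ (1 / 2) * y) (fun y => PP b0 y - (y ^ 3 - 2 * kc 3)) :=
    p2.congr fun y => by rw [hb, hc, hd, sub_eq_zero.1 z1]; ring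
  refine ⟨⟨_, ha, p1, p3⟩, ?_⟩
  have hΦ := wb_cubic (half_pos ha) 1 (3 * kc 1) (3 * kc 1 ^ 2 - 3 * kc 2)
    (kc 1 ^ 3 - 3 * kc 2 * kc 1 - kc 3)
  obtain ⟨φ, f1, f2, f3⟩ := cutoff ha hΦ
  have key := reg_diff gum_exp_abs chi_gum ha ha1 p1 q1 f1 f2 hΦ f3
    (p3.congr fun y => by rw [TT_cubic]; ring) (q2.congr fun y => by rw [TT_cubic]; ring) rel
  have e : ∀ x : ℝ, 1 * x ^ 3 + 3 * kc 1 * x ^ 2 + (3 * kc 1 ^ 2 - 3 * kc 2) * x
      + (kc 1 ^ 3 - 3 * kc 2 * kc 1 - kc 3) = psi (x + kc 1) := fun x => by unfold psi; ring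
  simp only [e, window_value] at key
  have := (gam_sq.sub key).sub_const (9 * LR.zt 7 / 112)
  rw [sub_zero] at this
  exact this.congr fun Y => by ring

theorem bInt : LR.BInt (rho - 9 * LR.zt 7 / 112) := by
  obtain ⟨⟨a, ha, p1, p2⟩, h⟩ := main_asym
  have d0 := AA_step hb0 env_b0 env_b1
  have d1 := AA_step hb1 env_b1 env_b2
  have d2 := AA_step hb2 env_b2 env_b3
  have hi : ∀ Y, IntegrableOn (fun y => PP b0 y ^ 2) (Iic Y) := fun Y => by
    have := ((p1.mul p1).mono (g' := fun y => 2 * a * y) fun y => by linarith).integrable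
      (integrableOn_exp_mul_Iic (a := 2 * a) (by linarith) Y)
    simpa [sq, IntegrableOn] using this
  have c := PP_cont env_b0
  refine ⟨AA b0, fun y => -(2 * AA b0 y + AA b1 y), fun y => 4 * AA b0 y + 4 * AA b1 y + AA b2 y,
    fun y => -(8 * AA b0 y + 12 * AA b1 y + 6 * AA b2 y + AA b3 y), PP b0,
    fun Y => ∫ y in Iic Y, PP b0 y ^ 2, d0, fun y => ?_, fun y => ?_, fun y => ?_,
    ⟨_, fun y _ => abs_AA_le (env_b0.In (by norm_num) (by norm_num)) y⟩, fun y => ?_,
    PP_tendsto env_b0, ?_, fun Y => ?_, tendsto_integral_Iic_zero tendsto_id,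
    Polynomial.C (1 / 7) * Polynomial.X ^ 7 - Polynomial.C (kc 3) * Polynomial.X ^ 4
      + Polynomial.C (4 * kc 3 ^ 2) * Polynomial.X, by simp, h.congr fun Y => ?_⟩
  · exact (((d0 y).const_mul 2).fun_add (d1 y)).fun_neg.congr_deriv (by ring)
  · exact ((((d0 y).const_mul 4).fun_add ((d1 y).const_mul 4)).fun_add (d2 y)).congr_deriv (by ring)
  · rw [exp_two_mul]
    linear_combination -vanhove y
  · rw [exp_two_mul, mul_comm]
    exact PP_deriv env_b0.1 (env_b0.In le_rfl (by norm_num)) (env_b0.In (by norm_num) (by norm_num)) y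
  · have := (((p2.tendsto ha).sub_const (2 * kc 3)).div_atTop
      (tendsto_pow_atTop (n := 3) (by norm_num))).const_add 1
    rw [add_zero] at this
    refine this.congr' ?_
    filter_upwards [Ioi_mem_atTop (0:ℝ)] with y hy
    have : y ≠ 0 := ne_of_gt hy
    field_simp
    ring
  · have e : (fun Y => ∫ y in Iic Y, PP b0 y ^ 2)
        = fun Y => (∫ y in Iic 0, PP b0 y ^ 2) + ∫ y in (0:ℝ)..Y, PP b0 y ^ 2 := by
      funext Y
      rw [← intervalIntegral.integral_Iic_sub_Iic (hi 0) (hi Y)]; ring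
    rw [e]
    exact ((c.pow 2).integral_hasStrictDerivAt 0 Y).hasDerivAt.const_add _
  · simp only [Polynomial.eval_add, Polynomial.eval_sub, Polynomial.eval_mul, Polynomial.eval_C,
      Polynomial.eval_pow, Polynomial.eval_X]
    ring

end Pool.Agent.P.MP_8d0004_nt.Bes
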