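import Mathlib

/-! Modified Bessel functions of order zero and one: derivatives, differential equation, bounds. -/

namespace Pool.Agent.P.MP_8d0004_nt.Bes

open Real MeasureTheory Set Filter Topology

/-- cosine moments of the exponential kernel -/
noncomputable def Jn (n : ℕ) (t : ℝ) : ℝ := ∫ θ in (0:ℝ)..π, cos θ ^ n * exp (t * cos θ)

/-- hyperbolic cosine moments of the exponential kernel -/
noncomputable def Mn (n : ℕ) (t : ℝ) : ℝ := ∫ u in Ioi (0:ℝ), cosh u ^ n * exp (-(t * cosh u))

noncomputable def I0 (t : ℝ) : ℝ := (1 / π) * ∫ θ in (0:ℝ)..π, exp (t * cos θ)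
noncomputable def K0 (t : ℝ) : ℝ := ∫ u in Ioi (0:ℝ), exp (-(t * cosh u))
noncomputable def I1 (t : ℝ) : ℝ := (1 / π) * Jn 1 t
noncomputable def K1 (t : ℝ) : ℝ := Mn 1 t

lemma I0_eq (t : ℝ) : I0 t = (1 / π) * Jn 0 t := by simp [I0, Jn]
lemma K0_eq (t : ℝ) : K0 t = Mn 0 t := by simp [K0, Mn]

lemma Jn_hasDerivAt (n : ℕ) (t : ℝ) : HasDerivAt (Jn n) (Jn (n + 1) t) t := by
  have h := intervalIntegral.hasDerivAt_integral_of_dominated_loc_of_deriv_le
    (μ := volume) (a := 0) (b := π) (F := fun s θ => cos θ ^ n * exp (s * cos θ))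
    (F' := fun s θ => cos θ ^ (n + 1) * exp (s * cos θ)) (x₀ := t) (s := Metric.ball t 1)
    (bound := fun _ => exp (|t| + 1)) (Metric.ball_mem_nhds t one_pos)
    (Eventually.of_forall fun s => (by fun_prop : Continuous _).aestronglyMeasurable)
    ((by fun_prop : Continuous _).intervalIntegrable _ _)
    (by fun_prop : Continuous _).aestronglyMeasurable
    (Eventually.of_forall fun θ _ s hs => by
      have h1 : |s| ≤ |t| + 1 := by
        have := Metric.mem_ball.1 hs
        rw [Real.dist_eq] at this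
        have h2 := abs_sub_abs_le_abs_sub s t
        linarith
      have h2 : |cos θ| ≤ 1 := abs_cos_le_one θ
      rw [Real.norm_eq_abs, abs_mul, abs_pow, abs_of_pos (exp_pos _)]
      have h3 : |cos θ| ^ (n + 1) ≤ 1 := pow_le_one₀ (abs_nonneg _) h2
      have h4 : exp (s * cos θ) ≤ exp (|t| + 1) := by
        apply exp_le_exp.2
        have : s * cos θ ≤ |s| * |cos θ| := by rw [← abs_mul]; exact le_abs_self _
        nlinarith [abs_nonneg s]
      nlinarith [exp_pos (s * cos θ), pow_nonneg (abs_nonneg (cos θ)) (n + 1)])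
    (intervalIntegrable_const)
    (Eventually.of_forall fun θ _ s _ => by
      have := ((hasDerivAt_id' s).mul_const (cos θ)).exp.const_mul (cos θ ^ n)
      exact this.congr_deriv (by ring))
  exact h.2

lemma pow_mul_exp_neg_le (n : ℕ) {a y : ℝ} (ha : 0 < a) (hy : 0 < y) :
    y ^ n * exp (-(a * y)) ≤ ((n + 1).factorial : ℝ) / a ^ (n + 1) * y⁻¹ := by
  have h := Real.pow_div_factorial_le_exp (a * y) (by positivity) (n + 1)
  have hf : (0 : ℝ) < ((n + 1).factorial : ℝ) := by exact_mod_cast Nat.factorial_pos _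
  rw [div_le_iff₀ hf] at h
  have he := exp_pos (a * y)
  have e : y ^ n * exp (-(a * y)) = ((a * y) ^ (n + 1) / exp (a * y)) / a ^ (n + 1) * y⁻¹ := by
    rw [exp_neg]
    field_simp
    ring
  rw [e]
  apply mul_le_mul_of_nonneg_right _ (by positivity)
  apply div_le_div_of_nonneg_right _ (by positivity)
  rw [div_le_iff₀ he]
  linarith

lemma inv_cosh_le (u : ℝ) : (cosh u)⁻¹ ≤ 2 * exp (-u) := by
  rw [inv_le_comm₀ (cosh_pos u) (by positivity), cosh_eq, exp_neg]
  have := exp_pos u
  have h2 := inv_pos.2 this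
  rw [mul_inv, inv_inv]
  linarith

lemma Mn_bound (n : ℕ) {a : ℝ} (ha : 0 < a) (u : ℝ) :
    cosh u ^ n * exp (-(a * cosh u)) ≤ ((n + 1).factorial : ℝ) / a ^ (n + 1) * (2 * exp (-u)) :=
  (pow_mul_exp_neg_le n ha (cosh_pos u)).trans
    (mul_le_mul_of_nonneg_left (inv_cosh_le u) (by positivity))

lemma Mn_integrable (n : ℕ) {a : ℝ} (ha : 0 < a) :
    IntegrableOn (fun u => cosh u ^ n * exp (-(a * cosh u))) (Ioi (0:ℝ)) := by
  refine Integrable.mono' ((((integrableOn_exp_neg_Ioi 0)).const_mul 2).const_mul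
    (((n + 1).factorial : ℝ) / a ^ (n + 1))) (by fun_prop : Continuous _).aestronglyMeasurable
    (Eventually.of_forall fun u => ?_)
  rw [Real.norm_eq_abs, abs_of_nonneg (by have := cosh_pos u; positivity)]
  exact Mn_bound n ha u

lemma Mn_hasDerivAt (n : ℕ) {t : ℝ} (ht : 0 < t) : HasDerivAt (Mn n) (-Mn (n + 1) t) t := by
  have h := hasDerivAt_integral_of_dominated_loc_of_deriv_le
    (μ := volume.restrict (Ioi (0:ℝ))) (F := fun s u => cosh u ^ n * exp (-(s * cosh u)))
    (F' := fun s u => -(cosh u ^ (n + 1) * exp (-(s * cosh u)))) (x₀ := t) (s := Ioi (t / 2))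
    (bound := fun u => cosh u ^ (n + 1) * exp (-(t / 2 * cosh u)))
    (Ioi_mem_nhds (by linarith))
    (Eventually.of_forall fun s => (by fun_prop : Continuous _).aestronglyMeasurable)
    (Mn_integrable n ht)
    (by fun_prop : Continuous _).aestronglyMeasurable
    (Eventually.of_forall fun u s hs => by
      have hc := cosh_pos u
      rw [norm_neg, Real.norm_eq_abs, abs_of_nonneg (by positivity)]
      apply mul_le_mul_of_nonneg_left _ (by positivity)
      apply exp_le_exp.2
      have : t / 2 < s := hs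
      nlinarith)
    (Mn_integrable (n + 1) (by linarith))
    (Eventually.of_forall fun u s _ => by
      have := ((hasDerivAt_id' s).mul_const (cosh u)).fun_neg.exp.const_mul (cosh u ^ n)
      exact this.congr_deriv (by ring))
  have h2 := h.2
  rw [integral_neg] at h2
  exact h2

lemma J_rel (t : ℝ) : Jn 1 t + t * Jn 2 t = t * Jn 0 t := by
  have h : ∫ θ in (0:ℝ)..π, (cos θ * exp (t * cos θ) + sin θ * (exp (t * cos θ) * (t * -sin θ)))
      = sin π * exp (t * cos π) - sin 0 * exp (t * cos 0) := by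
    apply intervalIntegral.integral_eq_sub_of_hasDerivAt (f := fun θ => sin θ * exp (t * cos θ))
    · intro θ _
      exact (hasDerivAt_sin θ).mul ((hasDerivAt_cos θ).const_mul t).exp
    · exact (by fun_prop : Continuous _).intervalIntegrable _ _
  have e : ∀ θ, cos θ * exp (t * cos θ) + sin θ * (exp (t * cos θ) * (t * -sin θ))
      = cos θ ^ 1 * exp (t * cos θ) + t * (cos θ ^ 2 * exp (t * cos θ))
        - t * (cos θ ^ 0 * exp (t * cos θ)) := by
    intro θ
    have := sin_sq_add_cos_sq θ
    have h2 : sin θ * sin θ = 1 - cos θ ^ 2 := by nlinarith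
    calc _ = cos θ * exp (t * cos θ) - t * exp (t * cos θ) * (sin θ * sin θ) := by ring
      _ = _ := by rw [h2]; ring
  simp_rw [e] at h
  rw [intervalIntegral.integral_sub, intervalIntegral.integral_add,
    intervalIntegral.integral_const_mul, intervalIntegral.integral_const_mul] at h
  · simp only [sin_pi, sin_zero, zero_mul, sub_zero] at h
    unfold Jn
    linarith
  all_goals exact (by fun_prop : Continuous _).intervalIntegrable _ _

lemma tendsto_Mn_kernel (n : ℕ) {t : ℝ} (ht : 0 < t) :
    Tendsto (fun u => cosh u ^ n * exp (-(t * cosh u))) atTop (𝓝 0) := by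
  have h0 : Tendsto (fun u : ℝ => ((n + 1).factorial : ℝ) / t ^ (n + 1) * (2 * exp (-u))) atTop
      (𝓝 (((n + 1).factorial : ℝ) / t ^ (n + 1) * (2 * 0))) :=
    (tendsto_exp_neg_atTop_nhds_zero.const_mul 2).const_mul _
  simp only [mul_zero] at h0
  exact squeeze_zero (fun u => by have := cosh_pos u; positivity) (Mn_bound n ht) h0

lemma M_rel {t : ℝ} (ht : 0 < t) : Mn 1 t - t * Mn 2 t = -(t * Mn 0 t) := by
  have e : ∀ u, cosh u * exp (-(t * cosh u)) + sinh u * (exp (-(t * cosh u)) * -(t * sinh u))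
      = cosh u ^ 1 * exp (-(t * cosh u)) - t * (cosh u ^ 2 * exp (-(t * cosh u)))
        + t * (cosh u ^ 0 * exp (-(t * cosh u))) := by
    intro u
    have h2 : sinh u * sinh u = cosh u ^ 2 - 1 := by nlinarith [cosh_sq u]
    calc _ = cosh u * exp (-(t * cosh u)) - t * exp (-(t * cosh u)) * (sinh u * sinh u) := by ring
      _ = _ := by rw [h2]; ring
  have hi : IntegrableOn (fun u => cosh u ^ 1 * exp (-(t * cosh u))
      - t * (cosh u ^ 2 * exp (-(t * cosh u))) + t * (cosh u ^ 0 * exp (-(t * cosh u)))) (Ioi 0) :=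
    ((Mn_integrable 1 ht).sub ((Mn_integrable 2 ht).const_mul t)).add
      ((Mn_integrable 0 ht).const_mul t)
  have h : ∫ u in Ioi (0:ℝ), (cosh u ^ 1 * exp (-(t * cosh u))
      - t * (cosh u ^ 2 * exp (-(t * cosh u))) + t * (cosh u ^ 0 * exp (-(t * cosh u))))
      = 0 - sinh 0 * exp (-(t * cosh 0)) := by
    apply integral_Ioi_of_hasDerivAt_of_tendsto' (f := fun u => sinh u * exp (-(t * cosh u)))
    · intro u _
      rw [← e]
      exact (hasDerivAt_sinh u).mul ((hasDerivAt_cosh u).const_mul t).neg.exp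
    · exact hi
    · refine squeeze_zero_norm (fun u => ?_) (tendsto_Mn_kernel 1 ht)
      rw [Real.norm_eq_abs, abs_mul, abs_of_pos (exp_pos _), pow_one]
      refine mul_le_mul_of_nonneg_right ?_ (exp_pos _).le
      rw [abs_le]
      constructor
      · have := sinh_lt_cosh (-u)
        rw [sinh_neg, cosh_neg] at this
        linarith
      · exact (sinh_lt_cosh u).le
  rw [integral_add, integral_sub, integral_const_mul, integral_const_mul] at h
  · simp only [sinh_zero, zero_mul, sub_zero] at h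
    unfold Mn
    linarith
  · exact Mn_integrable 1 ht
  · exact (Mn_integrable 2 ht).const_mul t
  · exact (Mn_integrable 1 ht).sub ((Mn_integrable 2 ht).const_mul t)
  · exact (Mn_integrable 0 ht).const_mul t

end Pool.Agent.P.MP_8d0004_nt.Bes
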