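import Mathlib

/-! Averages over random shifts on the real line and a Plancherel identity. -/

namespace Pool.Agent.P.MP_8d0004_nt.Bes

open MeasureTheory Real Set Filter Topology
open scoped FourierTransform Convolution

/-- average of a function over random shifts -/
noncomputable def TT (μ : Measure ℝ) (s : ℝ) (f : ℝ → ℝ) (y : ℝ) : ℝ := ∫ w, f (y + s * w) ∂μ

/-- weights with slope at most one -/
def Lip (g : ℝ → ℝ) : Prop := ∀ y w, g (y + w) ≤ g y + |w|

/-- continuous functions bounded by the exponential of a weight -/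
def Wb (g f : ℝ → ℝ) : Prop := Continuous f ∧ ∃ C, 0 ≤ C ∧ ∀ y, |f y| ≤ C * exp (g y)

lemma Lip.lin {a : ℝ} (ha : |a| ≤ 1) : Lip (fun y => a * y) := fun y w => by
  have h1 : a * w ≤ |a| * |w| := by rw [← abs_mul]; exact le_abs_self _
  have := abs_nonneg w
  simp only
  nlinarith

lemma Lip.abs {a : ℝ} (ha : |a| ≤ 1) : Lip (fun y => a * |y|) := fun y w => by
  have h1 : a * (|y + w| - |y|) ≤ |a| * |(|y + w| - |y|)| := by rw [← abs_mul]; exact le_abs_self _
  have h2 : |(|y + w| - |y|)| ≤ |w| := by simpa using abs_abs_sub_abs_le_abs_sub (y + w) y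
  have := abs_nonneg w
  have := abs_nonneg a
  have := abs_nonneg (|y + w| - |y|)
  simp only
  nlinarith

lemma Wb.add {g f f' : ℝ → ℝ} (h : Wb g f) (h' : Wb g f') : Wb g (fun y => f y + f' y) := by
  obtain ⟨c, C, hC, h⟩ := h
  obtain ⟨c', C', hC', h'⟩ := h'
  refine ⟨c.add c', C + C', by positivity, fun y => (abs_add_le _ _).trans ?_⟩
  linarith [h y, h' y]

lemma Wb.cmul {g f : ℝ → ℝ} (h : Wb g f) (a : ℝ) : Wb g (fun y => a * f y) := by
  obtain ⟨c, C, hC, h⟩ := h
  refine ⟨continuous_const.mul c, |a| * C, by positivity, fun y => ?_⟩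
  rw [abs_mul, mul_assoc]
  exact mul_le_mul_of_nonneg_left (h y) (abs_nonneg a)

lemma Wb.congr {g f f' : ℝ → ℝ} (h : Wb g f) (e : ∀ y, f y = f' y) : Wb g f' := by
  have : f = f' := funext e
  rwa [← this]

lemma Wb.sub {g f f' : ℝ → ℝ} (h : Wb g f) (h' : Wb g f') : Wb g (fun y => f y - f' y) :=
  (h.add (h'.cmul (-1))).congr fun y => by ring

lemma Wb.mul {g g' f f' : ℝ → ℝ} (h : Wb g f) (h' : Wb g' f') :
    Wb (fun y => g y + g' y) (fun y => f y * f' y) := by
  obtain ⟨c, C, hC, h⟩ := h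
  obtain ⟨c', C', hC', h'⟩ := h'
  refine ⟨c.mul c', C * C', by positivity, fun y => ?_⟩
  rw [abs_mul, exp_add, mul_mul_mul_comm]
  exact mul_le_mul (h y) (h' y) (abs_nonneg _) (by positivity)

lemma Wb.mono {g g' f : ℝ → ℝ} (h : Wb g f) (e : ∀ y, g y ≤ g' y) : Wb g' f := by
  obtain ⟨c, C, hC, h⟩ := h
  exact ⟨c, C, hC, fun y => (h y).trans (mul_le_mul_of_nonneg_left (exp_le_exp.2 (e y)) hC)⟩

lemma Wb.inf {a : ℝ} {f : ℝ → ℝ} (h : Wb (fun y => a * y) f) (h' : Wb (fun y => -a * y) f) :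
    Wb (fun y => -a * |y|) f := by
  obtain ⟨c, C, hC, h⟩ := h
  obtain ⟨_, C', hC', h'⟩ := h'
  refine ⟨c, C + C', by positivity, fun y => ?_⟩
  have h1 := h y
  have h2 := h' y
  have := exp_pos (-a * y)
  have := exp_pos (a * y)
  beta_reduce at *
  rcases le_total 0 y with hy | hy
  · rw [abs_of_nonneg hy]
    nlinarith
  · rw [abs_of_nonpos hy, show -a * -y = a * y by ring]
    nlinarith

lemma integrable_exp_neg_abs {a : ℝ} (ha : 0 < a) : Integrable (fun y : ℝ => exp (-a * |y|)) := by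
  rw [← integrableOn_univ, ← Iic_union_Ioi (a := (0:ℝ))]
  apply IntegrableOn.union
  · refine (integrableOn_exp_mul_Iic ha 0).congr_fun (fun v hv => ?_) measurableSet_Iic
    simp only [abs_of_nonpos (mem_Iic.1 hv)]
    congr 1; ring
  · refine (integrableOn_exp_mul_Ioi (a := -a) (by linarith) 0).congr_fun (fun v hv => ?_)
      measurableSet_Ioi
    simp only [abs_of_pos (mem_Ioi.1 hv)]

lemma Wb.integrable {g f : ℝ → ℝ} {ν : Measure ℝ} (h : Wb g f)
    (hg : Integrable (fun y => exp (g y)) ν) : Integrable f ν := by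
  obtain ⟨c, C, _, h⟩ := h
  exact (hg.const_mul C).mono' c.aestronglyMeasurable (Eventually.of_forall h)

lemma Wb.shift_le {g f : ℝ → ℝ} {C s : ℝ} (hg : Lip g) (hC : 0 ≤ C)
    (h : ∀ y, |f y| ≤ C * exp (g y)) (hs : |s| ≤ 1) (y w : ℝ) :
    |f (y + s * w)| ≤ C * exp (g y) * exp |w| := by
  refine (h _).trans ?_
  rw [mul_assoc, ← exp_add]
  refine mul_le_mul_of_nonneg_left (exp_le_exp.2 ((hg _ _).trans ?_)) hC
  rw [abs_mul]
  nlinarith [abs_nonneg w]

variable {μ : Measure ℝ}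

lemma Wb.sec {g f : ℝ → ℝ} (hμ : Integrable (fun w => exp |w|) μ) (hg : Lip g) (h : Wb g f)
    {s : ℝ} (hs : |s| ≤ 1) (y : ℝ) : Integrable (fun w => f (y + s * w)) μ := by
  obtain ⟨c, C, hC, h⟩ := h
  exact (hμ.const_mul (C * exp (g y))).mono' (by fun_prop : Continuous _).aestronglyMeasurable
    (Eventually.of_forall fun w => Wb.shift_le hg hC h hs y w)

lemma Wb.TT {g f : ℝ → ℝ} (hμ : Integrable (fun w => exp |w|) μ) (hg : Lip g) (h : Wb g f)
    {s : ℝ} (hs : |s| ≤ 1) : Wb g (TT μ s f) := by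
  obtain ⟨c, C, hC, h⟩ := h
  refine ⟨continuous_iff_continuousAt.2 fun y => ?_, C * ∫ w, exp |w| ∂μ,
    mul_nonneg hC (integral_nonneg fun w => (exp_pos _).le), fun y => ?_⟩
  · refine continuousAt_of_dominated (bound := fun w => C * exp (g y + 1) * exp |w|)
      (Eventually.of_forall fun x => (by fun_prop : Continuous _).aestronglyMeasurable) ?_
      (hμ.const_mul _) (Eventually.of_forall fun w => (by fun_prop : Continuous _).continuousAt)
    filter_upwards [Metric.ball_mem_nhds y one_pos] with x hx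
    refine Eventually.of_forall fun w => (Wb.shift_le hg hC h hs x w).trans ?_
    have h1 : g x ≤ g y + 1 := by
      have := hg y (x - y)
      rw [add_sub_cancel] at this
      have h2 : |x - y| < 1 := by simpa [Real.dist_eq] using hx
      linarith
    gcongr
  · have := norm_integral_le_of_norm_le (f := fun w => f (y + s * w)) (hμ.const_mul (C * exp (g y)))
      (Eventually.of_forall fun w => Wb.shift_le hg hC h hs y w)
    rw [integral_const_mul] at this
    calc _ ≤ _ := this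
      _ = _ := by ring

lemma TT_sub {g g' f f' : ℝ → ℝ} (hμ : Integrable (fun w => exp |w|) μ) (hg : Lip g) (hg' : Lip g')
    (h : Wb g f) (h' : Wb g' f') {s : ℝ} (hs : |s| ≤ 1) (y : ℝ) :
    TT μ s (fun y => f y - f' y) y = TT μ s f y - TT μ s f' y :=
  integral_sub (h.sec hμ hg hs y) (h'.sec hμ hg' hs y)

lemma TT_comm [SFinite μ] {g f : ℝ → ℝ} (hμ : Integrable (fun w => exp |w|) μ) (hg : Lip g)
    (h : Wb g f) {s t : ℝ} (hs : |s| ≤ 1) (ht : |t| ≤ 1) (y : ℝ) :
    TT μ s (TT μ t f) y = TT μ t (TT μ s f) y := by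
  obtain ⟨c, C, hC, h⟩ := h
  unfold TT
  rw [integral_integral_swap (f := fun w w' => f (y + s * w + t * w'))]
  · congr 1; funext w; congr 1; funext w'; congr 1; ring
  · refine ((hμ.const_mul (C * exp (g y))).mul_prod hμ).mono'
      (by fun_prop : Continuous _).aestronglyMeasurable (Eventually.of_forall fun z => ?_)
    refine (Wb.shift_le hg hC h ht _ _).trans ?_
    have h1 : g (y + s * z.1) ≤ g y + |z.1| := (hg _ _).trans (by
      rw [abs_mul]; nlinarith [abs_nonneg z.1])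
    rw [mul_assoc C (exp (g y)), ← exp_add]
    gcongr

lemma TT_adj [SFinite μ] {g g' f φ : ℝ → ℝ} (hμ : Integrable (fun w => exp |w|) μ) (hg : Lip g)
    (hg' : Lip g') (h : Wb g f) (h' : Wb g' φ) (hi : Integrable (fun y => exp (g y + g' y)))
    {s : ℝ} (hs : |s| ≤ 1) : ∫ y, f y * TT μ s φ y = ∫ y, φ y * TT μ (-s) f y := by
  obtain ⟨c, C, hC, h⟩ := h
  obtain ⟨c', C', hC', h'⟩ := h'
  have hs' : |-s| ≤ 1 := by rwa [abs_neg]
  unfold TT
  simp_rw [← integral_const_mul]
  rw [integral_integral_swap (f := fun y w => f y * φ (y + s * w)),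
    integral_integral_swap (f := fun y w => φ y * f (y + -s * w))]
  · congr 1; funext w
    rw [← integral_add_right_eq_self (fun y => φ y * f (y + -s * w)) (s * w)]
    congr 1; funext y
    rw [mul_comm]; congr 2; ring
  · refine ((hi.const_mul (C * C')).mul_prod hμ).mono'
      (by fun_prop : Continuous _).aestronglyMeasurable (Eventually.of_forall fun z => ?_)
    have h1 := mul_le_mul (h' z.1) (Wb.shift_le hg hC h hs' z.1 z.2) (abs_nonneg _) (by positivity)
    rw [← abs_mul] at h1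
    refine h1.trans (le_of_eq ?_)
    rw [exp_add]; ring
  · refine ((hi.const_mul (C * C')).mul_prod hμ).mono'
      (by fun_prop : Continuous _).aestronglyMeasurable (Eventually.of_forall fun z => ?_)
    have h1 := mul_le_mul (h z.1) (Wb.shift_le hg' hC' h' hs z.1 z.2) (abs_nonneg _) (by positivity)
    rw [← abs_mul] at h1
    refine h1.trans (le_of_eq ?_)
    rw [exp_add]; ring

/-- characteristic function in the normalisation of the Fourier transform -/
noncomputable def chi (μ : Measure ℝ) (ξ : ℝ) : ℂ :=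
  ∫ w, Complex.exp (↑(2 * π * w * ξ) * Complex.I) ∂μ

lemma fourier_TT [IsFiniteMeasure μ] {a : ℝ} {f : ℝ → ℝ} (hμ : Integrable (fun w => exp |w|) μ)
    (ha : 0 < a) (ha1 : a ≤ 1) (h : Wb (fun y => -a * |y|) f) {s : ℝ} (hs : |s| ≤ 1) (ξ : ℝ) :
    𝓕 (fun y => (TT μ s f y : ℂ)) ξ = 𝓕 (fun y => (f y : ℂ)) ξ * chi μ (s * ξ) := by
  obtain ⟨c, C, hC, h⟩ := h
  have hg : Lip (fun y => -a * |y|) := Lip.abs (by rw [abs_neg, abs_of_pos ha]; exact ha1)
  rw [fourier_real_eq_integral_exp_smul, fourier_real_eq_integral_exp_smul]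
  unfold TT chi
  simp_rw [← integral_complex_ofReal, ← integral_smul]
  rw [integral_integral_swap, ← integral_const_mul]
  · congr 1; funext w
    rw [← integral_mul_const, ← integral_add_right_eq_self (fun v : ℝ =>
      Complex.exp (↑(-2 * π * v * ξ) * Complex.I) • (f v : ℂ) *
        Complex.exp (↑(2 * π * w * (s * ξ)) * Complex.I)) (s * w)]
    congr 1; funext v
    rw [smul_eq_mul, smul_eq_mul, mul_right_comm _ (f (v + s * w) : ℂ), ← Complex.exp_add]
    congr 2
    push_cast; ring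
  · refine (((integrable_exp_neg_abs ha).const_mul C).mul_prod hμ).mono'
      (by fun_prop : Continuous _).aestronglyMeasurable (Eventually.of_forall fun z => ?_)
    simp only [Function.uncurry, norm_smul, Complex.norm_exp_ofReal_mul_I, one_mul,
      Complex.norm_real, Real.norm_eq_abs]
    exact Wb.shift_le hg hC h hs z.1 z.2

lemma fourier_auto {a : ℝ} {f : ℝ → ℝ} (ha : 0 < a) (h : Wb (fun y => -a * |y|) f) :
    ∃ A : ℝ → ℂ, Continuous A ∧ Integrable A ∧ A 0 = ((∫ y, f y ^ 2 : ℝ) : ℂ) ∧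
      ∀ ξ, 𝓕 A ξ = 𝓕 (fun y => (f y : ℂ)) ξ * 𝓕 (fun y => (f y : ℂ)) (-ξ) := by
  have hi : Integrable (fun y => (f y : ℂ)) := (h.integrable (integrable_exp_neg_abs ha)).ofReal
  have hi' : Integrable (fun y => (f (-y) : ℂ)) := hi.comp_neg
  obtain ⟨c, C, hC, h⟩ := h
  refine ⟨(fun y => (f y : ℂ)) ⋆[ContinuousLinearMap.mul ℂ ℂ] (fun y => (f (-y) : ℂ)), ?_,
    hi.integrable_convolution _ hi', ?_, fun ξ => ?_⟩
  · refine BddAbove.continuous_convolution_right_of_integrable _ ⟨C, ?_⟩ hi (by fun_prop)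
    rintro _ ⟨y, rfl⟩
    simp only [Complex.norm_real, Real.norm_eq_abs]
    refine (h _).trans (mul_le_of_le_one_right hC (exp_le_one_iff.2 ?_))
    nlinarith [abs_nonneg (-y)]
  · rw [convolution_def, ← integral_complex_ofReal]
    congr 1; funext t
    simp [sq]
  · rw [fourier_mul_convolution_eq hi hi']
    congr 1
    rw [fourier_real_eq_integral_exp_smul, fourier_real_eq_integral_exp_smul,
      ← integral_neg_eq_self]
    congr 1; funext v
    simp

theorem plancherel [IsFiniteMeasure μ] {a : ℝ} {f g : ℝ → ℝ}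
    (hμ : Integrable (fun w => exp |w|) μ) (hχ : ∀ ξ, chi μ ξ ≠ 0)
    (ha : 0 < a) (ha1 : a ≤ 1) (hf : Wb (fun y => -a * |y|) f) (hg : Wb (fun y => -a * |y|) g)
    (h : ∀ y, TT μ 1 f y = TT μ (-1) g y) : ∫ y, f y ^ 2 = ∫ y, g y ^ 2 := by
  obtain ⟨A, cA, iA, zA, hA⟩ := fourier_auto ha hf
  obtain ⟨B, cB, iB, zB, hB⟩ := fourier_auto ha hg
  have key : ∀ ξ, 𝓕 (fun y => (f y : ℂ)) ξ * chi μ ξ = 𝓕 (fun y => (g y : ℂ)) ξ * chi μ (-ξ) := by
    intro ξ
    have h1 := fourier_TT hμ ha ha1 hf (s := 1) (by simp) ξ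
    have h2 := fourier_TT hμ ha ha1 hg (s := -1) (by simp) ξ
    simp_rw [h] at h1
    rw [h1] at h2
    simpa using h2
  have z : 𝓕 (A - B) = 0 := by
    funext ξ
    have e : 𝓕 (A - B) ξ = 𝓕 A ξ - 𝓕 B ξ := by
      simp only [fourier_real_eq_integral_exp_smul, Pi.sub_apply, smul_sub]
      refine integral_sub (iA.norm.mono' (by fun_prop : Continuous _).aestronglyMeasurable ?_)
        (iB.norm.mono' (by fun_prop : Continuous _).aestronglyMeasurable ?_) <;>
      · refine Eventually.of_forall fun v => ?_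
        rw [norm_smul, Complex.norm_exp_ofReal_mul_I, one_mul]
    rw [e, hA, hB, Pi.zero_apply]
    have h1 := key ξ
    have h2 := key (-ξ)
    rw [neg_neg] at h2
    apply mul_right_cancel₀ (mul_ne_zero (hχ ξ) (hχ (-ξ)))
    linear_combination (𝓕 (fun y => (f y : ℂ)) (-ξ) * chi μ (-ξ)) * h1
      + (𝓕 (fun y => (g y : ℂ)) ξ * chi μ (-ξ)) * h2
  have h0 := (iA.sub iB).fourierInv_fourier_eq (by rw [z]; exact integrable_zero _ _ _)
    (v := 0) (cA.sub cB).continuousAt
  rw [z] at h0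
  have h1 : A 0 - B 0 = 0 := by
    rw [← Pi.sub_apply, ← h0]
    simp [fourierInv_eq']
  rw [zA, zB, sub_eq_zero] at h1
  exact_mod_cast h1

end Pool.Agent.P.MP_8d0004_nt.Bes
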