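import Pool.Agent.P.MP_8d0004_nt.Bes.Sys

/-! The vacuum determinant of eight-Bessel moments as one regularised moment. -/

namespace Pool.Agent.P.MP_8d0004_nt.Bes

open Real MeasureTheory Set Filter Topology Asymptotics

/-- the regularised moment -/
noncomputable def rho : ℝ := ∫ v, kk v ^ 6 * (ii v ^ 2 - ka v)

/-- the correlation function -/
noncomputable def bx (x : ℝ) : ℝ :=
  ∫ v, hM (fun j => exp v ^ 2 * fK j v) (fun j => gK j (v + x))

lemma sub_of_env_shift {φ : ℝ → ℝ} (h : Env φ) (x : ℝ) : Sub (fun v => φ (v + x)) := by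
  obtain ⟨c, C, hC, h⟩ := h
  refine ⟨c.comp (continuous_add_const x), C * exp (|x| / 2), by positivity, fun v => (h _).trans ?_⟩
  rw [mul_assoc, ← exp_add]
  apply mul_le_mul_of_nonneg_left (exp_le_exp.2 _) hC
  have := abs_add_le v x
  have := exp_pos (v + x)
  linarith

lemma hM_smul (c : ℝ) (a b : ℕ → ℝ) : hM (fun j => c * a j) b = c * hM a b := by
  unfold hM; ring

lemma bx_eq (x : ℝ) : (1 - exp x ^ 2) * bx x = -x ^ 6 := by
  have hd := pair_deriv ode_fK (ode_gK.shift x)
  have hi : Integrable (fun v => hM (fun j => exp v ^ 2 * fK j v) (fun j => gK j (v + x))) :=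
    integrable_hM (f := fun j v => exp v ^ 2 * fK j v) (g := fun j v => gK j (v + x))
      fun i j => (env_fK i).integrable_sub (sub_of_env_shift (env_gK j) x)
  have e : ∀ v, (exp v ^ 2 - exp (v + x) ^ 2) * hM (fun j => fK j v) (fun j => gK j (v + x))
      = (1 - exp x ^ 2) * hM (fun j => exp v ^ 2 * fK j v) (fun j => gK j (v + x)) := by
    intro v
    rw [hM_smul, exp_add]; ring
  have hb : Tendsto (fun v => pair (fun j => fK j v) (fun j => gK j (v + x))) atBot (𝓝 (x ^ 6)) := by
    refine Eqv.tendsto ((eqv_pair eqv_fK (fun j => (eqv_gK j).shift x)).congr (fun _ => rfl)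
      fun u => ?_)
    simp [pair, Gm, Nat.choose]
    ring
  have ht := tendsto_pair (f := fK) (g := fun j v => gK j (v + x))
    fun i j => (env_fK i).tendsto_sub (sub_of_env_shift (env_gK j) x)
  have := integral_of_hasDerivAt_of_tendsto hd (by simp_rw [e]; exact hi.const_mul _) hb ht
  simp_rw [e] at this
  rw [integral_const_mul] at this
  unfold bx
  linarith

lemma prod_integrable (i j : ℕ) (a : ℝ) :
    Integrable (fun z : ℝ × ℝ => exp z.2 ^ 2 * fK i z.2 * gK j (z.2 + z.1))
      ((volume.restrict (Ioi a)).prod volume) := by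
  obtain ⟨C, hC0, hC⟩ := (env_gK j).le_exp_neg
  have h1 := (((integrableOn_exp_neg_Ioi a).const_mul C).mul_prod
    (((env_fK i).integrable (s := 1) le_rfl (by norm_num)).abs))
  have c1 := (env_fK i).1
  have c2 := (env_gK j).1
  refine Integrable.mono' h1 (by fun_prop : Continuous _).aestronglyMeasurable
    (Eventually.of_forall fun z => ?_)
  have h2 := hC (z.2 + z.1)
  simp only [Real.norm_eq_abs, abs_mul, abs_pow, abs_of_pos (exp_pos _), one_mul]
  have e : exp (-(z.2 + z.1)) = exp (-z.1) * (exp z.2)⁻¹ := by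
    rw [← exp_neg, ← exp_add]; congr 1; ring
  have hp := exp_pos z.2
  calc _ ≤ exp z.2 ^ 2 * |fK i z.2| * (C * exp (-(z.2 + z.1))) :=
        mul_le_mul_of_nonneg_left h2 (by positivity)
    _ = _ := by rw [e]; field_simp

/-- tails of the vector -/
noncomputable def Psi (j : ℕ) (u : ℝ) : ℝ := ∫ x in Ioi u, gK j x

lemma bx_integrableOn (a : ℝ) : IntegrableOn bx (Ioi a) :=
  (integrable_hM (f := fun j (z : ℝ × ℝ) => exp z.2 ^ 2 * fK j z.2)
    (g := fun j z => gK j (z.2 + z.1)) fun i j => prod_integrable i j a).integral_prod_left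

lemma bx_integral (X : ℝ) : ∫ x in Ioi (-X), bx x =
    ∫ v, hM (fun j => exp v ^ 2 * fK j v) (fun j => Psi j (v - X)) := by
  unfold bx
  rw [integral_integral_swap (integrable_hM (f := fun j (z : ℝ × ℝ) => exp z.2 ^ 2 * fK j z.2)
    (g := fun j z => gK j (z.2 + z.1)) fun i j => prod_integrable i j (-X))]
  congr 1
  funext v
  have hi : ∀ j, IntegrableOn (fun x => gK j (v + x)) (Ioi (-X)) := by
    intro j
    obtain ⟨C, hC0, hC⟩ := (env_gK j).le_exp_neg
    have c2 := (env_gK j).1
    refine Integrable.mono' ((integrableOn_exp_neg_Ioi (-X)).const_mul (C * exp (-v)))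
      (by fun_prop : Continuous _).aestronglyMeasurable (Eventually.of_forall fun x => ?_)
    refine (hC _).trans (le_of_eq ?_)
    rw [mul_assoc, ← exp_add]; congr 2; ring
  rw [integral_hM (f := fun j _ => exp v ^ 2 * fK j v) (g := fun j x => gK j (v + x))
    fun i j => (hi j).const_mul _]
  simp only [integral_const_mul, integral_Ioi_shift, Psi, hM, sub_eq_add_neg]

lemma bx_tail : Tendsto (fun X => (∫ x in Ioi (-X), bx x) + X ^ 7 / 7) atTop (𝓝 0) := by
  refine (tendsto_integral_Ioi_zero (f := bx) (μ := volume) tendsto_id).congr' ?_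
  filter_upwards [Ici_mem_atTop (0:ℝ)] with X hX
  have hX' : 0 ≤ X := hX
  have hi : ∀ a b, IntervalIntegrable bx volume a b := fun a b =>
    ((bx_integrableOn (min a b - 1)).mono_set fun x hx => by
      have := hx.1
      simp only [mem_Ioi]
      linarith).intervalIntegrable
  have h1 := intervalIntegral.integral_interval_add_Ioi (bx_integrableOn (-X)) (bx_integrableOn X)
  have h2 := intervalIntegral.integral_add_adjacent_intervals (hi (-X) 0) (hi 0 X)
  have h3 : ∫ x in (-X)..0, bx x = ∫ x in (0:ℝ)..X, bx (-x) := by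
    rw [intervalIntegral.integral_comp_neg]; simp
  have h4 : IntervalIntegrable (fun x => bx (-x)) volume 0 X := by
    have := (hi 0 (-X)).comp_mul_left (c := -1)
    simpa using this
  have h5 : (∫ x in (0:ℝ)..X, bx (-x)) + ∫ x in (0:ℝ)..X, bx x = -(X ^ 7 / 7) := by
    rw [← intervalIntegral.integral_add h4 (hi 0 X)]
    have : ∫ x in (0:ℝ)..X, (bx (-x) + bx x) = ∫ x in (0:ℝ)..X, -x ^ 6 := by
      apply intervalIntegral.integral_congr_ae
      refine Eventually.of_forall fun x hx => ?_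
      rw [uIoc_of_le hX'] at hx
      have hx0 : 0 < x := hx.1
      have a1 := bx_eq x
      have a2 := bx_eq (-x)
      have a3 : 1 < exp x ^ 2 := one_lt_pow₀ (one_lt_exp_iff.2 hx0) two_ne_zero
      have a4 : exp (-x) ^ 2 * exp x ^ 2 = 1 := by rw [← mul_pow, ← exp_add]; simp
      have a5 : (1 - exp x ^ 2) * (bx (-x) + bx x + x ^ 6) = 0 := by
        have : (1 - exp x ^ 2) * bx (-x) = -(exp x ^ 2) * ((1 - exp (-x) ^ 2) * bx (-x)) := by
          linear_combination (-bx (-x)) * a4
        rw [a2] at this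
        linear_combination this + a1
      rcases mul_eq_zero.1 a5 with h | h
      · linarith
      · linarith
    rw [this, intervalIntegral.integral_neg, integral_pow]
    norm_num
  simp only [id]
  linarith

lemma model_integral (X : ℝ) :
    ∫ v, hM (fun j => exp v ^ 2 * fK j v) (fun j => Gm 7 (cc + X) j v) = -X ^ 7 := by
  have hd := pair_deriv ode_fK (ode_Gm7 (cc + X))
  have hs : ∀ j, Sub (Gm 7 (cc + X) j) := fun j => Sub.lin_pow _ _ _ (by omega)
  have hi : Integrable (fun v => hM (fun j => exp v ^ 2 * fK j v) (fun j => Gm 7 (cc + X) j v)) :=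
    integrable_hM (f := fun j v => exp v ^ 2 * fK j v) (g := Gm 7 (cc + X))
      fun i j => (env_fK i).integrable_sub (hs j)
  have e : ∀ v, (exp v ^ 2 - 0) * hM (fun j => fK j v) (fun j => Gm 7 (cc + X) j v)
      = hM (fun j => exp v ^ 2 * fK j v) (fun j => Gm 7 (cc + X) j v) := by
    intro v
    rw [hM_smul]; ring
  have hb : Tendsto (fun v => pair (fun j => fK j v) (fun j => Gm 7 (cc + X) j v)) atBot
      (𝓝 (X ^ 7)) := by
    refine Eqv.tendsto ((eqv_pair eqv_fK (eqv_Gm 7 (cc + X))).congr (fun _ => rfl) fun u => ?_)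
    simp [pair, Gm, Nat.choose]
    ring
  have ht := tendsto_pair (f := fK) (g := Gm 7 (cc + X)) fun i j => (env_fK i).tendsto_sub (hs j)
  have := integral_of_hasDerivAt_of_tendsto hd (by simp_rw [e]; exact hi) hb ht
  simp_rw [e] at this
  rw [this]; ring

/-- tails with the polynomial part removed -/
noncomputable def Rm (j : ℕ) (u : ℝ) : ℝ := Psi j u - Gm 7 cc j u / 7

/-- limits of the reduced tails -/
noncomputable def Cm : ℕ → ℝ
  | 0 => rho
  | 1 => 0
  | (j + 2) => -((8 - (j:ℝ)) * mom (gK j) 2) / ((j:ℝ) + 2)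

lemma rho_integrable : Integrable (fun v => kk v ^ 6 * (ii v ^ 2 - ka v)) := by
  rw [← integrableOn_univ, ← Iic_union_Ioi (a := (0:ℝ))]
  apply IntegrableOn.union
  · have := ((eqv_kk.pow 6).mul ((eqv_ii.pow 2).sub eqv_ka)).2
    exact (this.congr fun u => by simp).integrableOn (by fun_prop) 0
  · have := ((env_mono 2 0 6 0 (by norm_num) (by norm_num)).add
      ((env_mono 0 0 6 1 (by norm_num) (by norm_num)).cmul (-1))).integrableOn_Ioi 0
    exact this.congr_fun (fun v _ => by simp; ring) measurableSet_Ioi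

lemma Psi_zero (u : ℝ) :
    Psi 0 u = (∫ x in Ioi u, kk x ^ 6 * (ii x ^ 2 - ka x)) + kk u ^ 7 / 7 := by
  have e6 := env_mono 0 0 6 1 (by norm_num) (by norm_num)
  have e7 := env_mono 0 0 7 0 (by norm_num) (by norm_num)
  simp only [pow_zero, one_mul, mul_one, pow_one] at e6 e7
  have h : ∫ x in Ioi u, kk x ^ 6 * ka x = -(0 / 7) - -(kk u ^ 7 / 7) := by
    apply integral_Ioi_of_hasDerivAt_of_tendsto' (f := fun x => -(kk x ^ 7 / 7))
    · intro x _
      exact (((hkk x).fun_pow 7).div_const 7).fun_neg.congr_deriv (by push_cast; ring)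
    · exact e6.integrableOn_Ioi u
    · exact (e7.tendsto_atTop.div_const 7).neg
  have h2 : kk u ^ 7 / 7 = ∫ x in Ioi u, kk x ^ 6 * ka x := by rw [h]; ring
  rw [h2, ← integral_add rho_integrable.integrableOn (e6.integrableOn_Ioi u)]
  refine setIntegral_congr_fun measurableSet_Ioi fun x _ => ?_
  simp [gK]; ring

lemma Psi_one (u : ℝ) : Psi 1 u = -gK 0 u := by
  have := integral_Ioi_of_hasDerivAt_of_tendsto' (a := u) (fun x _ => ode_gK.d0 x)
    ((env_gK 1).integrableOn_Ioi u) (env_gK 0).tendsto_atTop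
  unfold Psi
  rw [this]; ring

lemma exp_two_mul (v : ℝ) : exp (2 * v) = exp v ^ 2 := by
  rw [← exp_nat_mul]; norm_num

lemma Psi_succ (j : ℕ) (hj : j ≤ 7) (u : ℝ) : ((j:ℝ) + 2) * Psi (j + 2) u =
    -gK (j + 1) u - (8 - (j:ℝ)) * ∫ x in Ioi u, exp (2 * x) * gK j x := by
  have i1 := ((env_gK (j + 2)).integrableOn_Ioi u).const_mul ((j:ℝ) + 2)
  have i2 := (((env_gK j).integrable (s := 2) (by norm_num) (by norm_num)).integrableOn
    (s := Ioi u)).const_mul (8 - (j:ℝ))
  simp_rw [exp_two_mul] at i2 ⊢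
  have := integral_Ioi_of_hasDerivAt_of_tendsto' (a := u) (fun x _ => ode_gK.d j hj x)
    (i1.add i2) (env_gK (j + 1)).tendsto_atTop
  rw [integral_add i1 i2, integral_const_mul, integral_const_mul] at this
  unfold Psi
  linarith

lemma Rm_tendsto (j : ℕ) (hj : j ≤ 7) : Tendsto (Rm j) atBot (𝓝 (Cm j)) := by
  match j, hj with
  | 0, _ =>
    have h1 := tendsto_integral_Ioi_atBot rho_integrable
    have h2 := ((eqv_kk.pow 7).2.tendsto).div_const 7
    have := h1.add h2
    simp only [zero_div, add_zero] at this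
    refine this.congr fun u => ?_
    simp [Rm, Psi_zero, Gm]; ring
  | 1, _ =>
    have := ((eqv_gK 0).2.tendsto).neg
    simp only [neg_zero] at this
    refine this.congr fun u => ?_
    simp [Rm, Psi_one, Gm]; ring
  | j + 2, hj =>
    have h1 := tendsto_integral_Ioi_atBot
      ((env_gK j).integrable (s := 2) (by norm_num) (by norm_num))
    have h2 := (eqv_gK (j + 1)).2.tendsto
    have := (h2.neg.sub (h1.const_mul (8 - (j:ℝ)))).div_const ((j:ℝ) + 2)
    simp only [neg_zero, zero_sub] at this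
    refine this.congr fun u => ?_
    have h3 := Psi_succ j (by omega) u
    have h4 : ((j:ℝ) + 2) ≠ 0 := by positivity
    have h5 : ((j:ℝ) + 2) * (Gm 7 cc (j + 2) u / 7) = -Gm 6 cc (j + 1) u := by
      have : j ≤ 5 := by omega
      interval_cases j <;> simp [Gm, Nat.choose] <;> ring
    rw [div_eq_iff h4, Rm]
    linarith

lemma Psi_continuous (j : ℕ) : Continuous (Psi j) :=
  continuous_integral_Ioi (env_gK j).1 (env_gK j).integrableOn_Ioi

lemma Rm_continuous (j : ℕ) : Continuous (Rm j) := by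
  have := Psi_continuous j
  unfold Rm Gm
  fun_prop

lemma Rm_bound (j : ℕ) (hj : j ≤ 7) :
    ∃ C, 0 ≤ C ∧ ∀ u v, u ≤ v → |Rm j u| ≤ C * exp (|v| / 2) := by
  obtain ⟨C1, h1⟩ := bounded_of_tendsto_atBot (Rm_continuous j) (Rm_tendsto j hj)
  obtain ⟨C2, hC2, h2⟩ := (env_gK j).le_exp_neg
  obtain ⟨_, C3, hC3, h3⟩ := Sub.lin_pow ((Nat.choose 7 j : ℝ) * (-1) ^ j) cc (7 - j) (by omega)
  have hC1 : 0 ≤ C1 := (abs_nonneg _).trans (h1 0 le_rfl)
  refine ⟨C1 + C2 + C3, by positivity, fun u v huv => ?_⟩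
  have e1 : 1 ≤ exp (|v| / 2) := one_le_exp (by positivity)
  rcases le_total u 0 with hu | hu
  · have := h1 u hu
    nlinarith
  · have a1 : |Psi j u| ≤ C2 := by
      have := norm_integral_le_of_norm_le (μ := volume.restrict (Ioi u)) (f := gK j)
        ((integrableOn_exp_neg_Ioi u).const_mul C2) (Eventually.of_forall h2)
      rw [integral_const_mul, integral_exp_neg_Ioi] at this
      have h4 : exp (-u) ≤ 1 := exp_le_one_iff.2 (by linarith)
      exact this.trans (by nlinarith)
    have a2 : |Gm 7 cc j u| ≤ C3 * exp (|v| / 2) := by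
      refine (h3 u).trans (mul_le_mul_of_nonneg_left (exp_le_exp.2 ?_) hC3)
      rw [abs_of_nonneg hu]
      linarith [le_abs_self v]
    have a3 : |Rm j u| ≤ |Psi j u| + |Gm 7 cc j u| / 7 := by
      unfold Rm
      refine (abs_sub _ _).trans (le_of_eq ?_)
      rw [abs_div]; norm_num
    have := abs_nonneg (Gm 7 cc j u)
    nlinarith

lemma sub_Rm (j : ℕ) (hj : j ≤ 7) (X : ℝ) : Sub (fun v => Rm j (v - X)) := by
  obtain ⟨C, hC, h⟩ := Rm_bound j hj
  have := Rm_continuous j
  refine ⟨by fun_prop, C * exp (|X| / 2), by positivity, fun v => (h _ _ le_rfl).trans ?_⟩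
  rw [mul_assoc, ← exp_add]
  apply mul_le_mul_of_nonneg_left (exp_le_exp.2 _) hC
  have := abs_sub v X
  linarith

lemma dct (i j : ℕ) (hj : j ≤ 7) :
    Tendsto (fun X => ∫ v, exp v ^ 2 * fK i v * Rm j (v - X)) atTop (𝓝 (mom (fK i) 2 * Cm j)) := by
  obtain ⟨C, hC, h⟩ := Rm_bound j hj
  have c1 := (env_fK i).1
  have c2 := Rm_continuous j
  have := tendsto_integral_filter_of_dominated_convergence (μ := volume) (l := atTop)
    (F := fun X v => exp v ^ 2 * fK i v * Rm j (v - X)) (f := fun v => exp v ^ 2 * fK i v * Cm j)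
    (fun v => C * (|exp v ^ 2 * fK i v| * exp (|v| / 2)))
    (Eventually.of_forall fun X => (by fun_prop : Continuous _).aestronglyMeasurable)
    (by
      filter_upwards [Ici_mem_atTop (0:ℝ)] with X hX
      refine Eventually.of_forall fun v => ?_
      have hX' : 0 ≤ X := hX
      rw [Real.norm_eq_abs, abs_mul]
      nlinarith [mul_le_mul_of_nonneg_left (h (v - X) v (by linarith))
        (abs_nonneg (exp v ^ 2 * fK i v))])
    ((env_fK i).bound_half.const_mul C)
    (Eventually.of_forall fun v => ((Rm_tendsto j hj).comp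
      (tendsto_atBot_add_const_left atTop v tendsto_neg_atTop_atBot)).const_mul _)
  rw [integral_mul_const] at this
  simpa [mom, exp_two_mul] using this

lemma mom_seven : mom (fK 7) 2 = -1 := by
  have hd := ode_fK.d 7 le_rfl
  have e : ∀ v, (((7:ℕ):ℝ) + 2) * fK (7 + 2) v + (8 - ((7:ℕ):ℝ)) * (exp v ^ 2 * fK 7 v)
      = exp (2 * v) * fK 7 v := by
    intro v
    rw [ode_fK.top v, exp_two_mul]; norm_num
  simp_rw [e] at hd
  have hb : Tendsto (fK (7 + 1)) atBot (𝓝 1) :=
    Eqv.tendsto ((eqv_fK 8).congr (fun _ => rfl) fun u => by norm_num [Gm])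
  have := integral_of_hasDerivAt_of_tendsto hd
    ((env_fK 7).integrable (s := 2) (by norm_num) (by norm_num)) hb (env_fK 8).tendsto_atTop
  unfold mom
  rw [this]; ring

/-- truncation of an index family to the range that the pairing uses -/
lemma hM_limit : hM (fun j => mom (fK j) 2) Cm = 0 := by
  have key : ∀ X, (∫ x in Ioi (-X), bx x) + X ^ 7 / 7 =
      -(∫ v, exp v ^ 2 * fK 0 v * Rm 7 (v - X)) + 1 / 4 * (∫ v, exp v ^ 2 * fK 1 v * Rm 6 (v - X))
        - 3 / 28 * (∫ v, exp v ^ 2 * fK 2 v * Rm 5 (v - X))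
        + 1 / 14 * (∫ v, exp v ^ 2 * fK 3 v * Rm 4 (v - X))
        - 1 / 14 * (∫ v, exp v ^ 2 * fK 4 v * Rm 3 (v - X))
        + 3 / 28 * (∫ v, exp v ^ 2 * fK 5 v * Rm 2 (v - X))
        - 1 / 4 * (∫ v, exp v ^ 2 * fK 6 v * Rm 1 (v - X))
        + ∫ v, exp v ^ 2 * fK 7 v * Rm 0 (v - X) := by
    intro X
    have hs : ∀ j, Sub (Gm 7 (cc + X) j) := fun j => Sub.lin_pow _ _ _ (by omega)
    have hR : ∀ i j, Integrable (fun v => exp v ^ 2 * fK i v * Rm (min j 7) (v - X)) :=
      fun i j => (env_fK i).integrable_sub (sub_Rm _ (min_le_right _ _) X)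
    have i1 := integrable_hM (f := fun j v => exp v ^ 2 * fK j v)
      (g := fun j v => Rm (min j 7) (v - X)) hR
    have i2 := integrable_hM (f := fun j v => exp v ^ 2 * fK j v) (g := Gm 7 (cc + X))
      fun i j => (env_fK i).integrable_sub (hs j)
    have e : ∀ v, hM (fun j => exp v ^ 2 * fK j v) (fun j => Psi j (v - X)) =
        hM (fun j => exp v ^ 2 * fK j v) (fun j => Rm (min j 7) (v - X))
          + 1 / 7 * hM (fun j => exp v ^ 2 * fK j v) (fun j => Gm 7 (cc + X) j v) := by
      intro v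
      have : ∀ j, Gm 7 cc j (v - X) = Gm 7 (cc + X) j v := by
        intro j; unfold Gm; congr 2; ring
      simp only [hM, Rm, this]
      norm_num
      ring
    rw [bx_integral]
    simp_rw [e]
    rw [integral_add i1 (i2.const_mul _), integral_const_mul, model_integral, integral_hM hR]
    norm_num
    ring
  have h1 := bx_tail
  simp_rw [key] at h1
  have h2 := (((((((dct 0 7 le_rfl).neg.add ((dct 1 6 (by norm_num)).const_mul (1 / 4))).sub
    ((dct 2 5 (by norm_num)).const_mul (3 / 28))).add ((dct 3 4 (by norm_num)).const_mul (1 / 14))).sub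
    ((dct 4 3 (by norm_num)).const_mul (1 / 14))).add ((dct 5 2 (by norm_num)).const_mul (3 / 28))).sub
    ((dct 6 1 (by norm_num)).const_mul (1 / 4))).add (dct 7 0 (by norm_num))
  exact tendsto_nhds_unique h2 h1

theorem det_mom : mom (fK 0) 2 * (mom (gK 0) 4 - 2 * mom (gK 0) 6)
    - (mom (fK 0) 4 - 2 * mom (fK 0) 6) * mom (gK 0) 2 = 35 / 128 * rho := by
  have h := hM_limit
  obtain ⟨a1, a2, a3, a4, a5⟩ := mom_values ode_fK env_fK
  obtain ⟨b1, b2, b3, b4, b5⟩ := mom_values ode_gK env_gK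
  simp only [hM, Cm, mom_seven] at h
  rw [a1, a2, a3, a4, a5, b1, b2, b3, b4, b5] at h
  push_cast at h
  linear_combination (35 / 128) * h

/-- Bessel moments -/
noncomputable def IKM (a b n : ℕ) : ℝ := ∫ t in Ioi (0:ℝ), I0 t ^ a * K0 t ^ b * t ^ n

lemma IKM_eq (a b n : ℕ) : IKM a b n = mom (fun v => ii v ^ a * kk v ^ b) ((n:ℝ) + 1) := by
  unfold IKM mom
  rw [integral_Ioi_eq_log]
  congr 1
  funext v
  rw [add_mul, exp_add, exp_nat_mul, one_mul]
  unfold ii kk
  ring

/-- the determinant equals a regularised moment -/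
theorem det_eq_rho :
    IKM 0 8 1 * (IKM 2 6 3 - 2 * IKM 2 6 5) - (IKM 0 8 3 - 2 * IKM 0 8 5) * IKM 2 6 1
      = 35 / 128 * rho := by
  have e1 : (fun v => ii v ^ 0 * kk v ^ 8) = fK 0 := by funext v; simp [fK]
  have e2 : (fun v => ii v ^ 2 * kk v ^ 6) = gK 0 := by funext v; simp [gK]
  simp only [IKM_eq, e1, e2]
  have := det_mom
  norm_num at this ⊢
  exact this

end Pool.Agent.P.MP_8d0004_nt.Bes
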