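import Pool.Agent.P.MP_8d0004_nt.Bes.Log

/-! Asymptotic calculus at minus infinity: equality up to exponentially small terms. -/

namespace Pool.Agent.P.MP_8d0004_nt.Bes

open Real MeasureTheory Set Filter Topology Asymptotics

/-- exponentially small at minus infinity -/
def Neg (φ : ℝ → ℝ) : Prop := ∃ δ, 0 < δ ∧ φ =O[atBot] (fun u => exp (δ * u))

/-- subexponential growth at minus infinity -/
def Pol (φ : ℝ → ℝ) : Prop := ∀ ε, 0 < ε → φ =O[atBot] (fun u => exp (-(ε * u)))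

/-- asymptotic equality with a model of subexponential growth -/
def Eqv (a b : ℝ → ℝ) : Prop := Pol b ∧ Neg (fun u => a u - b u)

lemma exp_isBigO_exp {a b : ℝ} (h : b ≤ a) :
    (fun u => exp (a * u)) =O[atBot] (fun u => exp (b * u)) := by
  refine IsBigO.of_bound 1 ?_
  filter_upwards [Iic_mem_atBot (0:ℝ)] with u hu
  have : u ≤ 0 := hu
  simp only [Real.norm_eq_abs, abs_of_pos (exp_pos _), one_mul]
  exact exp_le_exp.2 (by nlinarith)

lemma Neg.add {φ ψ : ℝ → ℝ} (h1 : Neg φ) (h2 : Neg ψ) : Neg (fun u => φ u + ψ u) := by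
  obtain ⟨a, ha, h1⟩ := h1
  obtain ⟨b, hb, h2⟩ := h2
  exact ⟨min a b, lt_min ha hb, (h1.trans (exp_isBigO_exp (min_le_left _ _))).add
    (h2.trans (exp_isBigO_exp (min_le_right _ _)))⟩

lemma Neg.mul_pol {φ ψ : ℝ → ℝ} (h1 : Neg φ) (h2 : Pol ψ) : Neg (fun u => φ u * ψ u) := by
  obtain ⟨a, ha, h1⟩ := h1
  refine ⟨a / 2, by linarith, (h1.mul (h2 (a / 2) (by linarith))).trans (isBigO_of_le _ fun u => ?_)⟩
  rw [← exp_add]
  apply le_of_eq
  congr 2
  ring

lemma Neg.pol {φ : ℝ → ℝ} (h : Neg φ) : Pol φ := by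
  obtain ⟨a, ha, h⟩ := h
  intro ε hε
  have := h.trans (exp_isBigO_exp (a := a) (b := -ε) (by linarith))
  simpa using this

lemma Neg.zero : Neg (fun _ => 0) := ⟨1, one_pos, isBigO_zero _ _⟩

lemma Neg.congr {φ ψ : ℝ → ℝ} (h : Neg φ) (e : ∀ u, φ u = ψ u) : Neg ψ := by
  have : φ = ψ := funext e
  rwa [← this]

lemma Neg.tendsto {φ : ℝ → ℝ} (h : Neg φ) : Tendsto φ atBot (𝓝 0) := by
  obtain ⟨a, ha, h⟩ := h
  exact h.trans_tendsto (tendsto_exp_atBot.comp (tendsto_id.const_mul_atBot ha))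

lemma Neg.integrableOn {φ : ℝ → ℝ} (h : Neg φ) (hc : Continuous φ) (a : ℝ) :
    IntegrableOn φ (Iic a) := by
  obtain ⟨δ, hδ, h⟩ := h
  exact (hc.locallyIntegrable.locallyIntegrableOn _).integrableOn_of_isBigO_atBot h
    ⟨Iic 0, Iic_mem_atBot 0, integrableOn_exp_mul_Iic hδ 0⟩

lemma Neg.of_le {φ : ℝ → ℝ} {C : ℝ} (h : ∀ u, u ≤ 0 → |φ u| ≤ C * exp u) : Neg φ := by
  refine ⟨1, one_pos, IsBigO.of_bound C ?_⟩
  filter_upwards [Iic_mem_atBot (0:ℝ)] with u hu
  simpa [abs_of_pos (exp_pos _)] using h u hu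

lemma Pol.mul {φ ψ : ℝ → ℝ} (h1 : Pol φ) (h2 : Pol ψ) : Pol (fun u => φ u * ψ u) := by
  intro ε hε
  refine ((h1 (ε / 2) (by linarith)).mul (h2 (ε / 2) (by linarith))).trans (isBigO_of_le _ fun u => ?_)
  rw [← exp_add]
  apply le_of_eq
  congr 2
  ring

lemma Pol.add {φ ψ : ℝ → ℝ} (h1 : Pol φ) (h2 : Pol ψ) : Pol (fun u => φ u + ψ u) :=
  fun ε hε => (h1 ε hε).add (h2 ε hε)

lemma Pol.const (c : ℝ) : Pol (fun _ => c) := by
  intro ε hε
  refine IsBigO.of_bound |c| ?_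
  filter_upwards [Iic_mem_atBot (0:ℝ)] with u hu
  have : u ≤ 0 := hu
  simp only [Real.norm_eq_abs, abs_of_pos (exp_pos _)]
  have : 1 ≤ exp (-(ε * u)) := one_le_exp (by nlinarith)
  nlinarith [abs_nonneg c]

lemma Pol.neg_id : Pol (fun u => -u) := by
  intro ε hε
  refine IsBigO.of_bound (1 / ε) ?_
  filter_upwards [Iic_mem_atBot (0:ℝ)] with u hu
  have : u ≤ 0 := hu
  simp only [Real.norm_eq_abs, abs_of_pos (exp_pos _)]
  rw [abs_of_nonneg (by linarith), one_div, ← div_eq_inv_mul, le_div_iff₀ hε]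
  have := add_one_le_exp (-(ε * u))
  linarith

lemma Pol.lin (c : ℝ) : Pol (fun u => c - u) := by
  simpa [sub_eq_add_neg] using (Pol.const c).add Pol.neg_id

lemma Eqv.pol_left {a b : ℝ → ℝ} (h : Eqv a b) : Pol a := by
  have := h.2.pol.add h.1
  simpa using this

lemma Eqv.refl {a : ℝ → ℝ} (h : Pol a) : Eqv a a := ⟨h, Neg.zero.congr fun u => by simp⟩

lemma Eqv.const (c : ℝ) : Eqv (fun _ => c) (fun _ => c) := Eqv.refl (Pol.const c)

lemma Eqv.add {a b a' b' : ℝ → ℝ} (h1 : Eqv a a') (h2 : Eqv b b') :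
    Eqv (fun u => a u + b u) (fun u => a' u + b' u) :=
  ⟨h1.1.add h2.1, (h1.2.add h2.2).congr fun u => by ring⟩

lemma Eqv.mul {a b a' b' : ℝ → ℝ} (h1 : Eqv a a') (h2 : Eqv b b') :
    Eqv (fun u => a u * b u) (fun u => a' u * b' u) :=
  ⟨h1.1.mul h2.1, ((h1.2.mul_pol h2.pol_left).add (h2.2.mul_pol h1.1)).congr fun u => by ring⟩

lemma Eqv.cmul {a a' : ℝ → ℝ} (h : Eqv a a') (c : ℝ) :
    Eqv (fun u => c * a u) (fun u => c * a' u) := (Eqv.const c).mul h

lemma Eqv.sub {a b a' b' : ℝ → ℝ} (h1 : Eqv a a') (h2 : Eqv b b') :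
    Eqv (fun u => a u - b u) (fun u => a' u - b' u) := by
  have := h1.add (h2.cmul (-1))
  simpa [sub_eq_add_neg] using this

lemma Eqv.pow {a a' : ℝ → ℝ} (h : Eqv a a') (n : ℕ) :
    Eqv (fun u => a u ^ n) (fun u => a' u ^ n) := by
  induction n with
  | zero => simpa using Eqv.const 1
  | succ n ih => simpa [pow_succ] using ih.mul h

lemma Eqv.congr {a b a' b' : ℝ → ℝ} (h : Eqv a b) (e1 : ∀ u, a u = a' u) (e2 : ∀ u, b u = b' u) :
    Eqv a' b' := by
  have h1 : a = a' := funext e1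
  have h2 : b = b' := funext e2
  rwa [← h1, ← h2]

lemma isBigO_shift {φ : ℝ → ℝ} {δ : ℝ} (h : φ =O[atBot] (fun u => exp (δ * u))) (x : ℝ) :
    (fun u => φ (u + x)) =O[atBot] (fun u => exp (δ * u)) := by
  have h1 := h.comp_tendsto (tendsto_atBot_add_const_right atBot x tendsto_id)
  refine h1.trans ?_
  have : ((fun u => exp (δ * u)) ∘ fun u => id u + x) = fun u => exp (δ * x) * exp (δ * u) := by
    funext u
    simp only [Function.comp, id]
    rw [← exp_add]; congr 1; ring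
  rw [this]
  exact (isBigO_refl _ _).const_mul_left _

lemma Eqv.shift {a b : ℝ → ℝ} (h : Eqv a b) (x : ℝ) :
    Eqv (fun u => a (u + x)) (fun u => b (u + x)) := by
  refine ⟨fun ε hε => ?_, ?_⟩
  · have := h.1 ε hε
    simp only [← neg_mul] at this ⊢
    exact isBigO_shift this x
  · obtain ⟨δ, hδ, h2⟩ := h.2
    exact ⟨δ, hδ, isBigO_shift h2 x⟩

lemma Eqv.tendsto {a : ℝ → ℝ} {c : ℝ} (h : Eqv a (fun _ => c)) : Tendsto a atBot (𝓝 c) := by
  have := h.2.tendsto.add_const c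
  simpa using this

lemma eqv_kk : Eqv kk (fun u => cc - u) :=
  ⟨Pol.lin cc, Neg.of_le (C := 1) fun u _ => by
    rw [abs_of_nonneg (kk_asym u).1, one_mul]; exact (kk_asym u).2⟩

lemma eqv_ka : Eqv ka (fun _ => 1) :=
  ⟨Pol.const 1, Neg.of_le (C := 1) fun u _ => by
    rw [abs_sub_comm, abs_of_nonneg (by linarith [ka_le_one u]), one_mul]; exact one_sub_ka_le u⟩

lemma exp_exp_le {u : ℝ} (hu : u ≤ 0) : exp (exp u) ≤ 3 :=
  (exp_le_exp.2 (exp_le_one_iff.2 hu)).trans exp_one_lt_three.le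

lemma eqv_ii : Eqv ii (fun _ => 1) :=
  ⟨Pol.const 1, Neg.of_le (C := 3) fun u hu => (abs_ii_sub_one_le u).trans (by
    nlinarith [exp_exp_le hu, exp_pos u])⟩

lemma eqv_io : Eqv io (fun _ => 0) :=
  ⟨Pol.const 0, Neg.of_le (C := 3) fun u hu => by
    rw [sub_zero]
    exact (abs_io_le u).trans (by nlinarith [exp_exp_le hu, exp_pos u])⟩

lemma eqv_mono (a b c d : ℕ) :
    Eqv (fun v => ii v ^ a * io v ^ b * kk v ^ c * ka v ^ d)
      (fun v => 0 ^ b * (cc - v) ^ c) :=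
  ((((eqv_ii.pow a).mul (eqv_io.pow b)).mul (eqv_kk.pow c)).mul (eqv_ka.pow d)).congr
    (fun _ => rfl) (fun u => by simp)

/-- growth at most the exponential of half the absolute value -/
def Sub (ψ : ℝ → ℝ) : Prop := Continuous ψ ∧ ∃ C, 0 ≤ C ∧ ∀ v, |ψ v| ≤ C * exp (|v| / 2)

lemma abs_lin_pow_le (a : ℝ) (n : ℕ) (hn : n ≤ 8) (v : ℝ) :
    |(a - v) ^ n| ≤ (16 + |a|) ^ 8 * exp (|v| / 2) := by
  have h1 : |a - v| ≤ (16 + |a|) * exp (|v| / 16) := by
    have h := add_one_le_exp (|v| / 16)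
    have h2 := abs_sub a v
    have h3 := abs_nonneg a
    have h4 := abs_nonneg v
    nlinarith
  have h0 : 1 ≤ (16 + |a|) * exp (|v| / 16) := by
    have h := add_one_le_exp (|v| / 16)
    have h3 := abs_nonneg a
    have h4 := abs_nonneg v
    nlinarith
  rw [abs_pow]
  calc |a - v| ^ n ≤ ((16 + |a|) * exp (|v| / 16)) ^ n := pow_le_pow_left₀ (abs_nonneg _) h1 n
    _ ≤ ((16 + |a|) * exp (|v| / 16)) ^ 8 := pow_le_pow_right₀ h0 hn
    _ = _ := by rw [mul_pow, ← exp_nat_mul]; congr 2; push_cast; ring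

lemma Sub.lin_pow (c a : ℝ) (n : ℕ) (hn : n ≤ 8) : Sub (fun v => c * (a - v) ^ n) :=
  ⟨by fun_prop, |c| * (16 + |a|) ^ 8, by positivity, fun v => by
    rw [abs_mul, mul_assoc]
    exact mul_le_mul_of_nonneg_left (abs_lin_pow_le a n hn v) (abs_nonneg c)⟩

lemma Env.bound_half {φ : ℝ → ℝ} (h : Env φ) :
    Integrable (fun v => |exp v ^ 2 * φ v| * exp (|v| / 2)) := by
  have h1 := ((h.integrable (s := 3 / 2) (by norm_num) (by norm_num)).abs).add
    ((h.integrable (s := 5 / 2) (by norm_num) (by norm_num)).abs)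
  have := h.1
  refine Integrable.mono' h1 (by fun_prop : Continuous _).aestronglyMeasurable
    (Eventually.of_forall fun v => ?_)
  simp only [Pi.add_apply, Real.norm_eq_abs, abs_mul, abs_abs, abs_pow, abs_of_pos (exp_pos _)]
  have h2 : exp v ^ 2 * exp (|v| / 2) ≤ exp (3 / 2 * v) + exp (5 / 2 * v) := by
    rw [← exp_nat_mul, ← exp_add]
    rcases le_total 0 v with hv | hv
    · rw [abs_of_nonneg hv]
      have : exp ((2:ℕ) * v + v / 2) = exp (5 / 2 * v) := by congr 1; push_cast; ring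
      linarith [exp_pos (3 / 2 * v)]
    · rw [abs_of_nonpos hv]
      have : exp ((2:ℕ) * v + -v / 2) = exp (3 / 2 * v) := by congr 1; push_cast; ring
      linarith [exp_pos (5 / 2 * v)]
  nlinarith [abs_nonneg (φ v)]

lemma Env.integrable_sub {φ ψ : ℝ → ℝ} (h : Env φ) (h2 : Sub ψ) :
    Integrable (fun v => exp v ^ 2 * φ v * ψ v) := by
  obtain ⟨c, C, hC, h2⟩ := h2
  have := h.1
  refine Integrable.mono' (h.bound_half.const_mul C) (by fun_prop : Continuous _).aestronglyMeasurable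
    (Eventually.of_forall fun v => ?_)
  rw [Real.norm_eq_abs, abs_mul]
  nlinarith [mul_le_mul_of_nonneg_left (h2 v) (abs_nonneg (exp v ^ 2 * φ v))]

lemma Env.tendsto_sub {φ ψ : ℝ → ℝ} (h : Env φ) (h2 : Sub ψ) :
    Tendsto (fun v => φ v * ψ v) atTop (𝓝 0) := by
  obtain ⟨_, C, hC, h2⟩ := h2
  obtain ⟨D, hD, h⟩ := h.le_exp_neg
  have h0 := (tendsto_exp_neg_abs_half tendsto_abs_atTop_atTop).const_mul (D * C)
  rw [mul_zero] at h0
  refine squeeze_zero_norm' ?_ h0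
  filter_upwards [Ici_mem_atTop (0:ℝ)] with v hv
  have hv' : 0 ≤ v := hv
  rw [Real.norm_eq_abs, abs_mul]
  calc _ ≤ (D * exp (-v)) * (C * exp (|v| / 2)) :=
        mul_le_mul (h v) (h2 v) (abs_nonneg _) (by positivity)
    _ = D * C * (exp (-v) * exp (|v| / 2)) := by ring
    _ = _ := by rw [← exp_add, abs_of_nonneg hv']; congr 2; ring

lemma continuous_integral_Ioi {φ : ℝ → ℝ} (hc : Continuous φ) (h : ∀ a, IntegrableOn φ (Ioi a)) :
    Continuous (fun u => ∫ x in Ioi u, φ x) := by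
  have : (fun u => ∫ x in Ioi u, φ x) = fun u => (∫ x in Ioi 0, φ x) - ∫ x in (0:ℝ)..u, φ x := by
    funext u
    rw [← intervalIntegral.integral_interval_add_Ioi (h 0) (h u)]
    ring
  rw [this]
  exact continuous_const.sub (intervalIntegral.continuous_primitive
    (fun a b => hc.intervalIntegrable a b) 0)

lemma tendsto_integral_Ioi_atBot {φ : ℝ → ℝ} (h : Integrable φ) :
    Tendsto (fun u => ∫ x in Ioi u, φ x) atBot (𝓝 (∫ x, φ x)) :=
  (aecover_Ioi (μ := volume) tendsto_id).integral_tendsto_of_countably_generated h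

lemma integral_Ioi_shift (φ : ℝ → ℝ) (a v : ℝ) :
    ∫ x in Ioi a, φ (v + x) = ∫ u in Ioi (v + a), φ u := by
  have := (measurePreserving_add_left (volume : Measure ℝ) v).setIntegral_preimage_emb
    (measurableEmbedding_addLeft v) φ (Ioi (v + a))
  rw [← this]
  congr 2
  ext x
  simp

lemma bounded_of_tendsto_atBot {φ : ℝ → ℝ} {c : ℝ} (hc : Continuous φ)
    (h : Tendsto φ atBot (𝓝 c)) : ∃ C, ∀ u, u ≤ 0 → |φ u| ≤ C := by
  have h1 : ∀ᶠ u in atBot, |φ u| ≤ |c| + 1 := by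
    have := h.abs.eventually (Iic_mem_nhds (show |c| < |c| + 1 by linarith))
    exact this
  obtain ⟨a, ha⟩ := eventually_atBot.1 h1
  obtain ⟨D, hD⟩ := (isCompact_Icc (a := a) (b := 0)).exists_bound_of_continuousOn hc.continuousOn
  refine ⟨max D (|c| + 1), fun u hu => ?_⟩
  rcases le_total u a with h2 | h2
  · exact (ha u h2).trans (le_max_right _ _)
  · exact (hD u ⟨h2, hu⟩).trans (le_max_left _ _)

end Pool.Agent.P.MP_8d0004_nt.Bes
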