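import Pool.Agent.P.MP_8d0004_nt.Bes.Reg
import Pool.Agent.P.MP_26ad15_nt.ASTri
import Pool.Agent.P.MP_8d0004_nt.LR.Defs

/-! The law of half the logarithm of an exponential variable. -/

namespace Pool.Agent.P.MP_8d0004_nt.Bes

open MeasureTheory Real Set Filter Topology ProbabilityTheory

/-- the density -/
noncomputable def dens (w : ℝ) : ℝ := 2 * exp (2 * w) * exp (-exp (2 * w))

/-- the measure -/
noncomputable def gum : Measure ℝ := volume.withDensity (fun w => ENNReal.ofReal (dens w))

lemma dens_pos (w : ℝ) : 0 < dens w := by unfold dens; positivity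

@[fun_prop] lemma cont_dens : Continuous dens := by unfold dens; fun_prop

lemma integral_gum {E : Type*} [NormedAddCommGroup E] [NormedSpace ℝ E] (f : ℝ → E) :
    ∫ w, f w ∂gum = ∫ w, dens w • f w := by
  rw [gum, integral_withDensity_eq_integral_toReal_smul cont_dens.measurable.ennreal_ofReal
    (Eventually.of_forall fun _ => ENNReal.ofReal_lt_top)]
  simp_rw [ENNReal.toReal_ofReal (dens_pos _).le]

lemma integrable_gum {E : Type*} [NormedAddCommGroup E] [NormedSpace ℝ E] (f : ℝ → E) :
    Integrable f gum ↔ Integrable (fun w => dens w • f w) := by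
  rw [gum, integrable_withDensity_iff_integrable_smul' cont_dens.measurable.ennreal_ofReal
    (Eventually.of_forall fun _ => ENNReal.ofReal_lt_top)]
  simp_rw [ENNReal.toReal_ofReal (dens_pos _).le]

lemma image_exp_two : (fun w : ℝ => exp (2 * w)) '' univ = Ioi 0 := by
  ext u
  simp only [image_univ, mem_range, mem_Ioi]
  exact ⟨fun ⟨w, h⟩ => h ▸ exp_pos _, fun h => ⟨log u / 2, by
    rw [mul_div_cancel₀ _ two_ne_zero, exp_log h]⟩⟩

lemma deriv_exp_two (w : ℝ) : HasDerivAt (fun w : ℝ => exp (2 * w)) (2 * exp (2 * w)) w :=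
  (((hasDerivAt_id' w).const_mul 2).exp).congr_deriv (by ring)

lemma inj_exp_two : InjOn (fun w : ℝ => exp (2 * w)) univ := fun x _ y _ h => by
  have := exp_injective h
  linarith

lemma gamma_kernel (z : ℂ) (w : ℝ) :
    |2 * exp (2 * w)| • (((-exp (2 * w)).exp : ℂ) * ((exp (2 * w) : ℝ) : ℂ) ^ (1 + z - 1))
      = dens w • Complex.exp (z * ((2 * w : ℝ) : ℂ)) := by
  rw [abs_of_pos (by positivity), add_sub_cancel_left,
    Complex.cpow_def_of_ne_zero (by exact_mod_cast (exp_pos _).ne'), ← Complex.ofReal_log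
      (exp_pos _).le, log_exp, dens, Complex.real_smul, Complex.real_smul, mul_comm z]
  push_cast; ring

lemma gum_cexp {z : ℂ} (hz : -1 < z.re) :
    ∫ w, Complex.exp (z * ((2 * w : ℝ) : ℂ)) ∂gum = Complex.Gamma (1 + z) := by
  rw [integral_gum, Complex.Gamma_eq_integral (by simp; linarith), Complex.GammaIntegral,
    ← image_exp_two, integral_image_eq_integral_abs_deriv_smul MeasurableSet.univ
      (fun x _ => (deriv_exp_two x).hasDerivWithinAt) inj_exp_two, Measure.restrict_univ]
  simp_rw [gamma_kernel]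

lemma gum_exp_integrable {t : ℝ} (ht : -1 < t) : Integrable (fun w => exp (t * (2 * w))) gum := by
  have h := Complex.GammaIntegral_convergent (s := 1 + (t : ℂ)) (by simp; linarith)
  rw [← image_exp_two, integrableOn_image_iff_integrableOn_abs_deriv_smul MeasurableSet.univ
    (fun x _ => (deriv_exp_two x).hasDerivWithinAt) inj_exp_two, integrableOn_univ] at h
  simp_rw [gamma_kernel] at h
  have h2 := ((integrable_gum _).2 h).norm
  refine h2.congr (Eventually.of_forall fun w => ?_)
  simp only
  rw [← Complex.ofReal_mul, ← Complex.ofReal_exp, Complex.norm_real, Real.norm_eq_abs,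
    abs_of_pos (exp_pos _)]

lemma gum_exp_abs : Integrable (fun w => exp |w|) gum := by
  refine ((gum_exp_integrable (t := 1 / 2) (by norm_num)).add
    (gum_exp_integrable (t := -1 / 2) (by norm_num))).mono'
    (by fun_prop : Continuous _).aestronglyMeasurable (Eventually.of_forall fun w => ?_)
  rw [Real.norm_eq_abs, abs_of_pos (exp_pos _), Pi.add_apply, show 1 / 2 * (2 * w) = w by ring,
    show -1 / 2 * (2 * w) = -w by ring]
  rcases abs_choice w with h | h <;> rw [h] <;> linarith [exp_pos w, exp_pos (-w)]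

instance : IsFiniteMeasure gum := by
  have h := gum_exp_integrable (t := 0) (by norm_num)
  simp only [zero_mul, exp_zero] at h
  rcases (integrable_const_iff (μ := gum) (c := (1:ℝ))).1 h with h | h
  · norm_num at h
  · exact h

lemma chi_gum (ξ : ℝ) : chi gum ξ ≠ 0 := by
  have h := gum_cexp (z := π * ξ * Complex.I) (by simp)
  have e : chi gum ξ = Complex.Gamma (1 + π * ξ * Complex.I) := by
    rw [← h, chi]; congr 1; funext w; congr 1; push_cast; ring
  rw [e]
  refine Complex.Gamma_ne_zero fun m hm => ?_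
  have := congrArg Complex.re hm
  simp at this
  linarith [(Nat.cast_nonneg m : (0:ℝ) ≤ m)]

/-- moments of twice the variable -/
noncomputable def nm (n : ℕ) : ℝ := ∫ w, (2 * w) ^ n ∂gum

/-- cumulants of twice the variable -/
noncomputable def cu (k : ℕ) : ℝ := (MP_26ad15_nt.PS true k 1).re

lemma mem_int_gum : (0:ℝ) ∈ interior (integrableExpSet (fun w : ℝ => 2 * w) gum) := by
  rw [mem_interior_iff_mem_nhds]
  filter_upwards [Ioi_mem_nhds (show (-1:ℝ) < 0 by norm_num)] with t ht
  exact gum_exp_integrable ht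

lemma gum_pow (n : ℕ) : Integrable (fun w : ℝ => w ^ n) gum := by
  have := (integrable_pow_of_mem_interior_integrableExpSet mem_int_gum n).const_mul ((1 / 2) ^ n)
  refine this.congr (Eventually.of_forall fun w => ?_)
  simp only
  rw [← mul_pow]; congr 1; ring

lemma gum_moment (n : ℕ) : ∫ w, w ^ n ∂gum = nm n / 2 ^ n := by
  simp_rw [nm, mul_pow, integral_const_mul]
  field_simp

lemma nm_eq (n : ℕ) : (nm n : ℂ) = iteratedDeriv n Complex.Gamma 1 := by
  have h := iteratedDeriv_complexMGF (X := fun w : ℝ => 2 * w) (μ := gum) (z := 0)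
    (by simpa using mem_int_gum) n
  have e : complexMGF (fun w : ℝ => 2 * w) gum =ᶠ[𝓝 0] fun z => Complex.Gamma (1 + z) := by
    filter_upwards [(isOpen_lt continuous_const Complex.continuous_re).mem_nhds
      (show (-1:ℝ) < (0:ℂ).re by simp)] with z hz
    exact gum_cexp hz
  rw [e.iteratedDeriv_eq, iteratedDeriv_comp_const_add] at h
  simp only [add_zero, zero_mul, Complex.exp_zero, mul_one] at h
  rw [h, nm, ← integral_complex_ofReal]
  simp

lemma nm_zero : nm 0 = 1 := by
  have := nm_eq 0
  simp only [iteratedDeriv_zero, Complex.Gamma_one] at this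
  exact_mod_cast this

lemma nm_rec (k : ℕ) :
    nm (k + 1) = ∑ i ∈ Finset.range (k + 1), k.choose i * cu i * nm (k - i) := by
  have h := MP_26ad15_nt.gamma_rec k (z := 1) (MP_26ad15_nt.nonpole_of_re (by simp))
  simp_rw [← nm_eq] at h
  have h2 := congrArg Complex.re h
  rw [Complex.ofReal_re, Complex.re_sum] at h2
  rw [h2]
  refine Finset.sum_congr rfl fun i _ => ?_
  rw [Complex.re_mul_ofReal, ← Complex.ofReal_natCast, Complex.re_ofReal_mul, cu]

lemma cu_eq (l : ℕ) : cu (l + 1) = (-1) ^ l * (l + 1).factorial * LR.zt (l + 2) := by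
  have h := MP_26ad15_nt.hh_eq l (z := 1) (by norm_num)
  rw [cu, ← MP_26ad15_nt.hh, h, LR.zt, ← tsum_mul_left, ← Complex.ofReal_re (∑' _, _),
    Complex.ofReal_tsum]
  congr 2; funext k
  rw [MP_26ad15_nt.tm]
  push_cast
  rw [one_div, add_comm (1:ℂ)]

end Pool.Agent.P.MP_8d0004_nt.Bes
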