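import Pool.Agent.P.MP_8d0004_nt.Bes.Gum
import Pool.Agent.P.MP_8d0004_nt.Bes.Det

/-! The oscillating Bessel functions and Hankel transforms in logarithmic variables. -/

namespace Pool.Agent.P.MP_8d0004_nt.Bes

open MeasureTheory Real Set Filter Topology

/-- cosine moments of the oscillating kernel -/
noncomputable def Cn (n : ℕ) (c t : ℝ) : ℝ := ∫ θ in (0:ℝ)..π, cos θ ^ n * cos (t * cos θ + c)

lemma Cn_hasDerivAt (n : ℕ) (c t : ℝ) : HasDerivAt (Cn n c) (Cn (n + 1) (c + π / 2) t) t := by
  have h := intervalIntegral.hasDerivAt_integral_of_dominated_loc_of_deriv_le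
    (μ := volume) (a := 0) (b := π) (F := fun s θ => cos θ ^ n * cos (s * cos θ + c))
    (F' := fun s θ => cos θ ^ (n + 1) * cos (s * cos θ + (c + π / 2))) (x₀ := t) (s := univ)
    (bound := fun _ => 1) univ_mem
    (Eventually.of_forall fun s => (by fun_prop : Continuous _).aestronglyMeasurable)
    ((by fun_prop : Continuous _).intervalIntegrable _ _)
    (by fun_prop : Continuous _).aestronglyMeasurable
    (Eventually.of_forall fun θ _ s _ => by
      rw [Real.norm_eq_abs, abs_mul, abs_pow]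
      exact mul_le_one₀ (pow_le_one₀ (abs_nonneg _) (abs_cos_le_one θ)) (abs_nonneg _)
        (abs_cos_le_one _))
    (intervalIntegrable_const)
    (Eventually.of_forall fun θ _ s _ => by
      have := (((hasDerivAt_id' s).mul_const (cos θ)).add_const c).cos.const_mul (cos θ ^ n)
      refine this.congr_deriv ?_
      rw [← add_assoc, cos_add_pi_div_two]; ring)
  exact h.2

lemma C_rel (t : ℝ) : Cn 1 (π / 2) t + t * Cn 2 (π / 2 + π / 2) t = -(t * Cn 0 0 t) := by
  have h : ∫ θ in (0:ℝ)..π, (cos θ * sin (t * cos θ) + sin θ * (cos (t * cos θ) * (t * -sin θ)))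
      = sin π * sin (t * cos π) - sin 0 * sin (t * cos 0) := by
    apply intervalIntegral.integral_eq_sub_of_hasDerivAt (f := fun θ => sin θ * sin (t * cos θ))
    · intro θ _
      exact (hasDerivAt_sin θ).mul ((hasDerivAt_cos θ).const_mul t).sin
    · exact (by fun_prop : Continuous _).intervalIntegrable _ _
  have e : ∀ θ, cos θ * sin (t * cos θ) + sin θ * (cos (t * cos θ) * (t * -sin θ))
      = -(cos θ ^ 1 * cos (t * cos θ + π / 2)) - t * (cos θ ^ 2 * cos (t * cos θ + (π / 2 + π / 2)))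
        - t * (cos θ ^ 0 * cos (t * cos θ + 0)) := by
    intro θ
    rw [add_halves, cos_add_pi, cos_add_pi_div_two, add_zero]
    linear_combination (-t * cos (t * cos θ)) * sin_sq_add_cos_sq θ
  simp_rw [e] at h
  rw [intervalIntegral.integral_sub, intervalIntegral.integral_sub, intervalIntegral.integral_neg,
    intervalIntegral.integral_const_mul, intervalIntegral.integral_const_mul] at h
  · simp only [sin_pi, sin_zero, zero_mul, sub_zero] at h
    unfold Cn
    linarith
  all_goals exact (by fun_prop : Continuous _).intervalIntegrable _ _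

noncomputable def j0 (s : ℝ) : ℝ := (1 / π) * Cn 0 0 (exp s)
noncomputable def j1 (s : ℝ) : ℝ := -(exp s * ((1 / π) * Cn 1 (π / 2) (exp s)))

lemma hj0 (s : ℝ) : HasDerivAt j0 (-j1 s) s :=
  (((Cn_hasDerivAt 0 0 (exp s)).comp s (hasDerivAt_exp s)).const_mul (1 / π)).congr_deriv (by
    unfold j1; rw [zero_add, zero_add]; ring)

lemma hj1 (s : ℝ) : HasDerivAt j1 (exp s ^ 2 * j0 s) s :=
  (((hasDerivAt_exp s).mul (((Cn_hasDerivAt 1 (π / 2) (exp s)).comp s
    (hasDerivAt_exp s)).const_mul (1 / π))).neg).congr_deriv (by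
      unfold j0
      have := C_rel (exp s)
      simp only [Function.comp]
      linear_combination (-(exp s) / π) * this)

@[fun_prop] lemma cont_j0 : Continuous j0 :=
  continuous_iff_continuousAt.2 fun v => (hj0 v).continuousAt
@[fun_prop] lemma cont_j1 : Continuous j1 :=
  continuous_iff_continuousAt.2 fun v => (hj1 v).continuousAt

lemma abs_Cn_le (n : ℕ) (c t : ℝ) : |(1 / π) * Cn n c t| ≤ 1 :=
  avg_bound fun θ => by
    rw [abs_mul, abs_pow]
    exact mul_le_one₀ (pow_le_one₀ (abs_nonneg _) (abs_cos_le_one θ)) (abs_nonneg _)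
      (abs_cos_le_one _)

lemma abs_j0_le (s : ℝ) : |j0 s| ≤ 1 := abs_Cn_le _ _ _

lemma abs_j1_le (s : ℝ) : |j1 s| ≤ exp s := by
  rw [j1, abs_neg, abs_mul, abs_of_pos (exp_pos s)]
  exact mul_le_of_le_one_right (exp_pos s).le (abs_Cn_le _ _ _)

lemma j0_tendsto : Tendsto j0 atBot (𝓝 1) := by
  have h := (((Cn_hasDerivAt 0 0 0).continuousAt.tendsto).comp tendsto_exp_atBot).const_mul (1 / π)
  have e : 1 / π * Cn 0 0 0 = 1 := by
    simp [Cn, pi_ne_zero]
  rwa [e] at h

/-- integrability against a power of the exponential -/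
def In (n : ℕ) (φ : ℝ → ℝ) : Prop := Integrable (fun v => exp v ^ n * φ v)

lemma Env.In {φ : ℝ → ℝ} (h : Env φ) {n : ℕ} (h1 : 1 ≤ n) (h2 : n ≤ 10) : In n φ := by
  have := h.integrable (s := n) (by exact_mod_cast h1) (by exact_mod_cast h2)
  simp only [exp_nat_mul] at this
  exact this

lemma In.shift {φ : ℝ → ℝ} {n : ℕ} (h : In (n + 2) φ) : In n (fun v => exp v ^ 2 * φ v) :=
  h.congr (Eventually.of_forall fun v => by simp only; ring)

/-- the Hankel transform of order zero -/
noncomputable def AA (φ : ℝ → ℝ) (y : ℝ) : ℝ := ∫ v, j0 (y + v) * (exp v ^ 2 * φ v)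

/-- the Hankel transform of order one -/
noncomputable def PP (φ : ℝ → ℝ) (y : ℝ) : ℝ := ∫ v, j1 (y + v) * φ v

lemma int_j0 {ψ : ℝ → ℝ} (h : Integrable ψ) (y : ℝ) : Integrable (fun v => j0 (y + v) * ψ v) :=
  h.bdd_mul (c := 1) (by fun_prop : Continuous _).aestronglyMeasurable
    (Eventually.of_forall fun _ => abs_j0_le _)

lemma abs_j1_mul_le (y v a : ℝ) : |j1 (y + v) * a| ≤ exp y * |exp v ^ 1 * a| := by
  rw [abs_mul, abs_mul, pow_one, abs_of_pos (exp_pos v), ← mul_assoc, ← exp_add]
  exact mul_le_mul_of_nonneg_right (abs_j1_le _) (abs_nonneg _)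

lemma int_j1 {φ : ℝ → ℝ} (c : Continuous φ) (h : In 1 φ) (y : ℝ) :
    Integrable (fun v => j1 (y + v) * φ v) :=
  (h.abs.const_mul (exp y)).mono' (by fun_prop : Continuous _).aestronglyMeasurable
    (Eventually.of_forall fun _ => abs_j1_mul_le _ _ _)

lemma abs_PP_le {φ : ℝ → ℝ} (h : In 1 φ) (y : ℝ) :
    |PP φ y| ≤ (∫ v, |exp v ^ 1 * φ v|) * exp y := by
  have := norm_integral_le_of_norm_le (f := fun v => j1 (y + v) * φ v) (h.abs.const_mul (exp y))
    (Eventually.of_forall fun _ => abs_j1_mul_le _ _ _)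
  rwa [integral_const_mul, mul_comm] at this

lemma abs_AA_le {φ : ℝ → ℝ} (h : In 2 φ) (y : ℝ) : |AA φ y| ≤ ∫ v, |exp v ^ 2 * φ v| :=
  norm_integral_le_of_norm_le (f := fun v => j0 (y + v) * (exp v ^ 2 * φ v)) h.abs
    (Eventually.of_forall fun _ => by
      rw [Real.norm_eq_abs, abs_mul]
      exact mul_le_of_le_one_left (abs_nonneg _) (abs_j0_le _))

lemma PP_deriv {φ : ℝ → ℝ} (c : Continuous φ) (h1 : In 1 φ) (h2 : In 2 φ) (y : ℝ) :
    HasDerivAt (PP φ) (exp y ^ 2 * AA φ y) y := by
  have h := hasDerivAt_integral_of_dominated_loc_of_deriv_le (μ := volume)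
    (F := fun y v => j1 (y + v) * φ v)
    (F' := fun y v => exp y ^ 2 * (j0 (y + v) * (exp v ^ 2 * φ v))) (x₀ := y) (s := Iio (y + 1))
    (bound := fun v => exp (y + 1) ^ 2 * |exp v ^ 2 * φ v|) (Iio_mem_nhds (lt_add_one y))
    (Eventually.of_forall fun s => (by fun_prop : Continuous _).aestronglyMeasurable)
    (int_j1 c h1 y) (by fun_prop : Continuous _).aestronglyMeasurable
    (Eventually.of_forall fun v x hx => by
      rw [Real.norm_eq_abs, abs_mul, abs_mul, abs_of_pos (pow_pos (exp_pos x) 2)]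
      have : exp x ≤ exp (y + 1) := exp_le_exp.2 (le_of_lt hx)
      have h3 := mul_le_of_le_one_left (abs_nonneg (exp v ^ 2 * φ v)) (abs_j0_le (x + v))
      gcongr)
    (h2.abs.const_mul _)
    (Eventually.of_forall fun v x _ =>
      (((hj1 (x + v)).comp_add_const x v).mul_const (φ v)).congr_deriv (by rw [exp_add]; ring))
  have h3 := h.2
  rw [integral_const_mul] at h3
  exact h3

lemma AA_deriv {φ : ℝ → ℝ} (c : Continuous φ) (h2 : In 2 φ) (h3 : In 3 φ) (y : ℝ) :
    HasDerivAt (AA φ) (-PP (fun v => exp v ^ 2 * φ v) y) y := by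
  have h := hasDerivAt_integral_of_dominated_loc_of_deriv_le (μ := volume)
    (F := fun y v => j0 (y + v) * (exp v ^ 2 * φ v))
    (F' := fun y v => -(j1 (y + v) * (exp v ^ 2 * φ v))) (x₀ := y) (s := Iio (y + 1))
    (bound := fun v => exp (y + 1) * |exp v ^ 1 * (exp v ^ 2 * φ v)|) (Iio_mem_nhds (lt_add_one y))
    (Eventually.of_forall fun s => (by fun_prop : Continuous _).aestronglyMeasurable)
    (int_j0 h2 y) (by fun_prop : Continuous _).aestronglyMeasurable
    (Eventually.of_forall fun v x hx => by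
      rw [Real.norm_eq_abs, abs_neg]
      have : exp x ≤ exp (y + 1) := exp_le_exp.2 (le_of_lt hx)
      refine (abs_j1_mul_le _ _ _).trans ?_
      gcongr)
    ((In.shift (n := 1) h3).abs.const_mul _)
    (Eventually.of_forall fun v x _ =>
      (((hj0 (x + v)).comp_add_const x v).mul_const (exp v ^ 2 * φ v)).congr_deriv (by ring))
  have h4 := h.2
  rw [integral_neg] at h4
  exact h4

lemma PP_parts {φ φ' : ℝ → ℝ} (hd : ∀ v, HasDerivAt φ (φ' v) v) (h2 : In 2 φ) (h3 : In 3 φ)
    (h2' : In 2 φ') (y : ℝ) : PP (fun v => exp v ^ 2 * φ v) y = 2 * AA φ y + AA φ' y := by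
  have c : Continuous φ := continuous_iff_continuousAt.2 fun v => (hd v).continuousAt
  have i1 := int_j1 (φ := fun v => exp v ^ 2 * φ v) (by fun_prop) (In.shift h3) y
  have i2 := (int_j0 h2 y).const_mul 2
  have i3 := int_j0 h2' y
  have := integral_eq_zero_of_hasDerivAt_of_integrable
    (f := fun v => j0 (y + v) * (exp v ^ 2 * φ v)) (fun v =>
      (((hj0 (y + v)).comp_const_add y v).fun_mul
        (((hasDerivAt_exp v).fun_pow 2).fun_mul (hd v))).congr_deriv
      (show _ = 2 * (j0 (y + v) * (exp v ^ 2 * φ v)) + j0 (y + v) * (exp v ^ 2 * φ' v)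
        - j1 (y + v) * (exp v ^ 2 * φ v) by push_cast; ring))
    ((i2.add i3).sub i1) (int_j0 h2 y)
  have i4 : Integrable (fun v => 2 * (j0 (y + v) * (exp v ^ 2 * φ v))
    + j0 (y + v) * (exp v ^ 2 * φ' v)) := i2.add i3
  rw [integral_sub i4 i1, integral_add i2 i3, integral_const_mul] at this
  unfold PP AA
  linarith

lemma AA_parts {φ φ' : ℝ → ℝ} (hd : ∀ v, HasDerivAt φ (φ' v) v) (c' : Continuous φ')
    (h1 : In 1 φ) (h2 : In 2 φ) (h1' : In 1 φ') (y : ℝ) : exp y ^ 2 * AA φ y = -PP φ' y := by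
  have c : Continuous φ := continuous_iff_continuousAt.2 fun v => (hd v).continuousAt
  have i1 := int_j1 c' h1' y
  have i2 := (int_j0 h2 y).const_mul (exp y ^ 2)
  have := integral_eq_zero_of_hasDerivAt_of_integrable
    (f := fun v => j1 (y + v) * φ v) (fun v =>
      (((hj1 (y + v)).comp_const_add y v).fun_mul (hd v)).congr_deriv
      (show _ = exp y ^ 2 * (j0 (y + v) * (exp v ^ 2 * φ v)) + j1 (y + v) * φ' v by
        rw [exp_add]; ring))
    (i2.add i1) (int_j1 c h1 y)
  rw [integral_add i2 i1, integral_const_mul] at this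
  unfold PP AA
  linarith

lemma In_dens (n : ℕ) (hn : 1 ≤ n) : In n (fun w => 2 * exp (-exp w ^ 2)) := by
  have h1 : (1:ℝ) ≤ n := by exact_mod_cast hn
  have := (integrable_gum _).1 (gum_exp_integrable (t := (n - 2) / 2) (by linarith))
  refine this.congr (Eventually.of_forall fun w => ?_)
  simp only [dens, smul_eq_mul]
  rw [← exp_nat_mul, ← exp_two_mul,
    show (n:ℝ) * w = 2 * w + (n - 2) / 2 * (2 * w) by ring, exp_add]
  ring

lemma weber (r : ℝ) : ∫ w, j1 (r + w) * dens w = dens (r - log 2) := by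
  set φ : ℝ → ℝ := fun w => 2 * exp (-exp w ^ 2) with hφ
  have c : Continuous φ := by fun_prop
  have e : dens = fun w => exp w ^ 2 * φ w := by
    funext w; simp only [dens, hφ, exp_two_mul]; ring
  have hd : ∀ w, HasDerivAt φ (-2 * (exp w ^ 2 * φ w)) w := fun w =>
    ((((hasDerivAt_exp w).fun_pow 2).fun_neg.exp).const_mul 2).congr_deriv (by
      simp only [hφ]; push_cast; ring)
  have h1 : ∀ r, exp r ^ 2 * AA φ r = 2 * PP (fun w => exp w ^ 2 * φ w) r := fun r => by
    rw [AA_parts hd (by fun_prop) (In_dens 1 le_rfl) (In_dens 2 (by norm_num))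
      (((In_dens 3 (by norm_num)).const_mul (-2)).congr (Eventually.of_forall fun w => by
        simp only; ring)) r]
    simp only [PP]
    rw [← integral_neg, ← integral_const_mul]
    congr 1; funext w; ring
  have h2 : ∀ r, HasDerivAt (fun r => AA φ r * exp (exp r ^ 2 / 4)) 0 r := fun r =>
    ((AA_deriv c (In_dens 2 (by norm_num)) (In_dens 3 (by norm_num)) r).fun_mul
      ((((hasDerivAt_exp r).fun_pow 2).div_const 4).exp)).congr_deriv (by
        push_cast
        linear_combination (exp (exp r ^ 2 / 4) / 2) * h1 r)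
  have h3 : Tendsto (AA φ) atBot (𝓝 1) := by
    have h4 : ∫ w, 1 * (exp w ^ 2 * φ w) = 1 := by
      have := nm_zero
      rw [nm, integral_gum, e] at this
      simpa using this
    rw [← h4]
    refine tendsto_integral_filter_of_dominated_convergence (fun w => |exp w ^ 2 * φ w|)
      (Eventually.of_forall fun _ => (by fun_prop : Continuous _).aestronglyMeasurable)
      (Eventually.of_forall fun _ => Eventually.of_forall fun w => ?_)
      (In_dens 2 (by norm_num)).abs (Eventually.of_forall fun w => ?_)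
    · rw [Real.norm_eq_abs, abs_mul]
      exact mul_le_of_le_one_left (abs_nonneg _) (abs_j0_le _)
    · exact (j0_tendsto.comp (tendsto_atBot_add_const_right _ w tendsto_id)).mul_const _
  have h5 : AA φ r * exp (exp r ^ 2 / 4) = 1 := by
    have h6 := h3.mul ((continuous_exp.tendsto _).comp ((tendsto_exp_atBot.pow 2).div_const 4))
    have h7 : ∀ x, AA φ x * exp (exp x ^ 2 / 4) = AA φ r * exp (exp r ^ 2 / 4) := fun x =>
      is_const_of_deriv_eq_zero (fun x => (h2 x).differentiableAt) (fun x => (h2 x).deriv) x r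
    simp only [Function.comp_def, h7] at h6
    simpa using tendsto_const_nhds_iff.1 h6
  have h8 : exp (2 * (r - log 2)) = exp r ^ 2 / 4 := by
    rw [exp_two_mul, exp_sub, exp_log two_pos]; ring
  have h9 := h1 r
  rw [← e] at h9
  have h10 : exp (-(exp r ^ 2 / 4)) * exp (exp r ^ 2 / 4) = 1 := by rw [← exp_add]; simp
  change PP dens r = _
  rw [dens, h8]
  linear_combination (-1 / 2) * h9 + (exp r ^ 2 / 2 * exp (-(exp r ^ 2 / 4))) * h5
    - (exp r ^ 2 / 2 * AA φ r) * h10

lemma gauss_rel {φ : ℝ → ℝ} (c : Continuous φ) (h : In 1 φ) (s : ℝ) :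
    TT gum 1 (PP φ) s = TT gum (-1) (fun y => φ (log 2 - y)) s := by
  unfold TT PP
  rw [integral_integral_swap (f := fun w v => j1 (s + 1 * w + v) * φ v)]
  · simp_rw [integral_mul_const, integral_gum, smul_eq_mul]
    rw [← integral_add_right_eq_self (fun w => dens w * φ (log 2 - (s + -1 * w))) (s - log 2)]
    congr 1; funext v
    rw [show v + (s - log 2) = s + v - log 2 by ring, ← weber]
    congr 1
    · congr 1; funext w; rw [mul_comm]; congr 2; ring
    · congr 1; ring
  · refine ((gum_exp_abs.const_mul (exp s)).mul_prod h.abs).mono'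
      (by fun_prop : Continuous _).aestronglyMeasurable (Eventually.of_forall fun z => ?_)
    refine (abs_j1_mul_le _ _ _).trans (mul_le_mul_of_nonneg_right ?_ (abs_nonneg _))
    rw [← exp_add, one_mul]
    exact exp_le_exp.2 (by linarith [le_abs_self z.1])

end Pool.Agent.P.MP_8d0004_nt.Bes
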