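import Pool.Agent.P.MP_8d0004_nt.Bes.Basic

/-! Bessel functions in the logarithmic variable: first order system, bounds, growth classes. -/

namespace Pool.Agent.P.MP_8d0004_nt.Bes

open Real MeasureTheory Set Filter Topology

noncomputable def kk (v : ℝ) : ℝ := K0 (exp v)
noncomputable def ka (v : ℝ) : ℝ := exp v * K1 (exp v)
noncomputable def ii (v : ℝ) : ℝ := I0 (exp v)
noncomputable def io (v : ℝ) : ℝ := exp v * I1 (exp v)

lemma K0_hasDerivAt {t : ℝ} (ht : 0 < t) : HasDerivAt K0 (-K1 t) t := by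
  have : K0 = Mn 0 := funext K0_eq
  rw [this]
  exact Mn_hasDerivAt 0 ht

lemma I0_hasDerivAt (t : ℝ) : HasDerivAt I0 (I1 t) t := by
  have : I0 = fun t => (1 / π) * Jn 0 t := funext I0_eq
  rw [this]
  exact (Jn_hasDerivAt 0 t).const_mul _

lemma tK1_hasDerivAt {t : ℝ} (ht : 0 < t) : HasDerivAt (fun t => t * K1 t) (-(t * K0 t)) t := by
  have h := (hasDerivAt_id' t).mul (Mn_hasDerivAt 1 ht)
  refine h.congr_deriv ?_
  have := M_rel ht
  rw [K0_eq]
  linarith

lemma tI1_hasDerivAt (t : ℝ) : HasDerivAt (fun t => t * I1 t) (t * I0 t) t := by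
  have h := (hasDerivAt_id' t).mul ((Jn_hasDerivAt 1 t).const_mul (1 / π))
  refine h.congr_deriv ?_
  have := J_rel t
  rw [I0_eq]
  calc _ = (1 / π) * (Jn 1 t + t * Jn 2 t) := by ring
    _ = _ := by rw [this]; ring

lemma hkk (v : ℝ) : HasDerivAt kk (-ka v) v :=
  ((K0_hasDerivAt (exp_pos v)).comp v (hasDerivAt_exp v)).congr_deriv (by unfold ka; ring)

lemma hka (v : ℝ) : HasDerivAt ka (-(exp v ^ 2 * kk v)) v :=
  ((tK1_hasDerivAt (exp_pos v)).comp v (hasDerivAt_exp v)).congr_deriv (by unfold kk; ring)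

lemma hii (v : ℝ) : HasDerivAt ii (io v) v :=
  ((I0_hasDerivAt (exp v)).comp v (hasDerivAt_exp v)).congr_deriv (by unfold io; ring)

lemma hio (v : ℝ) : HasDerivAt io (exp v ^ 2 * ii v) v :=
  ((tI1_hasDerivAt (exp v)).comp v (hasDerivAt_exp v)).congr_deriv (by unfold ii; ring)

@[fun_prop] lemma cont_kk : Continuous kk := continuous_iff_continuousAt.2 fun v => (hkk v).continuousAt
@[fun_prop] lemma cont_ka : Continuous ka := continuous_iff_continuousAt.2 fun v => (hka v).continuousAt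
@[fun_prop] lemma cont_ii : Continuous ii := continuous_iff_continuousAt.2 fun v => (hii v).continuousAt
@[fun_prop] lemma cont_io : Continuous io := continuous_iff_continuousAt.2 fun v => (hio v).continuousAt

lemma K0_nonneg (t : ℝ) : 0 ≤ K0 t :=
  setIntegral_nonneg measurableSet_Ioi fun _ _ => (exp_pos _).le

lemma K0_le_K1 {t : ℝ} (ht : 0 < t) : K0 t ≤ K1 t := by
  rw [K0_eq, K1]
  refine setIntegral_mono_on (Mn_integrable 0 ht) (Mn_integrable 1 ht) measurableSet_Ioi
    fun u _ => ?_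
  apply mul_le_mul_of_nonneg_right _ (exp_pos _).le
  simp [one_le_cosh u]

lemma tK1_bounds {t : ℝ} (ht : 0 < t) : exp (-t) ≤ t * K1 t ∧ t * K1 t ≤ (1 + t) * exp (-t) := by
  have hs : IntegrableOn (fun u => sinh u * exp (-(t * cosh u))) (Ioi (0:ℝ)) := by
    refine Integrable.mono' (Mn_integrable 1 ht) (by fun_prop : Continuous _).aestronglyMeasurable
      ((ae_restrict_iff' measurableSet_Ioi).2 (Eventually.of_forall fun u hu => ?_))
    have hu' : 0 < u := hu
    rw [Real.norm_eq_abs, abs_of_nonneg (by have := sinh_nonneg_iff.2 hu'.le; positivity), pow_one]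
    exact mul_le_mul_of_nonneg_right (sinh_lt_cosh u).le (exp_pos _).le
  have h1 : ∫ u in Ioi (0:ℝ), t * (sinh u * exp (-(t * cosh u)))
      = 0 - -exp (-(t * cosh 0)) := by
    apply integral_Ioi_of_hasDerivAt_of_tendsto' (f := fun u => -exp (-(t * cosh u)))
    · intro u _
      exact ((hasDerivAt_cosh u).const_mul t).fun_neg.exp.fun_neg.congr_deriv (by ring)
    · exact hs.const_mul t
    · have := (tendsto_Mn_kernel 0 ht).neg
      simpa using this
  simp only [cosh_zero, mul_one, zero_sub, neg_neg] at h1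
  rw [integral_const_mul] at h1
  have he : IntegrableOn (fun u => exp (-u) * exp (-(t * cosh u))) (Ioi (0:ℝ)) := by
    have := (Mn_integrable 1 ht).sub hs
    refine this.congr_fun (fun u _ => ?_) measurableSet_Ioi
    have h := cosh_sub_sinh u
    simp only [Pi.sub_apply, pow_one]
    rw [← h]; ring
  have h2 : K1 t = (∫ u in Ioi (0:ℝ), sinh u * exp (-(t * cosh u)))
      + ∫ u in Ioi (0:ℝ), exp (-u) * exp (-(t * cosh u)) := by
    rw [← integral_add hs he, K1, Mn]
    refine setIntegral_congr_fun measurableSet_Ioi fun u _ => ?_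
    have h := cosh_sub_sinh u
    simp only [pow_one]
    rw [← h]; ring
  have h3 : 0 ≤ ∫ u in Ioi (0:ℝ), exp (-u) * exp (-(t * cosh u)) :=
    setIntegral_nonneg measurableSet_Ioi fun _ _ => by positivity
  have h4 : ∫ u in Ioi (0:ℝ), exp (-u) * exp (-(t * cosh u)) ≤ exp (-t) := by
    calc _ ≤ ∫ u in Ioi (0:ℝ), exp (-u) * exp (-t) := by
          refine setIntegral_mono_on he ((integrableOn_exp_neg_Ioi 0).mul_const _)
            measurableSet_Ioi fun u _ => ?_
          apply mul_le_mul_of_nonneg_left _ (exp_pos _).le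
          apply exp_le_exp.2
          have := one_le_cosh u
          nlinarith
      _ = exp (-t) := by rw [integral_mul_const, integral_exp_neg_Ioi_zero, one_mul]
  rw [h2, mul_add, h1]
  constructor
  · nlinarith
  · nlinarith

lemma kk_nonneg (v : ℝ) : 0 ≤ kk v := K0_nonneg _
lemma ka_lower (v : ℝ) : exp (-exp v) ≤ ka v := (tK1_bounds (exp_pos v)).1
lemma ka_upper (v : ℝ) : ka v ≤ (1 + exp v) * exp (-exp v) := (tK1_bounds (exp_pos v)).2
lemma ka_pos (v : ℝ) : 0 < ka v := (exp_pos _).trans_le (ka_lower v)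

lemma ka_le_one (v : ℝ) : ka v ≤ 1 := by
  refine (ka_upper v).trans ?_
  rw [exp_neg, ← div_eq_mul_inv, div_le_one (exp_pos _)]
  have := add_one_le_exp (exp v)
  linarith

lemma one_sub_ka_le (v : ℝ) : 1 - ka v ≤ exp v := by
  have := ka_lower v
  have h2 := add_one_le_exp (-exp v)
  linarith

lemma exp_mul_kk_le (v : ℝ) : exp v * kk v ≤ ka v :=
  mul_le_mul_of_nonneg_left (K0_le_K1 (exp_pos v)) (exp_pos v).le

/-- the constant in the expansion of the Bessel function at the origin -/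
noncomputable def cc : ℝ := limUnder atBot (fun v => kk v + v)

lemma one_sub_ka_integrableOn (v : ℝ) : IntegrableOn (fun u => 1 - ka u) (Iic v) := by
  refine Integrable.mono' (integrableOn_exp_Iic v) (by fun_prop : Continuous _).aestronglyMeasurable
    (Eventually.of_forall fun u => ?_)
  rw [Real.norm_eq_abs, abs_of_nonneg (by linarith [ka_le_one u])]
  exact one_sub_ka_le u

lemma hkk_add (v : ℝ) : HasDerivAt (fun v => kk v + v) (1 - ka v) v :=
  ((hkk v).add (hasDerivAt_id' v)).congr_deriv (by ring)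

lemma kk_asym (v : ℝ) : 0 ≤ kk v - (cc - v) ∧ kk v - (cc - v) ≤ exp v := by
  have ht : Tendsto (fun v => kk v + v) atBot (𝓝 cc) :=
    tendsto_limUnder_of_hasDerivAt_of_integrableOn_Iic (a := 0) (fun u _ => hkk_add u)
      (one_sub_ka_integrableOn 0)
  have h := integral_Iic_of_hasDerivAt_of_tendsto' (a := v) (fun u _ => hkk_add u)
    (one_sub_ka_integrableOn v) ht
  have h1 : 0 ≤ ∫ u in Iic v, (1 - ka u) :=
    setIntegral_nonneg measurableSet_Iic fun u _ => by linarith [ka_le_one u]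
  have h2 : ∫ u in Iic v, (1 - ka u) ≤ exp v := by
    rw [← integral_exp_Iic v]
    exact setIntegral_mono_on (one_sub_ka_integrableOn v) (integrableOn_exp_Iic v)
      measurableSet_Iic fun u _ => one_sub_ka_le u
  constructor <;> linarith

lemma avg_bound {f : ℝ → ℝ} {B : ℝ} (h : ∀ θ, |f θ| ≤ B) :
    |(1 / π) * ∫ θ in (0:ℝ)..π, f θ| ≤ B := by
  have h1 := intervalIntegral.norm_integral_le_of_norm_le_const (a := 0) (b := π) (f := f) (C := B)
    (fun θ _ => h θ)
  rw [Real.norm_eq_abs, sub_zero, abs_of_pos pi_pos] at h1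
  rw [abs_mul, abs_of_pos (by positivity : (0:ℝ) < 1 / π), one_div, inv_mul_le_iff₀ pi_pos]
  linarith

lemma exp_mul_cos_le {t : ℝ} (ht : 0 ≤ t) (θ : ℝ) : exp (t * cos θ) ≤ exp t :=
  exp_le_exp.2 (by nlinarith [cos_le_one θ])

lemma abs_ii_le (v : ℝ) : |ii v| ≤ exp (exp v) :=
  avg_bound fun θ => by rw [abs_of_pos (exp_pos _)]; exact exp_mul_cos_le (exp_pos v).le θ

lemma abs_io_le (v : ℝ) : |io v| ≤ exp v * exp (exp v) := by
  unfold io I1 Jn
  rw [abs_mul, abs_of_pos (exp_pos v)]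
  refine mul_le_mul_of_nonneg_left (avg_bound fun θ => ?_) (exp_pos v).le
  rw [abs_mul, abs_of_pos (exp_pos _), pow_one]
  have := exp_mul_cos_le (exp_pos v).le θ
  nlinarith [abs_cos_le_one θ, exp_pos (exp v * cos θ), abs_nonneg (cos θ)]

lemma abs_ii_sub_one_le (v : ℝ) : |ii v - 1| ≤ exp v * exp (exp v) := by
  have e : ii v - 1 = (1 / π) * ∫ θ in (0:ℝ)..π, (exp (exp v * cos θ) - 1) := by
    rw [intervalIntegral.integral_sub ((by fun_prop : Continuous _).intervalIntegrable _ _)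
      intervalIntegrable_const]
    unfold ii I0
    simp only [intervalIntegral.integral_const, sub_zero, smul_eq_mul, mul_one]
    field_simp
  rw [e]
  refine avg_bound fun θ => ?_
  have ht := exp_pos v
  have h1 := add_one_le_exp (exp v * cos θ)
  have h2 := exp_mul_cos_le ht.le θ
  have h3 := add_one_le_exp (-exp v)
  have h4 : 1 ≤ exp (exp v) := one_le_exp ht.le
  have h5 : exp (-exp v) * exp (exp v) = 1 := by rw [← exp_add]; simp
  rw [abs_le]
  constructor
  · nlinarith [neg_one_le_cos θ]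
  · nlinarith [exp_pos (exp v)]

/-- polynomial weight used in the growth classes -/
noncomputable def qq (v : ℝ) : ℝ := 3 * (2 + |v|) * (1 + exp v)

lemma one_le_qq (v : ℝ) : 1 + exp v ≤ qq v := by
  unfold qq
  nlinarith [abs_nonneg v, exp_pos v]

lemma qq_pos (v : ℝ) : 0 < qq v := by linarith [one_le_qq v, exp_pos v]

lemma kk_le (v : ℝ) : kk v ≤ qq v * exp (-exp v) := by
  have ht := exp_pos v
  rcases le_total 0 v with hv | hv
  · have h1 : 1 ≤ exp v := one_le_exp hv
    have h2 := exp_mul_kk_le v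
    have h3 := ka_upper v
    have h4 := kk_nonneg v
    have h5 := one_le_qq v
    nlinarith [exp_pos (-exp v)]
  · have h1 : exp v ≤ 1 := exp_le_one_iff.2 hv
    have h0 := kk_asym 0
    have hv' := kk_asym v
    have h2 := exp_mul_kk_le 0
    have h3 := ka_le_one 0
    rw [exp_zero] at h2
    have h4 : kk v ≤ 2 + |v| := by rw [abs_of_nonpos hv]; linarith [h0.1, hv'.2]
    have h5 : 1 ≤ 3 * exp (-exp v) := by
      have : exp (-1) ≤ exp (-exp v) := exp_le_exp.2 (by linarith)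
      have h6 : exp 1 < 3 := exp_one_lt_three
      have h7 : exp (-1) * exp 1 = 1 := by rw [← exp_add]; simp
      nlinarith [exp_pos (-1)]
    unfold qq
    have h8 : 0 ≤ 2 + |v| := by positivity
    calc kk v ≤ (2 + |v|) * 1 * 1 := by linarith
      _ ≤ (2 + |v|) * (3 * exp (-exp v)) * (1 + exp v) := by
          apply mul_le_mul (mul_le_mul_of_nonneg_left h5 h8) (by linarith) zero_le_one
          positivity
      _ = _ := by ring

/-- growth class: continuous and bounded by a power of the weight times an exponential -/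
def Gr (n : ℕ) (a : ℝ) (φ : ℝ → ℝ) : Prop :=
  Continuous φ ∧ ∃ C, 0 ≤ C ∧ ∀ v, |φ v| ≤ C * (qq v ^ n * exp (a * exp v))

lemma Gr.mul {n m : ℕ} {a b : ℝ} {φ ψ : ℝ → ℝ} (h1 : Gr n a φ) (h2 : Gr m b ψ) :
    Gr (n + m) (a + b) (fun v => φ v * ψ v) := by
  obtain ⟨c1, C1, hC1, h1⟩ := h1
  obtain ⟨c2, C2, hC2, h2⟩ := h2
  refine ⟨c1.mul c2, C1 * C2, by positivity, fun v => ?_⟩
  rw [abs_mul, add_mul, exp_add, pow_add]
  have := qq_pos v
  calc _ ≤ (C1 * (qq v ^ n * exp (a * exp v))) * (C2 * (qq v ^ m * exp (b * exp v))) :=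
        mul_le_mul (h1 v) (h2 v) (abs_nonneg _) (by positivity)
    _ = _ := by ring

lemma Gr.const (c : ℝ) : Gr 0 0 (fun _ => c) :=
  ⟨continuous_const, |c|, abs_nonneg _, fun v => by simp⟩

lemma Gr.pow {n : ℕ} {a : ℝ} {φ : ℝ → ℝ} (h : Gr n a φ) (j : ℕ) :
    Gr (j * n) (j * a) (fun v => φ v ^ j) := by
  induction j with
  | zero => simpa using Gr.const 1
  | succ j ih =>
    have := ih.mul h
    simp only [← pow_succ] at this
    rw [Nat.succ_mul]
    push_cast
    rw [add_mul, one_mul]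
    exact this

lemma Gr.mono {n m : ℕ} {a b : ℝ} {φ : ℝ → ℝ} (h : Gr n a φ) (hn : n ≤ m) (ha : a ≤ b) :
    Gr m b φ := by
  obtain ⟨c, C, hC, h⟩ := h
  refine ⟨c, C, hC, fun v => (h v).trans (mul_le_mul_of_nonneg_left ?_ hC)⟩
  have h1 : 1 ≤ qq v := by linarith [one_le_qq v, exp_pos v]
  exact mul_le_mul (pow_le_pow_right₀ h1 hn)
    (exp_le_exp.2 (mul_le_mul_of_nonneg_right ha (exp_pos v).le)) (exp_pos _).le (by positivity)

lemma Gr_kk : Gr 1 (-1) kk :=
  ⟨cont_kk, 1, zero_le_one, fun v => by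
    rw [abs_of_nonneg (kk_nonneg v)]; simpa using kk_le v⟩

lemma Gr_ka : Gr 1 (-1) ka :=
  ⟨cont_ka, 1, zero_le_one, fun v => by
    rw [abs_of_pos (ka_pos v)]
    have := mul_le_mul_of_nonneg_right (one_le_qq v) (exp_pos (-exp v)).le
    simpa using (ka_upper v).trans this⟩

lemma Gr_ii : Gr 1 1 ii :=
  ⟨cont_ii, 1, zero_le_one, fun v => by
    have := mul_le_mul_of_nonneg_right (one_le_qq v) (exp_pos (exp v)).le
    have h2 := abs_ii_le v
    simp only [pow_one, one_mul]
    nlinarith [exp_pos v, exp_pos (exp v)]⟩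

lemma Gr_io : Gr 1 1 io :=
  ⟨cont_io, 1, zero_le_one, fun v => by
    have := mul_le_mul_of_nonneg_right (one_le_qq v) (exp_pos (exp v)).le
    have h2 := abs_io_le v
    simp only [pow_one, one_mul]
    nlinarith [exp_pos v, exp_pos (exp v)]⟩

/-- envelope class -/
def Env (φ : ℝ → ℝ) : Prop :=
  Continuous φ ∧ ∃ C, 0 ≤ C ∧ ∀ v, |φ v| ≤ C * exp (|v| / 2 - exp v)

lemma Gr.env {n : ℕ} {a : ℝ} {φ : ℝ → ℝ} (h : Gr n a φ) (hn : n ≤ 8) (ha : a ≤ -2) : Env φ := by
  obtain ⟨c, C, hC, h⟩ := h.mono hn ha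
  refine ⟨c, C * 384 ^ 8, by positivity, fun v => (h v).trans ?_⟩
  rw [mul_assoc]
  apply mul_le_mul_of_nonneg_left _ hC
  have h1 : 2 + |v| ≤ 16 * exp (|v| / 16) := by
    have := add_one_le_exp (|v| / 16)
    linarith
  have h2 : 1 + exp v ≤ 8 * exp (exp v / 8) := by
    have := add_one_le_exp (exp v / 8)
    linarith
  have h3 : qq v ≤ 384 * exp (|v| / 16 + exp v / 8) := by
    unfold qq
    rw [exp_add]
    calc 3 * (2 + |v|) * (1 + exp v) ≤ 3 * (16 * exp (|v| / 16)) * (8 * exp (exp v / 8)) := by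
          apply mul_le_mul (by linarith) h2 (by positivity) (by positivity)
      _ = _ := by ring
  have h4 := pow_le_pow_left₀ (qq_pos v).le h3 8
  rw [mul_pow, ← exp_nat_mul] at h4
  calc qq v ^ 8 * exp (-2 * exp v)
      ≤ (384 ^ 8 * exp ((8:ℕ) * (|v| / 16 + exp v / 8))) * exp (-2 * exp v) :=
        mul_le_mul_of_nonneg_right h4 (exp_pos _).le
    _ = _ := by
        rw [mul_assoc, ← exp_add]
        congr 2
        push_cast
        ring

lemma Env.add {φ ψ : ℝ → ℝ} (h1 : Env φ) (h2 : Env ψ) : Env (fun v => φ v + ψ v) := by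
  obtain ⟨c1, C1, hC1, h1⟩ := h1
  obtain ⟨c2, C2, hC2, h2⟩ := h2
  refine ⟨c1.add c2, C1 + C2, by positivity, fun v => (abs_add_le _ _).trans ?_⟩
  have := h1 v
  have := h2 v
  linarith

lemma Env.cmul {φ : ℝ → ℝ} (h : Env φ) (c : ℝ) : Env (fun v => c * φ v) := by
  obtain ⟨c1, C1, hC1, h1⟩ := h
  refine ⟨continuous_const.mul c1, |c| * C1, by positivity, fun v => ?_⟩
  rw [abs_mul, mul_assoc]
  exact mul_le_mul_of_nonneg_left (h1 v) (abs_nonneg c)

lemma Env.zero : Env (fun _ => 0) := ⟨continuous_const, 0, le_rfl, fun v => by simp⟩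

/-- monomials in the four functions with at least two more decaying than growing factors -/
lemma env_mono (a b c d : ℕ) (h1 : a + b + c + d ≤ 8) (h2 : a + b + 2 ≤ c + d) :
    Env (fun v => ii v ^ a * io v ^ b * kk v ^ c * ka v ^ d) := by
  have h := (((Gr_ii.pow a).mul (Gr_io.pow b)).mul (Gr_kk.pow c)).mul (Gr_ka.pow d)
  refine h.env (by omega) ?_
  have : (a : ℝ) + b + 2 ≤ c + d := by exact_mod_cast h2
  linarith

lemma exp_env_le {s : ℝ} (h1 : 1 ≤ s) (h2 : s ≤ 10) (v : ℝ) :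
    exp (s * v) * exp (|v| / 2 - exp v) ≤ (Nat.factorial 11 : ℝ) * exp (-(|v| / 2)) := by
  have hf : (1 : ℝ) ≤ (Nat.factorial 11 : ℝ) := by exact_mod_cast Nat.factorial_pos 11
  rcases le_total 0 v with hv | hv
  · have h := Real.pow_div_factorial_le_exp (exp v) (exp_pos v).le 11
    rw [div_le_iff₀ (by linarith), ← exp_nat_mul] at h
    rw [abs_of_nonneg hv, ← exp_add]
    have e : exp (s * v + (v / 2 - exp v)) = exp (s * v + v) * (exp (exp v))⁻¹ * exp (-(v / 2)) := by
      rw [← exp_neg, ← exp_add, ← exp_add]; congr 1; ring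
    rw [e]
    apply mul_le_mul_of_nonneg_right _ (exp_pos _).le
    rw [← div_eq_mul_inv, div_le_iff₀ (exp_pos _)]
    have : exp (s * v + v) ≤ exp ((11:ℕ) * v) := exp_le_exp.2 (by push_cast; nlinarith)
    linarith
  · rw [abs_of_nonpos hv, ← exp_add]
    have : exp (s * v + (-v / 2 - exp v)) ≤ exp (-(-v / 2)) :=
      exp_le_exp.2 (by nlinarith [exp_pos v])
    nlinarith [exp_pos (-(-v / 2))]

lemma integrable_exp_neg_abs_half : Integrable (fun v : ℝ => exp (-(|v| / 2))) := by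
  rw [← integrableOn_univ, ← Iic_union_Ioi (a := (0:ℝ))]
  apply IntegrableOn.union
  · refine (integrableOn_exp_mul_Iic (a := 1 / 2) (by norm_num) 0).congr_fun (fun v hv => ?_)
      measurableSet_Iic
    have : v ≤ 0 := hv
    simp only [abs_of_nonpos this]
    congr 1; ring
  · refine (integrableOn_exp_mul_Ioi (a := -(1 / 2)) (by norm_num) 0).congr_fun (fun v hv => ?_)
      measurableSet_Ioi
    have : 0 < v := hv
    simp only [abs_of_pos this]
    congr 1; ring

lemma Env.bound {φ : ℝ → ℝ} (h : Env φ) : ∃ C, 0 ≤ C ∧ ∀ s, 1 ≤ s → s ≤ 10 → ∀ v,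
    |exp (s * v) * φ v| ≤ C * exp (-(|v| / 2)) := by
  obtain ⟨_, C, hC, h⟩ := h
  refine ⟨C * (Nat.factorial 11 : ℝ), by positivity, fun s h1 h2 v => ?_⟩
  rw [abs_mul, abs_of_pos (exp_pos _)]
  calc _ ≤ exp (s * v) * (C * exp (|v| / 2 - exp v)) :=
        mul_le_mul_of_nonneg_left (h v) (exp_pos _).le
    _ = C * (exp (s * v) * exp (|v| / 2 - exp v)) := by ring
    _ ≤ C * ((Nat.factorial 11 : ℝ) * exp (-(|v| / 2))) :=
        mul_le_mul_of_nonneg_left (exp_env_le h1 h2 v) hC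
    _ = _ := by ring

lemma Env.integrable {φ : ℝ → ℝ} (h : Env φ) {s : ℝ} (h1 : 1 ≤ s) (h2 : s ≤ 10) :
    Integrable (fun v => exp (s * v) * φ v) := by
  obtain ⟨C, _, hC⟩ := h.bound
  have := h.1
  exact Integrable.mono' (integrable_exp_neg_abs_half.const_mul C)
    (by fun_prop : Continuous _).aestronglyMeasurable (Eventually.of_forall (hC s h1 h2))

lemma tendsto_exp_neg_abs_half {l : Filter ℝ} (hl : Tendsto (fun v : ℝ => |v|) l atTop) :
    Tendsto (fun v : ℝ => exp (-(|v| / 2))) l (𝓝 0) :=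
  tendsto_exp_neg_atTop_nhds_zero.comp (hl.atTop_div_const (by norm_num))

lemma Env.tendsto {φ : ℝ → ℝ} (h : Env φ) {s : ℝ} (h1 : 1 ≤ s) (h2 : s ≤ 10) {l : Filter ℝ}
    (hl : Tendsto (fun v : ℝ => |v|) l atTop) :
    Tendsto (fun v => exp (s * v) * φ v) l (𝓝 0) := by
  obtain ⟨C, _, hC⟩ := h.bound
  have := (tendsto_exp_neg_abs_half hl).const_mul C
  rw [mul_zero] at this
  exact squeeze_zero_norm (hC s h1 h2) this

lemma Env.le_exp_neg {φ : ℝ → ℝ} (h : Env φ) : ∃ C, 0 ≤ C ∧ ∀ v, |φ v| ≤ C * exp (-v) := by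
  obtain ⟨C, hC0, hC⟩ := h.bound
  refine ⟨C, hC0, fun v => ?_⟩
  have h1 := hC 1 le_rfl (by norm_num) v
  rw [abs_mul, abs_of_pos (exp_pos _), one_mul] at h1
  have h2 : exp (-(|v| / 2)) ≤ 1 := exp_le_one_iff.2 (by have := abs_nonneg v; linarith)
  rw [exp_neg, ← div_eq_mul_inv, le_div_iff₀ (exp_pos v)]
  nlinarith

lemma Env.integrableOn_Ioi {φ : ℝ → ℝ} (h : Env φ) (a : ℝ) : IntegrableOn φ (Ioi a) := by
  obtain ⟨C, _, hC⟩ := h.le_exp_neg
  exact Integrable.mono' ((integrableOn_exp_neg_Ioi a).const_mul C) h.1.aestronglyMeasurable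
    (Eventually.of_forall hC)

lemma Env.tendsto_atTop {φ : ℝ → ℝ} (h : Env φ) : Tendsto φ atTop (𝓝 0) := by
  obtain ⟨C, _, hC⟩ := h.le_exp_neg
  have := tendsto_exp_neg_atTop_nhds_zero.const_mul C
  rw [mul_zero] at this
  exact squeeze_zero_norm hC this

/-- change of variables to the logarithmic scale -/
lemma integral_Ioi_eq_log (g : ℝ → ℝ) : ∫ t in Ioi (0:ℝ), g t = ∫ v, exp v * g (exp v) := by
  rw [← range_exp, ← image_univ,
    integral_image_eq_integral_abs_deriv_smul MeasurableSet.univ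
      (fun x _ => (hasDerivAt_exp x).hasDerivWithinAt) (fun x _ y _ hxy => exp_injective hxy) g]
  simp [abs_of_pos (exp_pos _)]

end Pool.Agent.P.MP_8d0004_nt.Bes
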