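import Pool.Agent.P.MP_8d0004_nt.Bes.Conv

/-! Comparison of regularised square integrals of two functions linked by random shifts. -/

namespace Pool.Agent.P.MP_8d0004_nt.Bes

open MeasureTheory Real Set Filter Topology

variable {μ : Measure ℝ}

lemma Wb.prod_le {a C : ℝ} {φ : ℝ → ℝ} (ha1 : |a| ≤ 1) (hC : 0 ≤ C)
    (h : ∀ y, |φ y| ≤ C * exp (a * y)) {s : ℝ} (hs : |s| ≤ 1) (y w w' : ℝ) :
    |φ (y + s * w) * φ (y + s * w')| ≤ C * C * exp (2 * a * y) * (exp |w| * exp |w'|) := by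
  have h1 := mul_le_mul (Wb.shift_le (Lip.lin ha1) hC h hs y w)
    (Wb.shift_le (Lip.lin ha1) hC h hs y w') (abs_nonneg _) (by positivity)
  rw [← abs_mul] at h1
  refine h1.trans (le_of_eq ?_)
  rw [show 2 * a * y = a * y + a * y by ring, exp_add]; ring

lemma sq_prod_integrable [SFinite μ] {a : ℝ} {φ : ℝ → ℝ} (hμ : Integrable (fun w => exp |w|) μ)
    (ha : 0 < a) (ha1 : a ≤ 1) (h : Wb (fun y => a * y) φ) {s : ℝ} (hs : |s| ≤ 1) (Y : ℝ) :
    Integrable (Function.uncurry fun (y : ℝ) (z : ℝ × ℝ) => φ (y + s * z.1) * φ (y + s * z.2))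
      ((volume.restrict (Iic Y)).prod (μ.prod μ)) := by
  obtain ⟨c, C, hC, h⟩ := h
  refine (((integrableOn_exp_mul_Iic (a := 2 * a) (by linarith) Y).const_mul (C * C)).mul_prod
    (hμ.mul_prod hμ)).mono' (by fun_prop : Continuous _).aestronglyMeasurable
    (Eventually.of_forall fun z => ?_)
  exact Wb.prod_le (by rwa [abs_of_pos ha]) hC h hs _ _ _

lemma sq_int [SFinite μ] {a : ℝ} {φ : ℝ → ℝ} (hμ : Integrable (fun w => exp |w|) μ)
    (ha : 0 < a) (ha1 : a ≤ 1) (h : Wb (fun y => a * y) φ) {s : ℝ} (hs : |s| ≤ 1) (Y : ℝ) :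
    ∫ y in Iic Y, TT μ s φ y ^ 2 =
      ∫ z, (∫ y in Iic Y, φ (y + s * z.1) * φ (y + s * z.2)) ∂(μ.prod μ) := by
  rw [← integral_integral_swap (sq_prod_integrable hμ ha ha1 h hs Y)]
  congr 1; funext y
  rw [integral_prod_mul (fun w => φ (y + s * w)) (fun w => φ (y + s * w)), sq]
  rfl

lemma integral_Iic_shift (k : ℝ → ℝ) (Y b : ℝ) :
    ∫ y in Iic Y, k (y - b) = ∫ u in Iic (Y - b), k u := by
  have := (measurePreserving_sub_right (volume : Measure ℝ) b).setIntegral_preimage_emb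
    (measurableEmbedding_subRight b) k (Iic (Y - b))
  rw [← this]
  congr 2
  ext y; simp

lemma sq_diff [SFinite μ] {a : ℝ} {φ : ℝ → ℝ} (hμ : Integrable (fun w => exp |w|) μ)
    (ha : 0 < a) (ha1 : a ≤ 1) (h : Wb (fun y => a * y) φ) (Y : ℝ) :
    (∫ y in Iic Y, TT μ 1 φ y ^ 2) - ∫ y in Iic Y, TT μ (-1) φ y ^ 2 =
      ∫ z, (∫ u in (Y - (z.1 + z.2))..Y, φ (u + z.1) * φ (u + z.2)) ∂(μ.prod μ) := by
  have s1 : |(1:ℝ)| ≤ 1 := by simp
  have s2 : |(-1:ℝ)| ≤ 1 := by simp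
  have j1 := (sq_prod_integrable hμ ha ha1 h s1 Y).integral_prod_right
  have j2 := (sq_prod_integrable hμ ha ha1 h s2 Y).integral_prod_right
  simp only [Function.uncurry] at j1 j2
  rw [sq_int hμ ha ha1 h s1, sq_int hμ ha ha1 h s2, ← integral_sub j1 j2]
  congr 1; funext z
  have hi : ∀ b, IntegrableOn (fun u => φ (u + z.1) * φ (u + z.2)) (Iic b) := fun b => by
    obtain ⟨c, C, hC, h⟩ := h
    refine (((integrableOn_exp_mul_Iic (a := 2 * a) (by linarith) b).const_mul (C * C)).mul_const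
      (exp |z.1| * exp |z.2|)).mono' (by fun_prop : Continuous _).aestronglyMeasurable
      (Eventually.of_forall fun y => ?_)
    simpa using Wb.prod_le (by rwa [abs_of_pos ha]) hC h s1 y z.1 z.2
  rw [← intervalIntegral.integral_Iic_sub_Iic (hi _) (hi _),
    ← integral_Iic_shift (fun u => φ (u + z.1) * φ (u + z.2)) Y (z.1 + z.2)]
  simp only [one_mul]
  congr 2; funext y
  rw [mul_comm]; congr 2 <;> ring

lemma window_le {Y u w w' : ℝ} (hY : 0 ≤ Y) (hu : u ∈ uIoc (Y - (w + w')) Y) :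
    Y - (|w| + |w'|) ≤ u + w ∧ Y - (|w| + |w'|) ≤ u + w' ∧
      |u + w| ≤ Y + (|w| + |w'|) ∧ |u + w'| ≤ Y + (|w| + |w'|) := by
  have h1 := le_abs_self w
  have h2 := le_abs_self w'
  have h3 := neg_abs_le w
  have h4 := neg_abs_le w'
  have h5 := abs_nonneg w
  have h6 := abs_nonneg w'
  rcases mem_uIoc.1 hu with ⟨a, b⟩ | ⟨a, b⟩ <;>
    refine ⟨by linarith, by linarith, abs_le.2 ⟨by linarith, by linarith⟩,
      abs_le.2 ⟨by linarith, by linarith⟩⟩

lemma abs_add_le_exp (w w' : ℝ) : |w + w'| ≤ 4 * exp ((|w| + |w'|) / 4) := by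
  have := add_one_le_exp ((|w| + |w'|) / 4)
  linarith [abs_add_le w w']

lemma window_cont {φ : ℝ → ℝ} (c : Continuous φ) (Y : ℝ) :
    Continuous (fun z : ℝ × ℝ => ∫ u in (Y - (z.1 + z.2))..Y, φ (u + z.1) * φ (u + z.2)) := by
  have := (intervalIntegral.continuous_parametric_intervalIntegral_of_continuous (μ := volume)
    (f := fun (z : ℝ × ℝ) u => φ (u + z.1) * φ (u + z.2)) (a₀ := Y) (by fun_prop)
    (s := fun z => Y - (z.1 + z.2)) (by fun_prop)).neg
  refine this.congr fun z => ?_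
  rw [intervalIntegral.integral_symm Y]
  rfl

lemma window_integrable [SFinite μ] {a : ℝ} {φ : ℝ → ℝ} (hμ : Integrable (fun w => exp |w|) μ)
    (ha : 0 < a) (ha1 : a ≤ 1 / 2) (h : Wb (fun y => a / 2 * |y|) φ) {Y : ℝ} (hY : 0 ≤ Y) :
    Integrable (fun z : ℝ × ℝ => ∫ u in (Y - (z.1 + z.2))..Y, φ (u + z.1) * φ (u + z.2))
      (μ.prod μ) := by
  obtain ⟨c, C, hC, h⟩ := h
  refine ((hμ.mul_prod hμ).const_mul (C * C * exp (a * Y) * 4)).mono'
    (window_cont c Y).aestronglyMeasurable (Eventually.of_forall fun z => ?_)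
  refine (intervalIntegral.norm_integral_le_of_norm_le_const
    (C := C * C * exp (a * (Y + (|z.1| + |z.2|)))) fun u hu => ?_).trans ?_
  · obtain ⟨_, _, h3, h4⟩ := window_le hY hu
    rw [Real.norm_eq_abs, abs_mul]
    refine (mul_le_mul (h _) (h _) (abs_nonneg _) (by positivity)).trans ?_
    rw [mul_mul_mul_comm, ← exp_add]
    gcongr
    nlinarith
  · rw [sub_sub_cancel]
    refine (mul_le_mul_of_nonneg_left (abs_add_le_exp _ _) (by positivity)).trans ?_
    rw [← exp_add]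
    have e : ∀ A B D E : ℝ, A + B ≤ D + E → exp A * (4 * exp B) ≤ exp D * 4 * exp E := by
      intro A B D E h
      have := exp_le_exp.2 h
      rw [exp_add, exp_add] at this
      linarith
    rw [mul_assoc (C * C), mul_assoc (C * C), mul_assoc (C * C)]
    refine mul_le_mul_of_nonneg_left (e _ _ _ _ ?_) (by positivity)
    nlinarith [abs_nonneg z.1, abs_nonneg z.2]

lemma window_tendsto [SFinite μ] {a : ℝ} {φ Φ : ℝ → ℝ} (hμ : Integrable (fun w => exp |w|) μ)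
    (ha : 0 < a) (ha1 : a ≤ 1 / 2) (h : Wb (fun y => a / 2 * |y|) φ)
    (h' : Wb (fun y => a / 2 * |y|) Φ) (hd : Wb (fun y => -a * y) (fun y => φ y - Φ y)) :
    Tendsto (fun Y => (∫ z, (∫ u in (Y - (z.1 + z.2))..Y, φ (u + z.1) * φ (u + z.2)) ∂(μ.prod μ))
      - ∫ z, (∫ u in (Y - (z.1 + z.2))..Y, Φ (u + z.1) * Φ (u + z.2)) ∂(μ.prod μ))
      atTop (𝓝 0) := by
  have i1 := fun Y (hY : 0 ≤ Y) => window_integrable hμ ha ha1 h hY
  have i2 := fun Y (hY : 0 ≤ Y) => window_integrable hμ ha ha1 h' hY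
  obtain ⟨c, C, hC, h⟩ := h
  obtain ⟨c', C', hC', h'⟩ := h'
  obtain ⟨_, D, hD, hd⟩ := hd
  have lim : Tendsto (fun Y => D * (C + C') * exp (-(a / 2 * Y)) * 4 *
      ∫ z, exp |z.1| * exp |z.2| ∂(μ.prod μ)) atTop (𝓝 0) := by
    have := (((tendsto_exp_neg_atTop_nhds_zero.comp
      (tendsto_id.const_mul_atTop (half_pos ha))).const_mul (D * (C + C'))).mul_const 4).mul_const
      (∫ z, exp |z.1| * exp |z.2| ∂(μ.prod μ))
    simpa using this
  refine squeeze_zero_norm' ?_ lim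
  filter_upwards [Ici_mem_atTop (0:ℝ)] with Y hY
  have hY' : 0 ≤ Y := hY
  rw [← integral_sub (i1 Y hY) (i2 Y hY), ← integral_const_mul]
  refine norm_integral_le_of_norm_le ((hμ.mul_prod hμ).const_mul _)
    (Eventually.of_forall fun z => ?_)
  rw [← intervalIntegral.integral_sub ((by fun_prop : Continuous _).intervalIntegrable _ _)
    ((by fun_prop : Continuous _).intervalIntegrable _ _)]
  refine (intervalIntegral.norm_integral_le_of_norm_le_const
    (C := D * (C + C') * exp (-(a / 2 * Y) + 3 / 4 * (|z.1| + |z.2|))) fun u hu => ?_).trans ?_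
  · obtain ⟨h1, h2, h3, h4⟩ := window_le hY' hu
    have e : φ (u + z.1) * φ (u + z.2) - Φ (u + z.1) * Φ (u + z.2) =
        (φ (u + z.1) - Φ (u + z.1)) * φ (u + z.2) + (φ (u + z.2) - Φ (u + z.2)) * Φ (u + z.1) := by
      ring
    have S := add_nonneg (abs_nonneg z.1) (abs_nonneg z.2)
    have k : ∀ (p q E : ℝ) (ψ : ℝ → ℝ), 0 ≤ E → (∀ y, |ψ y| ≤ E * exp (a / 2 * |y|)) →
        Y - (|z.1| + |z.2|) ≤ p → |q| ≤ Y + (|z.1| + |z.2|) →
        |(φ p - Φ p) * ψ q| ≤ D * E * exp (-(a / 2 * Y) + 3 / 4 * (|z.1| + |z.2|)) := by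
      intro p q E ψ hE hψ hp hq
      rw [abs_mul]
      refine (mul_le_mul (hd _) (hψ _) (abs_nonneg _) (by positivity)).trans ?_
      rw [mul_mul_mul_comm, ← exp_add]
      refine mul_le_mul_of_nonneg_left (exp_le_exp.2 ?_) (by positivity)
      beta_reduce
      nlinarith
    rw [Real.norm_eq_abs, e]
    refine (abs_add_le _ _).trans ?_
    linarith [k _ _ C φ hC h h1 h4, k _ _ C' Φ hC' h' h2 h3]
  · rw [sub_sub_cancel]
    refine (mul_le_mul_of_nonneg_left (abs_add_le_exp _ _) (by positivity)).trans (le_of_eq ?_)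
    have : exp (-(a / 2 * Y) + 3 / 4 * (|z.1| + |z.2|)) * exp ((|z.1| + |z.2|) / 4) =
        exp (-(a / 2 * Y)) * (exp |z.1| * exp |z.2|) := by
      rw [← exp_add, ← exp_add, ← exp_add]; congr 1; ring
    linear_combination (D * (C + C') * 4) * this

lemma sq_tendsto {a : ℝ} {p q : ℝ → ℝ} (ha : 0 < a) (hp : Wb (fun y => a * y) p)
    (hq : Wb (fun y => a * y) q) (hq' : Wb (fun y => a / 2 * |y|) q)
    (hd : Wb (fun y => -a * |y|) (fun y => p y - q y)) :
    Tendsto (fun Y => (∫ y in Iic Y, p y ^ 2) - ∫ y in Iic Y, q y ^ 2) atTop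
      (𝓝 ((∫ y, (p y - q y) ^ 2) + 2 * ∫ y, (p y - q y) * q y)) := by
  have i1 : Integrable (fun y => (p y - q y) ^ 2) := by
    have := ((hd.mul hd).mono (g' := fun y => -a * |y|) fun y => by
      nlinarith [abs_nonneg y]).integrable (integrable_exp_neg_abs ha)
    simpa [sq] using this
  have i2 : Integrable (fun y => (p y - q y) * q y) :=
    ((hd.mul hq').mono (g' := fun y => -(a / 2) * |y|) fun y => by linarith).integrable
      (integrable_exp_neg_abs (half_pos ha))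
  have i3 : ∀ {r : ℝ → ℝ}, Wb (fun y => a * y) r → ∀ Y, IntegrableOn (fun y => r y ^ 2) (Iic Y) := by
    intro r hr Y
    have := ((hr.mul hr).mono (g' := fun y => 2 * a * y) fun y => by linarith).integrable
      (integrableOn_exp_mul_Iic (a := 2 * a) (by linarith) Y)
    simpa [sq, IntegrableOn] using this
  rw [← integral_const_mul, ← integral_add i1 (i2.const_mul 2)]
  refine ((aecover_Iic (μ := volume) tendsto_id).integral_tendsto_of_countably_generated
    (i1.add (i2.const_mul 2))).congr fun Y => ?_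
  rw [← integral_sub (i3 hp Y) (i3 hq Y)]
  congr 1; funext y
  simp only [Pi.add_apply]; ring

theorem reg_diff [IsFiniteMeasure μ] {a : ℝ} {p γ φ Φ : ℝ → ℝ}
    (hμ : Integrable (fun w => exp |w|) μ) (hχ : ∀ ξ, chi μ ξ ≠ 0) (ha : 0 < a) (ha1 : a ≤ 1 / 2)
    (hp : Wb (fun y => a * y) p) (hγ : Wb (fun y => a * y) γ) (hφ : Wb (fun y => a * y) φ)
    (hφ' : Wb (fun y => a / 2 * |y|) φ) (hΦ : Wb (fun y => a / 2 * |y|) Φ)
    (hd : Wb (fun y => -a * y) (fun y => φ y - Φ y))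
    (hpd : Wb (fun y => -a * y) (fun y => p y - TT μ (-1) Φ y))
    (hγd : Wb (fun y => -a * y) (fun y => γ y - TT μ 1 Φ y))
    (h : ∀ y, TT μ 1 p y = TT μ (-1) γ y) :
    Tendsto (fun Y => (∫ y in Iic Y, γ y ^ 2) - (∫ y in Iic Y, p y ^ 2)
      - ∫ z, (∫ u in (Y - (z.1 + z.2))..Y, Φ (u + z.1) * Φ (u + z.2)) ∂(μ.prod μ))
      atTop (𝓝 0) := by
  have s1 : |(1:ℝ)| ≤ 1 := by simp
  have s2 : |(-1:ℝ)| ≤ 1 := by simp
  have l1 : Lip (fun y => a * y) := Lip.lin (by rw [abs_of_pos ha]; linarith)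
  have l2 : Lip (fun y => -a * y) := Lip.lin (by rw [abs_neg, abs_of_pos ha]; linarith)
  have l3 : Lip (fun y => a / 2 * |y|) := Lip.abs (by rw [abs_of_pos (half_pos ha)]; linarith)
  have l4 : Lip (fun y => -a * |y|) := Lip.abs (by rw [abs_neg, abs_of_pos ha]; linarith)
  have dec : ∀ {s : ℝ} {r : ℝ → ℝ}, |s| ≤ 1 → Wb (fun y => a * y) r →
      Wb (fun y => -a * y) (fun y => r y - TT μ s Φ y) →
      Wb (fun y => -a * |y|) (fun y => r y - TT μ s φ y) := by
    intro s r hs h1 h2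
    refine (h1.sub (hφ.TT hμ l1 hs)).inf ((h2.sub (hd.TT hμ l2 hs)).congr fun y => ?_)
    rw [TT_sub hμ l3 l3 hφ' hΦ hs]; ring
  have df := dec s2 hp hpd
  have dg := dec s1 hγ hγd
  have rel : ∀ y, TT μ 1 (fun y => p y - TT μ (-1) φ y) y
      = TT μ (-1) (fun y => γ y - TT μ 1 φ y) y := fun y => by
    rw [TT_sub hμ l1 l1 hp (hφ.TT hμ l1 s2) s1, TT_sub hμ l1 l1 hγ (hφ.TT hμ l1 s1) s2, h,
      TT_comm hμ l1 hφ s1 s2]
  have pl := plancherel hμ hχ ha (by linarith) df dg rel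
  have hi : Integrable (fun y => exp (-a * |y| + a / 2 * |y|)) := by
    have := integrable_exp_neg_abs (half_pos ha)
    refine this.congr (Eventually.of_forall fun y => ?_)
    simp only; congr 1; ring
  have c1 := TT_adj hμ l4 l3 df hφ' hi s2
  have c2 := TT_adj hμ l4 l3 dg hφ' hi s1
  rw [neg_neg] at c1
  simp_rw [rel] at c1
  have t1 := sq_tendsto ha hp (hφ.TT hμ l1 s2) (hφ'.TT hμ l3 s2) df
  have t2 := sq_tendsto ha hγ (hφ.TT hμ l1 s1) (hφ'.TT hμ l3 s1) dg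
  rw [pl, c1, ← c2] at t1
  have t3 := (t2.sub t1).add (window_tendsto hμ ha ha1 hφ' hΦ hd)
  rw [sub_self, add_zero] at t3
  refine t3.congr fun Y => ?_
  rw [← sq_diff hμ ha (by linarith) hφ Y]
  ring

end Pool.Agent.P.MP_8d0004_nt.Bes
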