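import Pool.Agent.P.MP_8d0004_nt.Bes.Eqv

/-! The eighth symmetric power of the Bessel system, its invariant pairing and moment recurrences. -/

namespace Pool.Agent.P.MP_8d0004_nt.Bes

open Real MeasureTheory Set Filter Topology Asymptotics

/-- first order system satisfied by the symmetric power vector, with weight `w` -/
structure Ode (f : ℕ → ℝ → ℝ) (w : ℝ → ℝ) : Prop where
  d0 : ∀ v, HasDerivAt (f 0) (f 1 v) v
  d : ∀ j : ℕ, j ≤ 7 → ∀ v,
    HasDerivAt (f (j + 1)) (((j:ℝ) + 2) * f (j + 2) v + (8 - (j:ℝ)) * (w v * f j v)) v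
  top : ∀ v, f 9 v = 0

lemma Ode.shift {f : ℕ → ℝ → ℝ} {w : ℝ → ℝ} (h : Ode f w) (x : ℝ) :
    Ode (fun j v => f j (v + x)) (fun v => w (v + x)) :=
  ⟨fun v => (h.d0 (v + x)).comp_add_const v x, fun j hj v => (h.d j hj (v + x)).comp_add_const v x,
    fun _ => h.top _⟩

/-- the invariant pairing -/
noncomputable def pair (a b : ℕ → ℝ) : ℝ :=
  a 0 * b 8 - a 1 * b 7 / 8 + a 2 * b 6 / 28 - a 3 * b 5 / 56 + a 4 * b 4 / 70 - a 5 * b 3 / 56
    + a 6 * b 2 / 28 - a 7 * b 1 / 8 + a 8 * b 0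

/-- the pairing with the lowering operator applied to the first vector -/
noncomputable def hM (a b : ℕ → ℝ) : ℝ :=
  -(a 0 * b 7) + 1 / 4 * (a 1 * b 6) - 3 / 28 * (a 2 * b 5) + 1 / 14 * (a 3 * b 4)
    - 1 / 14 * (a 4 * b 3) + 3 / 28 * (a 5 * b 2) - 1 / 4 * (a 6 * b 1) + a 7 * b 0

lemma pair_deriv {f g : ℕ → ℝ → ℝ} {w1 w2 : ℝ → ℝ} (hf : Ode f w1) (hg : Ode g w2) (v : ℝ) :
    HasDerivAt (fun v => pair (fun j => f j v) (fun j => g j v))
      ((w1 v - w2 v) * hM (fun j => f j v) (fun j => g j v)) v := by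
  have f0 := hf.d0 v
  have f1 := hf.d 0 (by norm_num) v
  have f2 := hf.d 1 (by norm_num) v
  have f3 := hf.d 2 (by norm_num) v
  have f4 := hf.d 3 (by norm_num) v
  have f5 := hf.d 4 (by norm_num) v
  have f6 := hf.d 5 (by norm_num) v
  have f7 := hf.d 6 (by norm_num) v
  have f8 := hf.d 7 (by norm_num) v
  have g0 := hg.d0 v
  have g1 := hg.d 0 (by norm_num) v
  have g2 := hg.d 1 (by norm_num) v
  have g3 := hg.d 2 (by norm_num) v
  have g4 := hg.d 3 (by norm_num) v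
  have g5 := hg.d 4 (by norm_num) v
  have g6 := hg.d 5 (by norm_num) v
  have g7 := hg.d 6 (by norm_num) v
  have g8 := hg.d 7 (by norm_num) v
  have f9 := hf.top v
  have g9 := hg.top v
  norm_num at f1 f2 f3 f4 f5 f6 f7 f8 g1 g2 g3 g4 g5 g6 g7 g8
  rw [f9] at f8
  rw [g9] at g8
  have := ((((((((f0.fun_mul g8).fun_sub ((f1.fun_mul g7).div_const 8)).fun_add
    ((f2.fun_mul g6).div_const 28)).fun_sub ((f3.fun_mul g5).div_const 56)).fun_add
    ((f4.fun_mul g4).div_const 70)).fun_sub ((f5.fun_mul g3).div_const 56)).fun_add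
    ((f6.fun_mul g2).div_const 28)).fun_sub ((f7.fun_mul g1).div_const 8)).fun_add (f8.fun_mul g0)
  unfold pair hM
  exact this.congr_deriv (by ring)

/-- vector attached to the eighth power of the decaying Bessel function -/
noncomputable def fK (j : ℕ) (v : ℝ) : ℝ := (Nat.choose 8 j : ℝ) * (-1) ^ j * (kk v ^ (8 - j) * ka v ^ j)

/-- vector attached to the product of two growing and six decaying Bessel functions -/
noncomputable def gK (j : ℕ) (v : ℝ) : ℝ :=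
  (Nat.choose 6 j : ℝ) * (-1) ^ j * (ii v ^ 2 * io v ^ 0 * kk v ^ (6 - j) * ka v ^ j)
    + (if j = 0 then 0 else 2 * (Nat.choose 6 (j - 1) : ℝ) * (-1) ^ (j - 1))
      * (ii v ^ 1 * io v ^ 1 * kk v ^ (6 - (j - 1)) * ka v ^ (j - 1))
    + (if j ≤ 1 then 0 else (Nat.choose 6 (j - 2) : ℝ) * (-1) ^ (j - 2))
      * (ii v ^ 0 * io v ^ 2 * kk v ^ (6 - (j - 2)) * ka v ^ (j - 2))

/-- polynomial model vector -/
noncomputable def Gm (n : ℕ) (a : ℝ) (j : ℕ) (v : ℝ) : ℝ :=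
  (Nat.choose n j : ℝ) * (-1) ^ j * (a - v) ^ (n - j)

lemma mono_deriv (a b c d : ℕ) (v : ℝ) :
    HasDerivAt (fun v => ii v ^ a * io v ^ b * kk v ^ c * ka v ^ d)
      (a * ii v ^ (a - 1) * io v * io v ^ b * kk v ^ c * ka v ^ d
        + ii v ^ a * (b * io v ^ (b - 1) * (exp v ^ 2 * ii v)) * kk v ^ c * ka v ^ d
        + ii v ^ a * io v ^ b * (c * kk v ^ (c - 1) * -ka v) * ka v ^ d
        + ii v ^ a * io v ^ b * kk v ^ c * (d * ka v ^ (d - 1) * -(exp v ^ 2 * kk v))) v := by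
  have := ((((hii v).fun_pow a).fun_mul ((hio v).fun_pow b)).fun_mul ((hkk v).fun_pow c)).fun_mul
    ((hka v).fun_pow d)
  exact this.congr_deriv (by ring)

lemma ode_fK : Ode fK (fun v => exp v ^ 2) := by
  have key : ∀ j v, HasDerivAt (fK j) ((Nat.choose 8 j : ℝ) * (-1) ^ j *
      (((8 - j : ℕ) : ℝ) * kk v ^ (8 - j - 1) * -ka v * ka v ^ j
        + kk v ^ (8 - j) * (j * ka v ^ (j - 1) * -(exp v ^ 2 * kk v)))) v :=
    fun j v => (((hkk v).fun_pow (8 - j)).fun_mul ((hka v).fun_pow j)).const_mul _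
  refine ⟨fun v => (key 0 v).congr_deriv (by simp [fK]; ring), fun j hj v => (key (j + 1) v).congr_deriv ?_,
    fun v => by simp [fK, Nat.choose]⟩
  interval_cases j <;> simp [fK, Nat.choose] <;> ring

lemma ode_gK : Ode gK (fun v => exp v ^ 2) := by
  have key : ∀ j v, HasDerivAt (gK j) _ v := fun j v =>
    (((mono_deriv 2 0 (6 - j) j v).const_mul ((Nat.choose 6 j : ℝ) * (-1) ^ j)).fun_add
      ((mono_deriv 1 1 (6 - (j - 1)) (j - 1) v).const_mul
        (if j = 0 then 0 else 2 * (Nat.choose 6 (j - 1) : ℝ) * (-1) ^ (j - 1)))).fun_add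
      ((mono_deriv 0 2 (6 - (j - 2)) (j - 2) v).const_mul
        (if j ≤ 1 then 0 else (Nat.choose 6 (j - 2) : ℝ) * (-1) ^ (j - 2)))
  refine ⟨fun v => (key 0 v).congr_deriv (by simp [gK]; ring), fun j hj v => (key (j + 1) v).congr_deriv ?_,
    fun v => by simp [gK, Nat.choose]⟩
  interval_cases j <;> simp [gK, Nat.choose] <;> ring

lemma ode_Gm7 (a : ℝ) : Ode (Gm 7 a) (fun _ => 0) := by
  have key : ∀ j v, HasDerivAt (Gm 7 a j) ((Nat.choose 7 j : ℝ) * (-1) ^ j *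
      (((7 - j : ℕ) : ℝ) * (a - v) ^ (7 - j - 1) * -1)) v :=
    fun j v => (((hasDerivAt_id' v).const_sub a).fun_pow (7 - j)).const_mul _
  refine ⟨fun v => (key 0 v).congr_deriv (by simp [Gm]), fun j hj v => (key (j + 1) v).congr_deriv ?_,
    fun v => by simp [Gm, Nat.choose]⟩
  interval_cases j <;> simp [Gm, Nat.choose] <;> ring

lemma Env.congr {φ ψ : ℝ → ℝ} (h : Env φ) (e : ∀ u, φ u = ψ u) : Env ψ := by
  have : φ = ψ := funext e
  rwa [← this]

lemma env_fK (j : ℕ) : Env (fK j) := by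
  by_cases hj : j ≤ 8
  · have := (env_mono 0 0 (8 - j) j (by omega) (by omega)).cmul ((Nat.choose 8 j : ℝ) * (-1) ^ j)
    refine this.congr fun v => ?_
    simp [fK]
  · have : fK j = fun _ => 0 := by
      funext v
      simp [fK, Nat.choose_eq_zero_of_lt (show 8 < j by omega)]
    rw [this]
    exact Env.zero

lemma env_cmono (c : ℝ) (a b i : ℕ) (hab : a + b = 2) (h : 6 < i → c = 0) :
    Env (fun v => c * (ii v ^ a * io v ^ b * kk v ^ (6 - i) * ka v ^ i)) := by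
  by_cases hi : i ≤ 6
  · exact (env_mono a b (6 - i) i (by omega) (by omega)).cmul c
  · rw [h (by omega)]
    simpa using Env.zero

lemma env_gK (j : ℕ) : Env (gK j) := by
  refine ((env_cmono _ 2 0 j rfl ?_).add (env_cmono _ 1 1 (j - 1) rfl ?_)).add
    (env_cmono _ 0 2 (j - 2) rfl ?_)
  · intro h; simp [Nat.choose_eq_zero_of_lt h]
  · intro h; simp [Nat.choose_eq_zero_of_lt h]
  · intro h; simp [Nat.choose_eq_zero_of_lt h]

lemma eqv_fK (j : ℕ) : Eqv (fK j) (Gm 8 cc j) :=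
  ((eqv_mono 0 0 (8 - j) j).cmul ((Nat.choose 8 j : ℝ) * (-1) ^ j)).congr
    (fun u => by simp [fK]) (fun u => by simp [Gm])

lemma eqv_gK (j : ℕ) : Eqv (gK j) (Gm 6 cc j) :=
  ((((eqv_mono 2 0 (6 - j) j).cmul ((Nat.choose 6 j : ℝ) * (-1) ^ j)).add
    ((eqv_mono 1 1 (6 - (j - 1)) (j - 1)).cmul
      (if j = 0 then 0 else 2 * (Nat.choose 6 (j - 1) : ℝ) * (-1) ^ (j - 1)))).add
    ((eqv_mono 0 2 (6 - (j - 2)) (j - 2)).cmul
      (if j ≤ 1 then 0 else (Nat.choose 6 (j - 2) : ℝ) * (-1) ^ (j - 2)))).congr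
    (fun _ => rfl) (fun u => by simp [Gm])

lemma eqv_Gm (n : ℕ) (a : ℝ) (j : ℕ) : Eqv (Gm n a j) (Gm n a j) :=
  ((Eqv.refl (Pol.lin a)).pow (n - j)).cmul _

lemma eqv_pair {f g f' g' : ℕ → ℝ → ℝ} (hf : ∀ j, Eqv (f j) (f' j)) (hg : ∀ j, Eqv (g j) (g' j)) :
    Eqv (fun v => pair (fun j => f j v) (fun j => g j v))
      (fun v => pair (fun j => f' j v) (fun j => g' j v)) := by
  have m : ∀ i j (c : ℝ), Eqv (fun v => c * (f i v * g j v)) (fun v => c * (f' i v * g' j v)) :=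
    fun i j c => ((hf i).mul (hg j)).cmul c
  exact (((((((((m 0 8 1).add (m 1 7 (-1 / 8))).add (m 2 6 (1 / 28))).add (m 3 5 (-1 / 56))).add
    (m 4 4 (1 / 70))).add (m 5 3 (-1 / 56))).add (m 6 2 (1 / 28))).add (m 7 1 (-1 / 8))).add
    (m 8 0 1)).congr (fun u => by unfold pair; ring) (fun u => by unfold pair; ring)

lemma tendsto_pair {f g : ℕ → ℝ → ℝ}
    (h : ∀ i j, Tendsto (fun v => f i v * g j v) atTop (𝓝 0)) :
    Tendsto (fun v => pair (fun j => f j v) (fun j => g j v)) atTop (𝓝 0) := by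
  have := ((((((((h 0 8).sub ((h 1 7).div_const 8)).add ((h 2 6).div_const 28)).sub
    ((h 3 5).div_const 56)).add ((h 4 4).div_const 70)).sub ((h 5 3).div_const 56)).add
    ((h 6 2).div_const 28)).sub ((h 7 1).div_const 8)).add (h 8 0)
  simpa [pair] using this

lemma integrable_hM {α : Type*} [MeasurableSpace α] {μ : Measure α} {f g : ℕ → α → ℝ}
    (h : ∀ i j, Integrable (fun z => f i z * g j z) μ) :
    Integrable (fun z => hM (fun j => f j z) (fun j => g j z)) μ := by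
  unfold hM
  exact ((((((((h 0 7).neg).add ((h 1 6).const_mul _)).sub ((h 2 5).const_mul _)).add
    ((h 3 4).const_mul _)).sub ((h 4 3).const_mul _)).add ((h 5 2).const_mul _)).sub
    ((h 6 1).const_mul _)).add (h 7 0)

lemma integral_hM {α : Type*} [MeasurableSpace α] {μ : Measure α} {f g : ℕ → α → ℝ}
    (h : ∀ i j, Integrable (fun z => f i z * g j z) μ) :
    ∫ z, hM (fun j => f j z) (fun j => g j z) ∂μ =
      -(∫ z, f 0 z * g 7 z ∂μ) + 1 / 4 * (∫ z, f 1 z * g 6 z ∂μ) - 3 / 28 * (∫ z, f 2 z * g 5 z ∂μ)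
        + 1 / 14 * (∫ z, f 3 z * g 4 z ∂μ) - 1 / 14 * (∫ z, f 4 z * g 3 z ∂μ)
        + 3 / 28 * (∫ z, f 5 z * g 2 z ∂μ) - 1 / 4 * (∫ z, f 6 z * g 1 z ∂μ)
        + ∫ z, f 7 z * g 0 z ∂μ := by
  have a0 := (h 0 7).neg
  have a1 := a0.add ((h 1 6).const_mul (1 / 4))
  have a2 := a1.sub ((h 2 5).const_mul (3 / 28))
  have a3 := a2.add ((h 3 4).const_mul (1 / 14))
  have a4 := a3.sub ((h 4 3).const_mul (1 / 14))
  have a5 := a4.add ((h 5 2).const_mul (3 / 28))
  have a6 := a5.sub ((h 6 1).const_mul (1 / 4))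
  unfold hM
  erw [integral_add a6 (h 7 0), integral_sub a5 ((h 6 1).const_mul _),
    integral_add a4 ((h 5 2).const_mul _), integral_sub a3 ((h 4 3).const_mul _),
    integral_add a2 ((h 3 4).const_mul _), integral_sub a1 ((h 2 5).const_mul _),
    integral_add a0 ((h 1 6).const_mul _), integral_neg]
  simp only [integral_const_mul]

/-- moments -/
noncomputable def mom (φ : ℝ → ℝ) (s : ℝ) : ℝ := ∫ v, exp (s * v) * φ v

lemma mom_deriv {φ φ' : ℝ → ℝ} (h : Env φ) (hd : ∀ v, HasDerivAt φ (φ' v) v) {s : ℝ} (h1 : 1 ≤ s)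
    (h2 : s ≤ 10) (hi : Integrable (fun v => exp (s * v) * φ' v)) :
    ∫ v, exp (s * v) * φ' v = -(s * mom φ s) := by
  have hD : ∀ v, HasDerivAt (fun v => exp (s * v) * φ v)
      (s * (exp (s * v) * φ v) + exp (s * v) * φ' v) v := fun v =>
    ((((hasDerivAt_id' v).const_mul s).exp).fun_mul (hd v)).congr_deriv (by ring)
  have := integral_of_hasDerivAt_of_tendsto hD (((h.integrable h1 h2).const_mul s).add hi)
    (h.tendsto h1 h2 tendsto_abs_atBot_atTop) (h.tendsto h1 h2 tendsto_abs_atTop_atTop)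
  rw [integral_add ((h.integrable h1 h2).const_mul s) hi, integral_const_mul] at this
  unfold mom
  linarith

lemma exp_add_two (s v : ℝ) : exp ((s + 2) * v) = exp (s * v) * exp v ^ 2 := by
  rw [← exp_nat_mul, ← exp_add]; congr 1; push_cast; ring

lemma mom_rec0 {f : ℕ → ℝ → ℝ} (ho : Ode f (fun v => exp v ^ 2)) (he : ∀ j, Env (f j)) {s : ℝ}
    (h1 : 1 ≤ s) (h2 : s ≤ 8) : mom (f 1) s = -(s * mom (f 0) s) :=
  mom_deriv (he 0) ho.d0 h1 (by linarith) ((he 1).integrable h1 (by linarith))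

lemma mom_rec {f : ℕ → ℝ → ℝ} (ho : Ode f (fun v => exp v ^ 2)) (he : ∀ j, Env (f j)) {s : ℝ}
    (h1 : 1 ≤ s) (h2 : s ≤ 8) (j : ℕ) (hj : j ≤ 7) :
    ((j:ℝ) + 2) * mom (f (j + 2)) s + (8 - (j:ℝ)) * mom (f j) (s + 2) = -(s * mom (f (j + 1)) s) := by
  have e : ∀ v, exp (s * v) * (((j:ℝ) + 2) * f (j + 2) v + (8 - (j:ℝ)) * (exp v ^ 2 * f j v))
      = ((j:ℝ) + 2) * (exp (s * v) * f (j + 2) v) + (8 - (j:ℝ)) * (exp ((s + 2) * v) * f j v) := by
    intro v; rw [exp_add_two]; ring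
  have i1 := ((he (j + 2)).integrable h1 (by linarith)).const_mul ((j:ℝ) + 2)
  have i2 := ((he j).integrable (s := s + 2) (by linarith) (by linarith)).const_mul (8 - (j:ℝ))
  have := mom_deriv (he (j + 1)) (ho.d j hj) h1 (by linarith) (by simp_rw [e]; exact i1.add i2)
  simp_rw [e] at this
  rw [integral_add i1 i2, integral_const_mul, integral_const_mul] at this
  exact this

lemma mom_values {f : ℕ → ℝ → ℝ} (ho : Ode f (fun v => exp v ^ 2)) (he : ∀ j, Env (f j)) :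
    mom (f 1) 2 = -2 * mom (f 0) 2 ∧
    mom (f 2) 2 = 2 * mom (f 0) 2 - 4 * mom (f 0) 4 ∧
    mom (f 3) 2 = -4 / 3 * mom (f 0) 2 + 12 * mom (f 0) 4 ∧
    mom (f 4) 2 = 2 / 3 * mom (f 0) 2 - 18 * mom (f 0) 4 + 6 * mom (f 0) 6 ∧
    mom (f 5) 2 = -4 / 15 * mom (f 0) 2 + 268 / 15 * mom (f 0) 4 - 326 / 15 * mom (f 0) 6 := by
  have a2 := mom_rec0 ho he (s := 2) (by norm_num) (by norm_num)
  have a4 := mom_rec0 ho he (s := 4) (by norm_num) (by norm_num)
  have a6 := mom_rec0 ho he (s := 6) (by norm_num) (by norm_num)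
  have b0 := mom_rec ho he (s := 2) (by norm_num) (by norm_num) 0 (by norm_num)
  have b1 := mom_rec ho he (s := 2) (by norm_num) (by norm_num) 1 (by norm_num)
  have b2 := mom_rec ho he (s := 2) (by norm_num) (by norm_num) 2 (by norm_num)
  have b3 := mom_rec ho he (s := 2) (by norm_num) (by norm_num) 3 (by norm_num)
  have c0 := mom_rec ho he (s := 4) (by norm_num) (by norm_num) 0 (by norm_num)
  have c1 := mom_rec ho he (s := 4) (by norm_num) (by norm_num) 1 (by norm_num)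
  norm_num at a2 a4 a6 b0 b1 b2 b3 c0 c1
  refine ⟨by linarith, by linarith, by linarith, by linarith, by linarith⟩

end Pool.Agent.P.MP_8d0004_nt.Bes
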