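import Pool.Agent.P.MP_8d0004_nt.Bes.Jb

/-! The third order equation of the Hankel transform of one growing and three decaying factors. -/

namespace Pool.Agent.P.MP_8d0004_nt.Bes

open MeasureTheory Real Set Filter Topology

/-- monomials -/
noncomputable def mo (e a b c d : ℕ) (v : ℝ) : ℝ :=
  (exp v ^ 2) ^ e * (ii v ^ a * io v ^ b * kk v ^ c * ka v ^ d)

lemma Gr_exp : Gr 1 0 exp :=
  ⟨continuous_exp, 1, zero_le_one, fun v => by
    rw [abs_of_pos (exp_pos v)]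
    simp only [pow_one, zero_mul, exp_zero, mul_one, one_mul]
    linarith [one_le_qq v]⟩

lemma env_mo (e a b c d : ℕ) (h1 : 2 * e + a + b + c + d ≤ 8) (h2 : a + b + 2 ≤ c + d) :
    Env (mo e a b c d) := by
  have h := ((Gr_exp.pow 2).pow e).mul
    ((((Gr_ii.pow a).mul (Gr_io.pow b)).mul (Gr_kk.pow c)).mul (Gr_ka.pow d))
  refine h.env (by omega) ?_
  have : (a:ℝ) + b + 2 ≤ c + d := by exact_mod_cast h2
  push_cast
  linarith

lemma eqv_w : Eqv (fun v => exp v ^ 2) (fun _ => 0) :=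
  ⟨Pol.const 0, Neg.of_le (C := 1) fun u hu => by
    have h1 := exp_le_one_iff.2 hu
    have h2 := exp_pos u
    rw [sub_zero, abs_of_pos (by positivity)]
    nlinarith⟩

lemma eqv_mo (e a b c d : ℕ) : Eqv (mo e a b c d) (fun v => 0 ^ e * (0 ^ b * (cc - v) ^ c)) :=
  (eqv_w.pow e).mul (eqv_mono a b c d)

lemma mo_deriv (e a b c d : ℕ) (v : ℝ) : HasDerivAt (mo e a b c d)
    (e * (exp v ^ 2) ^ (e - 1) * (2 * exp v ^ 2) * (ii v ^ a * io v ^ b * kk v ^ c * ka v ^ d)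
      + (exp v ^ 2) ^ e * (a * ii v ^ (a - 1) * io v * io v ^ b * kk v ^ c * ka v ^ d
        + ii v ^ a * (b * io v ^ (b - 1) * (exp v ^ 2 * ii v)) * kk v ^ c * ka v ^ d
        + ii v ^ a * io v ^ b * (c * kk v ^ (c - 1) * -ka v) * ka v ^ d
        + ii v ^ a * io v ^ b * kk v ^ c * (d * ka v ^ (d - 1) * -(exp v ^ 2 * kk v)))) v := by
  have h : HasDerivAt (fun v => exp v ^ 2) (2 * exp v ^ 2) v :=
    ((hasDerivAt_exp v).fun_pow 2).congr_deriv (by push_cast; ring)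
  exact ((h.fun_pow e).fun_mul (mono_deriv a b c d v)).congr_deriv (by ring)

noncomputable def b0 (v : ℝ) : ℝ := mo 0 1 0 3 0 v
noncomputable def b1 (v : ℝ) : ℝ := mo 0 0 1 3 0 v + -3 * mo 0 1 0 2 1 v
noncomputable def b2 (v : ℝ) : ℝ := -6 * mo 0 0 1 2 1 v + 6 * mo 0 1 0 1 2 v + 4 * mo 1 1 0 3 0 v
noncomputable def b3 (v : ℝ) : ℝ := 18 * mo 0 0 1 1 2 v + -6 * mo 0 1 0 0 3 v + 10 * mo 1 0 1 3 0 v
  + -30 * mo 1 1 0 2 1 v + 8 * mo 1 1 0 3 0 v
noncomputable def b4 (v : ℝ) : ℝ := -24 * mo 0 0 1 0 3 v + -96 * mo 1 0 1 2 1 v + 96 * mo 1 1 0 1 2 v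
  + 28 * mo 1 0 1 3 0 v + -84 * mo 1 1 0 2 1 v + 16 * mo 1 1 0 3 0 v + 40 * mo 2 1 0 3 0 v

lemma hb0 (v : ℝ) : HasDerivAt b0 (b1 v) v :=
  (mo_deriv 0 1 0 3 0 v).congr_deriv (by simp [b1, mo]; ring)

lemma hb1 (v : ℝ) : HasDerivAt b1 (b2 v) v :=
  ((mo_deriv 0 0 1 3 0 v).fun_add ((mo_deriv 0 1 0 2 1 v).const_mul _)).congr_deriv
    (by simp [b2, mo]; ring)

lemma hb2 (v : ℝ) : HasDerivAt b2 (b3 v) v :=
  ((((mo_deriv 0 0 1 2 1 v).const_mul _).fun_add ((mo_deriv 0 1 0 1 2 v).const_mul _)).fun_add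
    ((mo_deriv 1 1 0 3 0 v).const_mul _)).congr_deriv (by simp [b3, mo]; ring)

lemma hb3 (v : ℝ) : HasDerivAt b3 (b4 v) v :=
  ((((((mo_deriv 0 0 1 1 2 v).const_mul _).fun_add ((mo_deriv 0 1 0 0 3 v).const_mul _)).fun_add
    ((mo_deriv 1 0 1 3 0 v).const_mul _)).fun_add ((mo_deriv 1 1 0 2 1 v).const_mul _)).fun_add
    ((mo_deriv 1 1 0 3 0 v).const_mul _)).congr_deriv (by simp [b4, mo]; ring)

lemma hb4 (v : ℝ) : HasDerivAt b4 (exp v ^ 2 * (20 * b3 v + 60 * b2 v + 72 * b1 v + 32 * b0 v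
    + -64 * (exp v ^ 2 * (b1 v + 2 * b0 v)))) v :=
  ((((((((mo_deriv 0 0 1 0 3 v).const_mul _).fun_add ((mo_deriv 1 0 1 2 1 v).const_mul _)).fun_add
    ((mo_deriv 1 1 0 1 2 v).const_mul _)).fun_add ((mo_deriv 1 0 1 3 0 v).const_mul _)).fun_add
    ((mo_deriv 1 1 0 2 1 v).const_mul _)).fun_add ((mo_deriv 1 1 0 3 0 v).const_mul _)).fun_add
    ((mo_deriv 2 1 0 3 0 v).const_mul _)).congr_deriv (by simp [b0, b1, b2, b3, mo]; ring)

lemma env_b0 : Env b0 := env_mo 0 1 0 3 0 (by norm_num) (by norm_num)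

lemma env_b1 : Env b1 :=
  (env_mo 0 0 1 3 0 (by norm_num) (by norm_num)).add
    ((env_mo 0 1 0 2 1 (by norm_num) (by norm_num)).cmul _)

lemma env_b2 : Env b2 :=
  (((env_mo 0 0 1 2 1 (by norm_num) (by norm_num)).cmul _).add
    ((env_mo 0 1 0 1 2 (by norm_num) (by norm_num)).cmul _)).add
    ((env_mo 1 1 0 3 0 (by norm_num) (by norm_num)).cmul _)

lemma env_b3 : Env b3 :=
  (((((env_mo 0 0 1 1 2 (by norm_num) (by norm_num)).cmul _).add
    ((env_mo 0 1 0 0 3 (by norm_num) (by norm_num)).cmul _)).add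
    ((env_mo 1 0 1 3 0 (by norm_num) (by norm_num)).cmul _)).add
    ((env_mo 1 1 0 2 1 (by norm_num) (by norm_num)).cmul _)).add
    ((env_mo 1 1 0 3 0 (by norm_num) (by norm_num)).cmul _)

lemma env_b4 : Env b4 :=
  (((((((env_mo 0 0 1 0 3 (by norm_num) (by norm_num)).cmul _).add
    ((env_mo 1 0 1 2 1 (by norm_num) (by norm_num)).cmul _)).add
    ((env_mo 1 1 0 1 2 (by norm_num) (by norm_num)).cmul _)).add
    ((env_mo 1 0 1 3 0 (by norm_num) (by norm_num)).cmul _)).add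
    ((env_mo 1 1 0 2 1 (by norm_num) (by norm_num)).cmul _)).add
    ((env_mo 1 1 0 3 0 (by norm_num) (by norm_num)).cmul _)).add
    ((env_mo 2 1 0 3 0 (by norm_num) (by norm_num)).cmul _)

lemma b4_integrable : Integrable b4 := by
  rw [← integrableOn_univ, ← Iic_union_Ioi (a := (0:ℝ))]
  refine IntegrableOn.union ?_ (env_b4.integrableOn_Ioi 0)
  have := ((((((((eqv_mo 0 0 1 0 3).cmul (-24)).add ((eqv_mo 1 0 1 2 1).cmul (-96))).add
    ((eqv_mo 1 1 0 1 2).cmul 96)).add ((eqv_mo 1 0 1 3 0).cmul 28)).add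
    ((eqv_mo 1 1 0 2 1).cmul (-84))).add ((eqv_mo 1 1 0 3 0).cmul 16)).add
    ((eqv_mo 2 1 0 3 0).cmul 40)).2
  exact (this.congr (ψ := b4) fun u => by simp [b4]).integrableOn env_b4.1 0

lemma AA_add {φ ψ : ℝ → ℝ} (h1 : In 2 φ) (h2 : In 2 ψ) (y : ℝ) :
    AA (fun v => φ v + ψ v) y = AA φ y + AA ψ y := by
  unfold AA
  rw [← integral_add (int_j0 h1 y) (int_j0 h2 y)]
  congr 1; funext v; ring

lemma AA_cmul (c : ℝ) (φ : ℝ → ℝ) (y : ℝ) : AA (fun v => c * φ v) y = c * AA φ y := by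
  unfold AA
  rw [← integral_const_mul]
  congr 1; funext v; ring

lemma In.add {φ ψ : ℝ → ℝ} {n : ℕ} (h1 : In n φ) (h2 : In n ψ) : In n (fun v => φ v + ψ v) :=
  (Integrable.add h1 h2).congr (Eventually.of_forall fun v => by simp only [Pi.add_apply]; ring)

lemma In.cmul {φ : ℝ → ℝ} {n : ℕ} (h : In n φ) (c : ℝ) : In n (fun v => c * φ v) :=
  (Integrable.const_mul h c).congr (Eventually.of_forall fun v => by simp only; ring)

lemma AA_step {φ φ' : ℝ → ℝ} (hd : ∀ v, HasDerivAt φ (φ' v) v) (h : Env φ) (h' : Env φ') (y : ℝ) :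
    HasDerivAt (AA φ) (-(2 * AA φ y + AA φ' y)) y := by
  rw [← PP_parts hd (h.In (by norm_num) (by norm_num)) (h.In (by norm_num) (by norm_num))
    (h'.In (by norm_num) (by norm_num))]
  exact AA_deriv h.1 (h.In (by norm_num) (by norm_num)) (h.In (by norm_num) (by norm_num)) y

lemma AA_decay {φ φ' : ℝ → ℝ} (hd : ∀ v, HasDerivAt φ (φ' v) v) (h : Env φ) (h' : Env φ') :
    ∃ C, 0 ≤ C ∧ ∀ y, |AA φ y| ≤ C * exp (-y) := by
  refine ⟨∫ v, |exp v ^ 1 * φ' v|, integral_nonneg fun _ => abs_nonneg _, fun y => ?_⟩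
  have h1 := AA_parts hd h'.1 (h.In (by norm_num) (by norm_num)) (h.In (by norm_num) (by norm_num))
    (h'.In (by norm_num) (by norm_num)) y
  have h2 := abs_PP_le (h'.In (n := 1) (by norm_num) (by norm_num)) y
  rw [← abs_neg, ← h1, abs_mul, abs_of_pos (pow_pos (exp_pos y) 2), sq, mul_assoc,
    mul_comm _ (exp y)] at h2
  rw [exp_neg, ← div_eq_mul_inv, le_div_iff₀ (exp_pos y), mul_comm]
  exact le_of_mul_le_mul_left h2 (exp_pos y)

lemma vanhove (y : ℝ) : exp y ^ 2 * (exp y ^ 2 * AA b3 y) =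
    -(exp y ^ 2 * (20 * AA b3 y + 60 * AA b2 y + 72 * AA b1 y + 32 * AA b0 y))
      - 64 * (AA b3 y + 6 * AA b2 y + 12 * AA b1 y + 8 * AA b0 y) := by
  have I : ∀ {φ : ℝ → ℝ}, Env φ → ∀ n, 1 ≤ n → n ≤ 10 → In n φ := fun h n h1 h2 => h.In h1 h2
  have e1 := env_b1.add (env_b0.cmul 2)
  have e2 := env_b2.add (env_b1.cmul 2)
  have e3 := env_b3.add (env_b2.cmul 2)
  have d1 := fun v => (hb1 v).fun_add ((hb0 v).const_mul 2)
  have d2 := fun v => (hb2 v).fun_add ((hb1 v).const_mul 2)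
  have i4 : In 2 (fun v => exp v ^ 2 * (b1 v + 2 * b0 v)) := (I e1 4 (by norm_num) (by norm_num)).shift
  have j0' := I env_b0 2 (by norm_num) (by norm_num)
  have j1' := I env_b1 2 (by norm_num) (by norm_num)
  have j2 := I env_b2 2 (by norm_num) (by norm_num)
  have j3 := I env_b3 2 (by norm_num) (by norm_num)
  have i5 := ((((j3.cmul 20).add (j2.cmul 60)).add (j1'.cmul 72)).add (j0'.cmul 32)).add (i4.cmul (-64))
  have i6 := int_j1 env_b4.1 (I env_b4 1 (by norm_num) (by norm_num)) y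
  have h1 := integral_eq_zero_of_hasDerivAt_of_integrable
    (f := fun v => j0 (y + v) * b4 v) (fun v =>
      (((hj0 (y + v)).comp_const_add y v).fun_mul (hb4 v)).congr_deriv
      (show _ = j0 (y + v) * (exp v ^ 2 * (20 * b3 v + 60 * b2 v + 72 * b1 v + 32 * b0 v
        + -64 * (exp v ^ 2 * (b1 v + 2 * b0 v)))) - j1 (y + v) * b4 v by ring))
    ((int_j0 i5 y).sub i6) (int_j0 b4_integrable y)
  rw [integral_sub (int_j0 i5 y) i6] at h1
  change AA _ y - PP b4 y = 0 at h1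
  rw [AA_add ((((j3.cmul 20).add (j2.cmul 60)).add (j1'.cmul 72)).add (j0'.cmul 32)) (i4.cmul _),
    AA_add (((j3.cmul 20).add (j2.cmul 60)).add (j1'.cmul 72)) (j0'.cmul 32),
    AA_add ((j3.cmul 20).add (j2.cmul 60)) (j1'.cmul 72), AA_add (j3.cmul 20) (j2.cmul 60),
    AA_cmul, AA_cmul, AA_cmul, AA_cmul, AA_cmul] at h1
  have h2 := AA_parts hb3 env_b4.1 (I env_b3 1 (by norm_num) (by norm_num)) j3
    (I env_b4 1 (by norm_num) (by norm_num)) y
  have e4 := e2.add (e1.cmul 2)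
  have e5 := e3.add (e2.cmul 2)
  have c4 := e4.1
  have h3 := AA_parts (φ := fun v => exp v ^ 2 * (b1 v + 2 * b0 v))
    (φ' := fun v => exp v ^ 2 * (b2 v + 2 * b1 v + 2 * (b1 v + 2 * b0 v)))
    (fun v => (((hasDerivAt_exp v).fun_pow 2).fun_mul (d1 v)).congr_deriv (by push_cast; ring))
    ((continuous_exp.pow 2).mul c4) (I e1 3 (by norm_num) (by norm_num)).shift i4
    (I e4 3 (by norm_num) (by norm_num)).shift y
  rw [PP_parts (fun v => (d2 v).fun_add ((d1 v).const_mul 2)) (I e4 2 (by norm_num) (by norm_num))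
    (I e4 3 (by norm_num) (by norm_num)) (I e5 2 (by norm_num) (by norm_num)),
    AA_add (j2.add (j1'.cmul 2)) ((j1'.add (j0'.cmul 2)).cmul 2),
    AA_add (j3.add (j2.cmul 2)) ((j2.add (j1'.cmul 2)).cmul 2), AA_cmul, AA_cmul,
    AA_add j2 (j1'.cmul 2), AA_add j1' (j0'.cmul 2), AA_add j3 (j2.cmul 2),
    AA_cmul, AA_cmul, AA_cmul] at h3
  linear_combination exp y ^ 2 * h1 + exp y ^ 2 * h2 + 64 * h3

lemma prim_asym {f g R Q : ℝ → ℝ} {C : ℝ} (hf : ∀ y, HasDerivAt f (g y) y)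
    (hR : ∀ y, HasDerivAt R (Q y) y) (cg : Continuous g) (cQ : Continuous Q)
    (h : ∀ y, 0 ≤ y → |g y - Q y| ≤ C * exp (-y)) :
    ∃ c, ∀ y, 0 ≤ y → |f y - (R y + c)| ≤ C * exp (-y) := by
  have hb : ∀ a, 0 ≤ a → ∀ᵐ x ∂(volume.restrict (Ioi a)), ‖g x - Q x‖ ≤ C * exp (-x) :=
    fun a ha => (ae_restrict_iff' measurableSet_Ioi).2
      (Eventually.of_forall fun x hx => h x (ha.trans (le_of_lt hx)))
  have hi : ∀ a, 0 ≤ a → IntegrableOn (fun x => g x - Q x) (Ioi a) := fun a ha =>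
    ((integrableOn_exp_neg_Ioi a).const_mul C).mono' (cg.sub cQ).aestronglyMeasurable (hb a ha)
  have ht := tendsto_limUnder_of_hasDerivAt_of_integrableOn_Ioi (a := 0)
    (fun x _ => (hf x).fun_sub (hR x)) (hi 0 le_rfl)
  refine ⟨limUnder atTop (fun x => f x - R x), fun y hy => ?_⟩
  have h1 := integral_Ioi_of_hasDerivAt_of_tendsto' (a := y) (fun x _ => (hf x).fun_sub (hR x))
    (hi y hy) ht
  have h2 := norm_integral_le_of_norm_le ((integrableOn_exp_neg_Ioi y).const_mul C) (hb y hy)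
  rw [h1, integral_const_mul, integral_exp_neg_Ioi, Real.norm_eq_abs, abs_sub_comm] at h2
  rwa [← sub_sub]

lemma PP_b0_asym : ∃ a b c d C : ℝ, ∀ y, 0 ≤ y →
    |PP b0 y - (a * y ^ 3 + b * y ^ 2 + c * y + d)| ≤ C * exp (-y) := by
  obtain ⟨C0, p0, h0⟩ := AA_decay hb0 env_b0 env_b1
  obtain ⟨C1, p1, h1⟩ := AA_decay hb1 env_b1 env_b2
  obtain ⟨C2, p2, h2⟩ := AA_decay hb2 env_b2 env_b3
  obtain ⟨C3, p3, h3⟩ := AA_decay hb3 env_b3 env_b4
  have dw : ∀ y, HasDerivAt (fun y => exp y ^ 2) (2 * exp y ^ 2) y := fun y =>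
    ((hasDerivAt_exp y).fun_pow 2).congr_deriv (by push_cast; ring)
  have st : ∀ {φ φ' : ℝ → ℝ} (c : ℝ), (∀ v, HasDerivAt φ (φ' v) v) → Env φ → Env φ' → ∀ y,
      HasDerivAt (fun y => c * (exp y ^ 2 * AA φ y)) (-c * (exp y ^ 2 * AA φ' y)) y :=
    fun c hd h h' y => (((dw y).fun_mul (AA_step hd h h' y)).const_mul c).congr_deriv (by ring)
  have d0 := st 1 hb0 env_b0 env_b1
  have d1 := st (-1) hb1 env_b1 env_b2
  have d2 := st (- -1) hb2 env_b2 env_b3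
  have d3 := st (- - -1) hb3 env_b3 env_b4
  have cont : ∀ {f g : ℝ → ℝ}, (∀ y, HasDerivAt f (g y) y) → Continuous f := fun h =>
    continuous_iff_continuousAt.2 fun y => (h y).continuousAt
  have k3 : ∀ y, 0 ≤ y → |- - -1 * (exp y ^ 2 * AA b3 y) - 0| ≤
      (84 * C3 + 444 * C2 + 840 * C1 + 544 * C0) * exp (-y) := fun y hy => by
    have s1 : 1 ≤ exp y ^ 2 := one_le_pow₀ (one_le_exp hy)
    have e : - - -1 * (exp y ^ 2 * AA b3 y) - 0 =
        (20 * AA b3 y + 60 * AA b2 y + 72 * AA b1 y + 32 * AA b0 y)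
          + (exp y ^ 2)⁻¹ * (64 * (AA b3 y + 6 * AA b2 y + 12 * AA b1 y + 8 * AA b0 y)) := by
      have := vanhove y
      field_simp
      linear_combination -this
    have s2 : |(exp y ^ 2)⁻¹| ≤ 1 := by
      rw [abs_of_pos (by positivity)]; exact inv_le_one_of_one_le₀ s1
    rw [e]
    refine (abs_add_le _ _).trans ?_
    have s3 := mul_le_of_le_one_left
      (abs_nonneg (64 * (AA b3 y + 6 * AA b2 y + 12 * AA b1 y + 8 * AA b0 y))) s2
    rw [abs_mul (exp y ^ 2)⁻¹]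
    have a0 := abs_le.1 (h0 y)
    have a1 := abs_le.1 (h1 y)
    have a2 := abs_le.1 (h2 y)
    have a3 := abs_le.1 (h3 y)
    have s4 : |20 * AA b3 y + 60 * AA b2 y + 72 * AA b1 y + 32 * AA b0 y| ≤
        (20 * C3 + 60 * C2 + 72 * C1 + 32 * C0) * exp (-y) :=
      abs_le.2 ⟨by linarith, by linarith⟩
    have s5 : |64 * (AA b3 y + 6 * AA b2 y + 12 * AA b1 y + 8 * AA b0 y)| ≤
        (64 * C3 + 384 * C2 + 768 * C1 + 512 * C0) * exp (-y) :=
      abs_le.2 ⟨by linarith, by linarith⟩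
    linarith
  obtain ⟨c2, k2⟩ := prim_asym d2 (R := fun _ => 0) (fun y => hasDerivAt_const y 0) (cont d3)
    continuous_const k3
  obtain ⟨c1, k1⟩ := prim_asym d1 (R := fun y => c2 * y) (Q := fun _ => 0 + c2)
    (fun y => ((hasDerivAt_id' y).const_mul c2).congr_deriv (by ring)) (cont d2) continuous_const k2
  obtain ⟨c0, k0⟩ := prim_asym d0 (R := fun y => c2 / 2 * y ^ 2 + c1 * y) (Q := fun y => c2 * y + c1)
    (fun y => (((hasDerivAt_pow 2 y).const_mul _).fun_add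
      ((hasDerivAt_id' y).const_mul c1)).congr_deriv (by push_cast; ring)) (cont d1) (by fun_prop) k1
  obtain ⟨c, k⟩ := prim_asym (f := PP b0) (g := fun y => 1 * (exp y ^ 2 * AA b0 y))
    (fun y => (PP_deriv env_b0.1 (env_b0.In (by norm_num) (by norm_num))
      (env_b0.In (by norm_num) (by norm_num)) y).congr_deriv (by ring))
    (R := fun y => c2 / 6 * y ^ 3 + c1 / 2 * y ^ 2 + c0 * y)
    (Q := fun y => c2 / 2 * y ^ 2 + c1 * y + c0)
    (fun y => ((((hasDerivAt_pow 3 y).const_mul _).fun_add ((hasDerivAt_pow 2 y).const_mul _)).fun_add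
      ((hasDerivAt_id' y).const_mul c0)).congr_deriv (by push_cast; ring)) (cont d0) (by fun_prop) k0
  exact ⟨_, _, _, _, _, k⟩

end Pool.Agent.P.MP_8d0004_nt.Bes
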